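import Mathlib

/-!
# Invariant classes of order two and subgroups of index two

`G` is a group which acts on the abelian group `A` by `a`, `N` is a normal subgroup (the geometric Galois
group), `U' ≤ U` are subgroups, `U'` of index two, and there is an `s` in `U ∩ N` which is not in `U'`.
We consider cocycles of `U ∩ N` (and `U' ∩ N`) with values in the elements of order two of `A`, whose
classes are fixed by `U` (by `U'`).
-/

set_option autoImplicit false

open scoped Classical

namespace Pool.Agent.K6.H71.PG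

variable {G A : Type*} [Group G] [AddCommGroup A]

/-- `a` is an action. -/
structure IsAct (a : G → A →+ A) : Prop where
  mul : ∀ x y P, a (x * y) P = a x (a y P)
  one : ∀ P, a 1 P = P

/-- A cocycle of `U ∩ N` with values in the elements of order two, whose class is fixed by `U`. -/
structure Coc (a : G → A →+ A) (N U : Subgroup G) (f : G → A) : Prop where
  mul : ∀ x ∈ U, x ∈ N → ∀ y ∈ U, y ∈ N → f (x * y) = f x + a x (f y)
  two : ∀ x ∈ U, x ∈ N → f x + f x = 0
  inv : ∀ t ∈ U, ∃ Q, Q + Q = 0 ∧ ∀ x ∈ U, x ∈ N → a t (f (t⁻¹ * x * t)) - f x = a x Q - Q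

/-- There are no elements of order two which are fixed by `U ∩ N`. -/
def NT (a : G → A →+ A) (N U : Subgroup G) : Prop :=
  ∀ Q, Q + Q = 0 → (∀ x ∈ U, x ∈ N → a x Q = Q) → Q = 0

structure Step (N U U' : Subgroup G) (s : G) : Prop where
  le : U' ≤ U
  mem : s ∈ U
  memN : s ∈ N
  not_mem : s ∉ U'
  dich : ∀ t ∈ U, t ∈ U' ∨ s⁻¹ * t ∈ U'

section

variable {a : G → A →+ A} {N U U' : Subgroup G} {s : G} (ha : IsAct a) (hN : N.Normal)
  (hs : Step N U U' s)

include hs

omit [AddCommGroup A] in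
theorem Step.sq : s * s ∈ U' := by
  rcases hs.dich (s * s) (U.mul_mem hs.mem hs.mem) with h | h
  · exact h
  · rw [← mul_assoc, inv_mul_cancel, one_mul] at h
    exact absurd h hs.not_mem

omit [AddCommGroup A] in
theorem Step.inv_mem {x : G} (hx : x ∈ U) (hx' : x ∉ U') : s⁻¹ * x ∈ U' :=
  (hs.dich x hx).resolve_left hx'

omit [AddCommGroup A] in
theorem Step.sconj {x : G} (hx : x ∈ U') : s⁻¹ * x * s ∈ U' := by
  have h1 : x * s ∈ U := U.mul_mem (hs.le hx) hs.mem
  have h3 : x * s ∉ U' := fun h => hs.not_mem (by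
    have := U'.mul_mem (U'.inv_mem hx) h
    rwa [← mul_assoc, inv_mul_cancel, one_mul] at this)
  have := hs.inv_mem h1 h3
  rwa [mul_assoc]

omit [AddCommGroup A] in
theorem Step.sconj' {x : G} (hx : x ∈ U') : s * x * s⁻¹ ∈ U' := by
  have h1 := hs.sconj (U'.mul_mem (U'.mul_mem hs.sq hx) (U'.inv_mem hs.sq))
  have e : s⁻¹ * (s * s * x * (s * s)⁻¹) * s = s * x * s⁻¹ := by group
  rwa [e] at h1

omit [AddCommGroup A] in
theorem Step.mul_inv {x : G} (hx : x ∈ U) (hx' : x ∉ U') : x * s⁻¹ ∈ U' := by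
  have h1 := hs.sconj' (hs.inv_mem hx hx')
  have e : s * (s⁻¹ * x) * s⁻¹ = x * s⁻¹ := by group
  rwa [e] at h1

omit [AddCommGroup A] in
theorem Step.mul_not {x : G} (hx : x ∈ U') : x * s ∉ U' := fun h => hs.not_mem (by
  have := U'.mul_mem (U'.inv_mem hx) h
  rwa [← mul_assoc, inv_mul_cancel, one_mul] at this)

omit [AddCommGroup A] in
/-- `U'` is normal in `U`. -/
theorem Step.normal {t x : G} (ht : t ∈ U) (hx : x ∈ U') : t⁻¹ * x * t ∈ U' := by
  rcases hs.dich t ht with h | h
  · exact U'.mul_mem (U'.mul_mem (U'.inv_mem h) hx) h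
  · have h1 := U'.mul_mem (U'.mul_mem (U'.inv_mem h) (hs.sconj hx)) h
    have e : (s⁻¹ * t)⁻¹ * (s⁻¹ * x * s) * (s⁻¹ * t) = t⁻¹ * x * t := by group
    rwa [e] at h1

omit hs [AddCommGroup A] in
theorem conj_N (hN : N.Normal) {t x : G} (hx : x ∈ N) : t⁻¹ * x * t ∈ N := by
  have := hN.conj_mem x hx t⁻¹
  rwa [inv_inv] at this

include ha hN

theorem step_nt (h : NT a N U) : NT a N U' := by
  intro Q hQ hf
  have hR : Q + a s Q = 0 := by
    refine h _ ?_ fun x hx hxN => ?_
    · rw [add_add_add_comm, ← map_add, hQ, map_zero, add_zero]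
    · have key : ∀ x ∈ U', x ∈ N → a x (Q + a s Q) = Q + a s Q := by
        intro x hx hxN
        have e : x * s = s * (s⁻¹ * x * s) := by group
        rw [map_add, hf x hx hxN, ← ha.mul, e, ha.mul, hf _ (hs.sconj hx) (conj_N hN hxN)]
      by_cases hx' : x ∈ U'
      · exact key x hx' hxN
      · have h1 := key _ (hs.mul_inv hx hx') (N.mul_mem hxN (N.inv_mem hs.memN))
        have h3 : a s (Q + a s Q) = Q + a s Q := by
          rw [map_add, ← ha.mul, hf _ hs.sq (N.mul_mem hs.memN hs.memN), add_comm]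
        have e : x = x * s⁻¹ * s := by group
        rw [e, ha.mul, h3, h1]
  refine h Q hQ fun x hx hxN => ?_
  have hsQ : a s Q = Q := by
    have h1 := eq_neg_of_add_eq_zero_right hR
    rw [h1]
    exact neg_eq_of_add_eq_zero_left hQ
  by_cases hx' : x ∈ U'
  · exact hf x hx' hxN
  · have e : x = x * s⁻¹ * s := by group
    rw [e, ha.mul, hsQ, hf _ (hs.mul_inv hx hx') (N.mul_mem hxN (N.inv_mem hs.memN))]

end

section coc

variable {a : G → A →+ A} {N U U' : Subgroup G} {s : G} (ha : IsAct a) (hN : N.Normal)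

theorem Coc.one {f : G → A} (hf : Coc a N U f) (ha : IsAct a) : f 1 = 0 := by
  have h := hf.mul 1 U.one_mem N.one_mem 1 U.one_mem N.one_mem
  rw [mul_one, ha.one] at h
  exact left_eq_add.1 h

include ha hN

omit ha in
/-- Inner automorphisms. -/
theorem Coc.inner {f : G → A} (hf : Coc a N U f) {u x : G} (hu : u ∈ U) (huN : u ∈ N) (hx : x ∈ U)
    (hxN : x ∈ N) : a u (f (u⁻¹ * x * u)) - f x = a x (f u) - f u := by
  have hc : u⁻¹ * x * u ∈ U := U.mul_mem (U.mul_mem (U.inv_mem hu) hx) hu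
  have h1 := hf.mul u hu huN _ hc (conj_N hN hxN)
  have h3 := hf.mul x hx hxN u hu huN
  have e : u * (u⁻¹ * x * u) = x * u := by group
  rw [e, h3] at h1
  have h4 : a u (f (u⁻¹ * x * u)) = f x + a x (f u) - f u := by
    rw [h1]
    abel
  rw [h4]
  abel

/-- The conjugate cocycle. -/
def sh (a : G → A →+ A) (s : G) (f : G → A) : G → A := fun x => a s (f (s⁻¹ * x * s))

theorem sh_coc (hs : Step N U U' s) {f : G → A} (hf : Coc a N U' f) : Coc a N U' (sh a s f) := by
  refine ⟨fun x hx hxN y hy hyN => ?_, fun x hx hxN => ?_, fun t ht => ?_⟩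
  · have e : s⁻¹ * (x * y) * s = (s⁻¹ * x * s) * (s⁻¹ * y * s) := by group
    have e' : x * s = s * (s⁻¹ * x * s) := by group
    show a s (f _) = a s (f _) + a x (a s (f _))
    rw [e, hf.mul _ (hs.sconj hx) (conj_N hN hxN) _ (hs.sconj hy) (conj_N hN hyN), map_add,
      ← ha.mul x s, e', ha.mul s]
  · show a s _ + a s _ = 0
    rw [← map_add, hf.two _ (hs.sconj hx) (conj_N hN hxN), map_zero]
  · obtain ⟨Q, hQ, h⟩ := hf.inv _ (hs.sconj ht)
    refine ⟨a s Q, by rw [← map_add, hQ, map_zero], fun x hx hxN => ?_⟩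
    have h1 := congrArg (a s) (h _ (hs.sconj hx) (conj_N hN hxN))
    rw [map_sub, map_sub, ← ha.mul, ← ha.mul] at h1
    have e1 : s * (s⁻¹ * t * s) = t * s := by group
    have e2 : (s⁻¹ * t * s)⁻¹ * (s⁻¹ * x * s) * (s⁻¹ * t * s) = s⁻¹ * (t⁻¹ * x * t) * s := by group
    have e3 : s * (s⁻¹ * x * s) = x * s := by group
    rw [e1, e2, e3, ha.mul, ha.mul] at h1
    exact h1

omit ha hN in
theorem Coc.add {f g : G → A} (hf : Coc a N U f) (hg : Coc a N U g) : Coc a N U (f + g) := by
  refine ⟨fun x hx hxN y hy hyN => ?_, fun x hx hxN => ?_, fun t ht => ?_⟩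
  · show f _ + g _ = (f x + g x) + a x (f y + g y)
    rw [hf.mul x hx hxN y hy hyN, hg.mul x hx hxN y hy hyN, map_add]
    abel
  · show (f x + g x) + (f x + g x) = 0
    rw [add_add_add_comm, hf.two x hx hxN, hg.two x hx hxN, add_zero]
  · obtain ⟨Q, hQ, h⟩ := hf.inv t ht
    obtain ⟨R, hR, h'⟩ := hg.inv t ht
    refine ⟨Q + R, by rw [add_add_add_comm, hQ, hR, add_zero], fun x hx hxN => ?_⟩
    show a t (f _ + g _) - (f x + g x) = _
    have h1 := h x hx hxN
    have h3 := h' x hx hxN
    rw [map_add, map_add, add_sub_add_comm, h1, h3]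
    abel

/-- The extension of a cocycle of `U' ∩ N` to `U ∩ N`. -/
noncomputable def ext (a : G → A →+ A) (U' : Subgroup G) (s : G) (Q : A) (g : G → A) : G → A :=
  fun x => if x ∈ U' then g x else g (x * s⁻¹) + a (x * s⁻¹) Q

omit ha hN in
theorem ext_mem {Q : A} {g : G → A} {x : G} (hx : x ∈ U') : ext a U' s Q g x = g x := if_pos hx

omit ha hN in
theorem ext_not {Q : A} {g : G → A} {x : G} (hx : x ∉ U') :
    ext a U' s Q g x = g (x * s⁻¹) + a (x * s⁻¹) Q := if_neg hx

/-- The relation for `s ^ 2`. -/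
theorem ext_sq (hs : Step N U U' s) (h2 : NT a N U') {g : G → A} (hg : Coc a N U' g) {Q : A}
    (hQ : Q + Q = 0) (hi : ∀ x ∈ U', x ∈ N → a s (g (s⁻¹ * x * s)) - g x = a x Q - Q) :
    g (s * s) = Q + a s Q := by
  have hsN := hs.memN
  rw [← sub_eq_zero]
  refine h2 _ ?_ fun x hx hxN => ?_
  · have h1 := hg.two _ hs.sq (N.mul_mem hsN hsN)
    have h3 : a s Q + a s Q = 0 := by rw [← map_add, hQ, map_zero]
    rw [sub_add_sub_comm, h1, add_add_add_comm, hQ, h3, add_zero, sub_zero]
  · have h1 := hg.inner hN hs.sq (N.mul_mem hsN hsN) hx hxN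
    have h3 := hi x hx hxN
    have h4 := congrArg (a s) (hi _ (hs.sconj hx) (conj_N hN hxN))
    have e1 : s⁻¹ * (s⁻¹ * x * s) * s = (s * s)⁻¹ * x * (s * s) := by group
    have e2 : s * (s⁻¹ * x * s) = x * s := by group
    rw [map_sub, map_sub, ← ha.mul, ← ha.mul, e1, e2, ha.mul x s] at h4
    rw [map_sub, map_add]
    -- everything in terms of `g x`
    have h5 : a (s * s) (g ((s * s)⁻¹ * x * (s * s))) = g x + a x (g (s * s)) - g (s * s) := by
      rw [← sub_eq_zero]
      rw [← sub_eq_zero] at h1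
      rw [← h1]
      abel
    have h6 : a s (g (s⁻¹ * x * s)) = g x + (a x Q - Q) := by
      rw [← h3]
      abel
    rw [h5, h6] at h4
    rw [← sub_eq_zero] at h4 ⊢
    rw [← h4]
    abel

theorem ext_coc (hs : Step N U U' s) (h2 : NT a N U') {g : G → A} (hg : Coc a N U' g) {Q : A}
    (hQ : Q + Q = 0) (hi : ∀ x ∈ U', x ∈ N → a s (g (s⁻¹ * x * s)) - g x = a x Q - Q) :
    Coc a N U (ext a U' s Q g) := by
  have hsN := hs.memN
  have hsI := N.inv_mem hsN
  have hsq := ext_sq ha hN hs h2 hg hQ hi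
  have hmul : ∀ x ∈ U, x ∈ N → ∀ y ∈ U, y ∈ N →
      ext a U' s Q g (x * y) = ext a U' s Q g x + a x (ext a U' s Q g y) := by
    intro x hx hxN y hy hyN
    by_cases hx' : x ∈ U'
    · by_cases hy' : y ∈ U'
      · rw [ext_mem (s := s) hx', ext_mem (s := s) hy', ext_mem (s := s) (U'.mul_mem hx' hy'),
          hg.mul x hx' hxN y hy' hyN]
      · have hxy : x * y ∉ U' := fun h => hy' (by
          have := U'.mul_mem (U'.inv_mem hx') h
          rwa [← mul_assoc, inv_mul_cancel, one_mul] at this)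
        rw [ext_mem (s := s) hx', ext_not hy', ext_not hxy, mul_assoc x y s⁻¹,
          hg.mul x hx' hxN _ (hs.mul_inv hy hy') (N.mul_mem hyN hsI), ha.mul x, map_add]
        abel
    · have hxs := hs.mul_inv hx hx'
      have hxsN := N.mul_mem hxN hsI
      by_cases hy' : y ∈ U'
      · have hxy : x * y ∉ U' := fun h => hx' (by
          have := U'.mul_mem h (U'.inv_mem hy')
          rwa [mul_assoc, mul_inv_cancel, mul_one] at this)
        have hc := hs.sconj' hy'
        have hcN : s * y * s⁻¹ ∈ N := hN.conj_mem y hyN s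
        have h1 := hi _ hc hcN
        have e1 : s⁻¹ * (s * y * s⁻¹) * s = y := by group
        rw [e1] at h1
        have e2 : x * y * s⁻¹ = (x * s⁻¹) * (s * y * s⁻¹) := by group
        have e3 : a x (g y) = a (x * s⁻¹) (a s (g y)) := by
          rw [← ha.mul]
          congr 1
          group
        have h3 : a s (g y) = g (s * y * s⁻¹) + (a (s * y * s⁻¹) Q - Q) := by
          rw [← h1]
          abel
        rw [ext_not hx', ext_mem (s := s) hy', ext_not hxy, e2, hg.mul _ hxs hxsN _ hc hcN,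
          ha.mul (x * s⁻¹) (s * y * s⁻¹), e3, h3, map_add, map_sub]
        abel
      · have hys := hs.mul_inv hy hy'
        have hysN := N.mul_mem hyN hsI
        have hsy : s⁻¹ * y ∈ U' := hs.inv_mem hy hy'
        have hxy : x * y ∈ U' := by
          have h1 := U'.mul_mem (U'.mul_mem hxs hs.sq) (hs.inv_mem hy hy')
          have e : x * s⁻¹ * (s * s) * (s⁻¹ * y) = x * y := by group
          rwa [e] at h1
        -- `y = y' s`
        have hc := hs.sconj' hys
        have hcN : s * (y * s⁻¹) * s⁻¹ ∈ N := hN.conj_mem _ hysN s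
        have h1 := hi _ hc hcN
        have e1 : s⁻¹ * (s * (y * s⁻¹) * s⁻¹) * s = y * s⁻¹ := by group
        rw [e1] at h1
        have e2 : x * y = (x * s⁻¹) * ((s * (y * s⁻¹) * s⁻¹) * (s * s)) := by group
        have e4 : ∀ P, a x P = a (x * s⁻¹) (a s P) := by
          intro P
          rw [← ha.mul]
          congr 1
          group
        have h3 : a s (g (y * s⁻¹)) = g (s * (y * s⁻¹) * s⁻¹) +
            (a (s * (y * s⁻¹) * s⁻¹) Q - Q) := by
          rw [← h1]
          abel
        have e5 : a s (a (y * s⁻¹) Q) = a (s * (y * s⁻¹) * s⁻¹) (a s Q) := by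
          rw [← ha.mul, ← ha.mul]
          congr 1
          group
        rw [ext_mem (s := s) hxy, ext_not hx', ext_not hy', e2,
          hg.mul _ hxs hxsN _ (U'.mul_mem hc hs.sq) (N.mul_mem hcN (N.mul_mem hsN hsN)),
          hg.mul _ hc hcN _ hs.sq (N.mul_mem hsN hsN), hsq, e4, map_add (a s), h3, e5]
        simp only [map_add, map_sub]
        abel
  have htwo : ∀ x ∈ U, x ∈ N → ext a U' s Q g x + ext a U' s Q g x = 0 := by
    intro x hx hxN
    by_cases hx' : x ∈ U'
    · rw [ext_mem (s := s) hx', hg.two x hx' hxN]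
    · rw [ext_not hx', add_add_add_comm, hg.two _ (hs.mul_inv hx hx') (N.mul_mem hxN hsI),
        ← map_add, hQ, map_zero, add_zero]
  -- invariance under `U'`
  have hinv : ∀ t ∈ U', ∃ R, R + R = 0 ∧ ∀ x ∈ U, x ∈ N →
      a t (ext a U' s Q g (t⁻¹ * x * t)) - ext a U' s Q g x = a x R - R := by
    intro t ht
    obtain ⟨R, hR, h⟩ := hg.inv t ht
    refine ⟨R, hR, ?_⟩
    set φ : G → A := fun x => a t (ext a U' s Q g (t⁻¹ * x * t)) - ext a U' s Q g x -
      (a x R - R) with hφ
    have htU := hs.le ht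
    have hcU : ∀ x ∈ U, t⁻¹ * x * t ∈ U := fun x hx =>
      U.mul_mem (U.mul_mem (U.inv_mem htU) hx) htU
    have φmul : ∀ x ∈ U, x ∈ N → ∀ y ∈ U, y ∈ N → φ (x * y) = φ x + a x (φ y) := by
      intro x hx hxN y hy hyN
      simp only [hφ]
      have e : t⁻¹ * (x * y) * t = (t⁻¹ * x * t) * (t⁻¹ * y * t) := by group
      have e3 : ∀ P, a t (a (t⁻¹ * x * t) P) = a x (a t P) := by
        intro P
        rw [← ha.mul, ← ha.mul]
        congr 1
        group
      rw [e, hmul _ (hcU x hx) (conj_N hN hxN) _ (hcU y hy) (conj_N hN hyN),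
        hmul x hx hxN y hy hyN, ha.mul x y, map_add, e3]
      simp only [map_sub]
      abel
    have φ0 : ∀ x ∈ U', x ∈ N → φ x = 0 := by
      intro x hx hxN
      simp only [hφ]
      rw [ext_mem (s := s) hx, ext_mem (s := s) (U'.mul_mem (U'.mul_mem (U'.inv_mem ht) hx) ht),
        h x hx hxN, sub_self]
    intro x hx hxN
    have key : φ x = 0 := by
      refine h2 _ ?_ fun y hy hyN => ?_
      · simp only [hφ]
        have h3 := htwo _ (hcU x hx) (conj_N hN hxN)
        have h4 := htwo x hx hxN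
        have h5 : a t (ext a U' s Q g (t⁻¹ * x * t)) + a t (ext a U' s Q g (t⁻¹ * x * t)) = 0 := by
          rw [← map_add, h3, map_zero]
        have h6 : a x R + a x R = 0 := by rw [← map_add, hR, map_zero]
        rw [sub_add_sub_comm, sub_add_sub_comm, h5, h4, sub_add_sub_comm, h6, hR]
        simp
      · have h3 := φmul y (hs.le hy) hyN x hx hxN
        rw [φ0 y hy hyN, zero_add] at h3
        have h4 := hs.normal hx hy
        have e : y * x = x * (x⁻¹ * y * x) := by group
        rw [e, φmul x hx hxN _ (hs.le h4) (conj_N hN hyN), φ0 _ h4 (conj_N hN hyN), map_zero,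
          add_zero] at h3
        exact h3.symm
    exact sub_eq_zero.1 key
  refine ⟨hmul, htwo, fun t ht => ?_⟩
  rcases hs.dich t ht with h | h
  · exact hinv t h
  · obtain ⟨R, hR, hr⟩ := hinv _ h
    set f := ext a U' s Q g with hf
    refine ⟨f s + a s R, ?_, fun x hx hxN => ?_⟩
    · rw [add_add_add_comm, htwo s hs.mem hsN, ← map_add, hR, map_zero, add_zero]
    · have hcx : s⁻¹ * x * s ∈ U := U.mul_mem (U.mul_mem (U.inv_mem hs.mem) hx) hs.mem
      have h1 := congrArg (a s) (hr _ hcx (conj_N hN hxN))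
      have e1 : (s⁻¹ * t)⁻¹ * (s⁻¹ * x * s) * (s⁻¹ * t) = t⁻¹ * x * t := by group
      have e2 : s * (s⁻¹ * t) = t := by group
      have e3 : s * (s⁻¹ * x * s) = x * s := by group
      rw [e1, map_sub, map_sub, ← ha.mul, ← ha.mul, e2, e3, ha.mul x s] at h1
      -- the inner automorphism by `s`
      have h3 := hmul s hs.mem hsN _ hcx (conj_N hN hxN)
      have h4 := hmul x hx hxN s hs.mem hsN
      rw [e3, h4] at h3
      have h5 : a t (f (t⁻¹ * x * t)) = a s (f (s⁻¹ * x * s)) + (a x (a s R) - a s R) := by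
        rw [← h1]
        abel
      have h6 : a s (f (s⁻¹ * x * s)) = f x + a x (f s) - f s := by
        rw [h3]
        abel
      rw [h5, h6, map_add]
      abel

end coc

end Pool.Agent.K6.H71.PG
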