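import Mathlib

/-!
# The parity of valuations at inert primes, for elements whose norm is a square
-/

set_option autoImplicit false

open IsDedekindDomain WithZero
open scoped Classical

namespace Pool.Agent.K6.H71.PG

section nrm

variable {A R : Type*} [CommRing A] [IsDedekindDomain A] [CommRing R] [IsDedekindDomain R]
  [Algebra A R] [Module.Finite A R] [Module.IsTorsionFree A R]

/-- A prime divides the norm of an ideal only if a prime above it divides the ideal. -/
theorem dvd_of_dvd_relNorm {p : Ideal A} (hp : p.IsPrime) (hp0 : p ≠ ⊥) {P : Ideal R}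
    (hP : P.IsPrime) (hPp : P = p.map (algebraMap A R)) (J : Ideal R) (hJ : J ≠ 0)
    (h : p ∣ Ideal.relNorm A J) : P ∣ J := by
  have hpr : Prime p := Ideal.prime_of_isPrime hp0 hp
  induction J using UniqueFactorizationMonoid.induction_on_prime with
  | h₁ => exact absurd rfl hJ
  | h₂ x hx =>
    exfalso
    rw [isUnit_iff_eq_one] at hx
    rw [hx, map_one] at h
    exact hpr.not_isUnit (isUnit_of_dvd_one h)
  | h₃ J Q hJ0 hQ ih =>
    rw [map_mul] at h
    rcases hpr.dvd_or_dvd h with h1 | h1
    · -- `p` divides the norm of `Q`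
      have hQp : Q.IsPrime := Ideal.isPrime_of_prime hQ
      have hQ0 : Q ≠ ⊥ := hQ.ne_zero
      have h3 : Q ∣ (Q.comap (algebraMap A R)).map (algebraMap A R) :=
        Ideal.dvd_iff_le.2 Ideal.map_comap_le
      have h4 : Ideal.relNorm A Q ∣ (Q.comap (algebraMap A R)) ^ Module.finrank A R := by
        rw [← Ideal.relNorm_algebraMap R]
        exact map_dvd (Ideal.relNorm A) h3
      have h5 := hpr.dvd_of_dvd_pow (h1.trans h4)
      have h6 : Q.comap (algebraMap A R) ≤ p := Ideal.dvd_iff_le.1 h5
      have hc : (Q.comap (algebraMap A R)).IsPrime := Ideal.comap_isPrime _ _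
      have hc0 : Q.comap (algebraMap A R) ≠ ⊥ := by
        intro h0
        rw [h0] at h3
        rw [Ideal.map_bot] at h3
        -- the norm of `Q` is not zero
        have h7 : Ideal.relNorm A Q ≤ Q.comap (algebraMap A R) := Ideal.relNorm_le_comap A Q
        rw [h0, le_bot_iff, Ideal.relNorm_eq_bot_iff] at h7
        exact hQ0 h7
      have h7 : Q.comap (algebraMap A R) = p :=
        (hc.isMaximal hc0).eq_of_le hp.ne_top h6
      have h8 : P ≤ Q := by
        rw [hPp, ← h7]
        exact Ideal.map_comap_le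
      have hP0 : P ≠ ⊥ := by
        intro h0
        apply hp0
        rw [hPp, Ideal.map_eq_bot_iff_of_injective (FaithfulSMul.algebraMap_injective A R)] at h0
        exact h0
      have h9 : P = Q := (hP.isMaximal hP0).eq_of_le hQp.ne_top h8
      rw [h9]
      exact dvd_mul_right _ _
    · exact (ih hJ0 h1).mul_left _

theorem even_of_norm {p : Ideal A} (hp : p.IsPrime) (hp0 : p ≠ ⊥) {P : Ideal R}
    (hP : P.IsPrime) (hPp : P = p.map (algebraMap A R)) (hodd : Odd (Module.finrank A R))
    {w : R} (hw : w ≠ 0) {t : A} (ht : Algebra.intNorm A R w = t ^ 2) {m : ℕ} {J : Ideal R}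
    (hm : Ideal.span {w} = P ^ m * J) (hJ : ¬ P ∣ J) : Even m := by
  have hpr : Prime p := Ideal.prime_of_isPrime hp0 hp
  have hJ0 : J ≠ 0 := by
    rintro rfl
    rw [mul_zero] at hm
    exact hw (Ideal.span_singleton_eq_bot.1 hm)
  have h1 := congrArg (Ideal.relNorm A) hm
  rw [Ideal.relNorm_singleton, ht, map_mul, map_pow, hPp, Ideal.relNorm_algebraMap,
    ← Ideal.span_singleton_pow, ← pow_mul] at h1
  have hnd : ¬ p ∣ Ideal.relNorm A J := fun h => hJ (dvd_of_dvd_relNorm hp hp0 hP hPp J hJ0 h)
  have ht0 : Ideal.span {t} ≠ 0 := by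
    intro h0
    rw [h0, zero_pow two_ne_zero] at h1
    have h3 := h1.symm
    rcases mul_eq_zero.1 h3 with h4 | h4
    · exact pow_ne_zero _ hp0 h4
    · exact hJ0 (Ideal.relNorm_eq_bot_iff.1 h4)
  have hfin : FiniteMultiplicity p (Ideal.span {t}) :=
    FiniteMultiplicity.of_prime_left hpr ht0
  obtain ⟨c, hc, hc'⟩ := hfin.exists_eq_pow_mul_and_not_dvd
  rw [hc, mul_pow, ← pow_mul] at h1
  -- compare the exponents of `p`
  have h3 : ¬ p ∣ c ^ 2 := fun h => hc' (hpr.dvd_of_dvd_pow h)
  have h4 : multiplicity p (Ideal.span {t}) * 2 = Module.finrank A R * m := by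
    have e1 : emultiplicity p (p ^ (multiplicity p (Ideal.span {t}) * 2) * c ^ 2) =
        ((multiplicity p (Ideal.span {t}) * 2 : ℕ) : ℕ∞) := by
      rw [emultiplicity_mul hpr, emultiplicity_pow_self_of_prime hpr,
        emultiplicity_eq_zero.2 h3, add_zero]
    have e2 : emultiplicity p (p ^ (Module.finrank A R * m) * Ideal.relNorm A J) =
        ((Module.finrank A R * m : ℕ) : ℕ∞) := by
      rw [emultiplicity_mul hpr, emultiplicity_pow_self_of_prime hpr,
        emultiplicity_eq_zero.2 hnd, add_zero]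
    rw [h1, e2] at e1
    exact_mod_cast e1.symm
  have h5 : Even (Module.finrank A R * m) := ⟨_, by rw [← h4, mul_two]⟩
  rcases Nat.even_mul.1 h5 with h6 | h6
  · exact absurd h6 (Nat.not_even_iff_odd.2 hodd)
  · exact h6

variable {K N : Type*} [Field K] [Algebra A K] [IsFractionRing A K] [Field N] [Algebra R N]
  [IsFractionRing R N] [Algebra K N] [Algebra A N] [IsScalarTower A K N] [IsScalarTower A R N]
  [FiniteDimensional K N]

/-- The parity at an inert prime. -/
theorem inert_parity {p : Ideal A} (hp : p.IsPrime) (hp0 : p ≠ ⊥) (v : HeightOneSpectrum R)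
    (hv : v.asIdeal = p.map (algebraMap A R)) (hodd : Odd (Module.finrank A R)) {z : N}
    (hz : z ≠ 0) {T : K} (hT : Algebra.norm K z = T ^ 2) : IsSquare (v.valuation N z) := by
  obtain ⟨x, y, hy, rfl⟩ := IsFractionRing.div_surjective (A := R) z
  have hy0 : y ≠ 0 := nonZeroDivisors.ne_zero hy
  have hyN : algebraMap R N y ≠ 0 := by
    rwa [Ne, FaithfulSMul.algebraMap_eq_zero_iff]
  have hx0 : x ≠ 0 := by
    rintro rfl
    rw [map_zero, zero_div] at hz
    exact hz rfl
  set w : R := x * y with hw
  have hw0 : w ≠ 0 := mul_ne_zero hx0 hy0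
  have e : algebraMap R N x / algebraMap R N y =
      algebraMap R N w / algebraMap R N y ^ 2 := by
    rw [hw, map_mul, pow_two, mul_div_mul_right _ _ hyN]
  have hnorm : algebraMap A K (Algebra.intNorm A R w) =
      (T * Algebra.norm K (algebraMap R N y)) ^ 2 := by
    rw [Algebra.algebraMap_intNorm (L := N)]
    have h1 : algebraMap R N w = algebraMap R N x / algebraMap R N y * algebraMap R N y ^ 2 := by
      rw [e, div_mul_cancel₀ _ (pow_ne_zero 2 hyN)]
    rw [h1, map_mul, map_pow, hT, mul_pow]
  obtain ⟨t, ht⟩ : ∃ t : A, algebraMap A K t = T * Algebra.norm K (algebraMap R N y) := by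
    have h1 : IsIntegral A (T * Algebra.norm K (algebraMap R N y)) := by
      apply IsIntegral.of_pow (n := 2) (by norm_num)
      rw [← hnorm]
      exact isIntegral_algebraMap
    exact (IsIntegrallyClosed.isIntegral_iff (K := K)).1 h1
  have ht2 : Algebra.intNorm A R w = t ^ 2 := by
    apply IsFractionRing.injective A K
    rw [hnorm, map_pow, ht]
  have hP0 : Ideal.span {w} ≠ 0 := fun h => hw0 (Ideal.span_singleton_eq_bot.1 h)
  have hpr : Prime v.asIdeal := v.prime
  obtain ⟨J, hJ, hJ'⟩ := (FiniteMultiplicity.of_prime_left hpr hP0).exists_eq_pow_mul_and_not_dvd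
  have hev := even_of_norm hp hp0 v.isPrime hv hodd hw0 ht2 hJ hJ'
  have hval : v.valuation N (algebraMap R N w) =
      exp (-(multiplicity v.asIdeal (Ideal.span {w}) : ℤ)) := by
    rw [v.valuation_of_algebraMap]
    set m := multiplicity v.asIdeal (Ideal.span {w}) with hm
    have h1 : v.intValuation w ≤ exp (-(m : ℤ)) := by
      rw [v.intValuation_le_pow_iff_dvd, hJ]
      exact dvd_mul_right _ _
    have h3 : ¬ v.intValuation w ≤ exp (-((m + 1 : ℕ) : ℤ)) := by
      rw [v.intValuation_le_pow_iff_dvd, hJ, pow_succ]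
      intro h
      exact hJ' ((mul_dvd_mul_iff_left (pow_ne_zero m hpr.ne_zero)).1 h)
    rw [not_le] at h3
    have h0 : v.intValuation w ≠ 0 := by
      intro h
      rw [h] at h3
      exact absurd h3 (by simp)
    have e1 : exp (log (v.intValuation w)) = v.intValuation w := exp_log h0
    rw [← e1, exp_le_exp] at h1
    rw [← e1, exp_lt_exp] at h3
    rw [← e1, exp_inj]
    push_cast at h3
    omega
  rw [e, map_div₀, map_pow, hval]
  obtain ⟨n, hn⟩ := hev
  refine ⟨exp (-(n : ℤ)) / v.valuation N (algebraMap R N y), ?_⟩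
  rw [hn, div_mul_div_comm, ← exp_add, pow_two]
  congr 2
  push_cast
  ring

end nrm

end Pool.Agent.K6.H71.PG
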