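import Pool.Agent.TH115.TC.KumN
import Pool.Agent.TH115.TC.LocC

/-!
# The norm of the Kummer generator over the cubic field is a square
-/

set_option autoImplicit false
set_option linter.all false

open WeierstrassCurve WeierstrassCurve.Affine Polynomial
open scoped Classical

namespace Pool.Agent.K6.H71.PG

open Pool.Agent.TH115.GD

section

variable {K N Ω : Type} [Field K] [Field N] [Field Ω] [Algebra K N] [Algebra N Ω] [Algebra K Ω]
  [IsScalarTower K N Ω] [IsGalois K Ω] [IsSepClosed Ω] {W : WeierstrassCurve K} {a b c : Ω}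
  (hC : IsC (W.baseChange Ω).toAffine a b c)

include hC

theorem root_mem (τ : Ω ≃ₐ[K] Ω) {e : Ω} (he : e = a ∨ e = b ∨ e = c) :
    τ e = a ∨ τ e = b ∨ τ e = c := by
  apply hC.root
  have h1 := cub_map W (τ : Ω →ₐ[K] Ω) e
  have h3 : cub W e = 0 := by
    rcases he with rfl | rfl | rfl
    · exact hC.root_a
    · exact hC.root_b
    · exact hC.root_c
  rw [h3, map_zero] at h1
  exact h1

theorem at_root' {e : Ω} (he : e = a ∨ e = b ∨ e = c) {S T : Pt W Ω} (hS : S + S = 0)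
    (hT : T + T = 0) : sC e (S + T) = sC e S * sC e T := by
  obtain ⟨e', e'', hC'⟩ := hC.at_root he
  exact sC_add hC' hS hT

/-- The product of the conjugates is in `K`. -/
theorem exists_root {g : (Ω ≃ₐ[K] Ω) → Pt W Ω} (hmul : ∀ σ τ, g (σ * τ) = g σ + act W (ak σ) (g τ))
    (hg2 : ∀ τ, g τ + g τ = 0) {t : Ω} (hk : ∀ τ : Ω ≃ₐ[K] Ω, τ a = a → τ t = sC a (g τ) * t)
    {ρ : Ω → (Ω ≃ₐ[K] Ω)} (hρ : ∀ e, (e = a ∨ e = b ∨ e = c) → ρ e a = e) :
    ∃ T : K, algebraMap K Ω T ^ 2 = (ρ a t * ρ b t * ρ c t) ^ 2 := by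
  set te : Ω → Ω := fun e => sC e (g (ρ e)) * ρ e t with hte
  have sgn : ∀ (φ : Ω ≃ₐ[K] Ω) (e : Ω) (P : Pt W Ω), φ (sC e P) = sC e P := by
    intro φ e P
    rcases sC_sq (a := e) P with h | h <;> rw [h] <;> simp
  have sact : ∀ (φ : Ω ≃ₐ[K] Ω) (e : Ω) (P : Pt W Ω), sC (φ e) (act W (ak φ) P) = sC e P :=
    fun φ e P => sC_act' W (ak φ) e P
  have key : ∀ (τ : Ω ≃ₐ[K] Ω) (e : Ω), (e = a ∨ e = b ∨ e = c) →
      τ (te e) = sC (τ e) (g τ) * te (τ e) := by
    intro τ e he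
    have he' := root_mem hC τ he
    set u := (ρ (τ e))⁻¹ * (τ * ρ e) with hu
    have hua : u a = a := by
      show (ρ (τ e)).symm (τ (ρ e a)) = a
      rw [hρ e he, AlgEquiv.symm_apply_eq, hρ _ he']
    have e1 : τ * ρ e = ρ (τ e) * u := by rw [hu, mul_inv_cancel_left]
    have e2 : τ (ρ e t) = ρ (τ e) (u t) := by
      have := congrArg (fun φ : Ω ≃ₐ[K] Ω => φ t) e1
      exact this
    have e3 : g τ + act W (ak τ) (g (ρ e)) = g (ρ (τ e)) + act W (ak (ρ (τ e))) (g u) := by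
      rw [← hmul, ← hmul, e1]
    have e4 := congrArg (sC (τ e)) e3
    have t1 : act W (ak τ) (g (ρ e)) + act W (ak τ) (g (ρ e)) = 0 := by
      rw [← map_add, hg2, map_zero]
    have t2 : act W (ak (ρ (τ e))) (g u) + act W (ak (ρ (τ e))) (g u) = 0 := by
      rw [← map_add, hg2, map_zero]
    rw [at_root' hC he' (hg2 _) t1, at_root' hC he' (hg2 _) t2, sact] at e4
    have e5 : sC (τ e) (act W (ak (ρ (τ e))) (g u)) = sC a (g u) := by
      have := sact (ρ (τ e)) a (g u)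
      rwa [hρ _ he'] at this
    rw [e5] at e4
    show τ (sC e (g (ρ e)) * ρ e t) = sC (τ e) (g τ) * (sC (τ e) (g (ρ (τ e))) * ρ (τ e) t)
    rw [map_mul, sgn, e2, hk u hua, map_mul, sgn]
    have m1 := sC_mul_self (a := τ e) (g (ρ (τ e)))
    have m2 := sC_mul_self (a := e) (g (ρ e))
    have m3 := sC_mul_self (a := a) (g u)
    linear_combination (-(sC e (g (ρ e)) * sC (τ e) (g (ρ (τ e))) * ρ (τ e) t)) * e4 +
      (sC (τ e) (g τ) * sC (τ e) (g (ρ (τ e))) * ρ (τ e) t) * m2 -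
      (sC e (g (ρ e)) * sC a (g u) * ρ (τ e) t) * m1
  -- the product
  set S : Finset Ω := {a, b, c} with hS
  have hmem : ∀ e, e ∈ S ↔ (e = a ∨ e = b ∨ e = c) := by
    intro e
    simp only [hS, Finset.mem_insert, Finset.mem_singleton]
  have hprod : ∀ f : Ω → Ω, ∏ e ∈ S, f e = f a * f b * f c := by
    intro f
    rw [hS, Finset.prod_insert (by simp [hC.ab, hC.ac]), Finset.prod_insert (by simp [hC.bc]),
      Finset.prod_singleton, mul_assoc]
  have hfix : ∀ τ : Ω ≃ₐ[K] Ω, τ (∏ e ∈ S, te e) = ∏ e ∈ S, te e := by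
    intro τ
    have him : S.image τ = S := by
      apply Finset.eq_of_subset_of_card_le
      · intro x hx
        obtain ⟨e, he, rfl⟩ := Finset.mem_image.1 hx
        exact (hmem _).2 (root_mem hC τ ((hmem e).1 he))
      · rw [Finset.card_image_of_injective _ τ.injective]
    rw [map_prod, Finset.prod_congr rfl fun e he => key τ e ((hmem e).1 he)]
    have h1 : ∏ e ∈ S, (sC (τ e) (g τ) * te (τ e)) = ∏ e ∈ S.image τ, (sC e (g τ) * te e) := by
      rw [Finset.prod_image fun x _ y _ h => τ.injective h]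
    rw [h1, him, Finset.prod_mul_distrib, hprod (fun e => sC e (g τ)), sC_prod hC (hg2 τ), one_mul]
  obtain ⟨T, hT⟩ : (∏ e ∈ S, te e) ∈ Set.range (algebraMap K Ω) := by
    rw [InfiniteGalois.mem_range_algebraMap_iff_fixed]
    exact hfix
  refine ⟨T, ?_⟩
  rw [hT, hprod]
  have m1 := sC_mul_self (a := a) (g (ρ a))
  have m2 := sC_mul_self (a := b) (g (ρ b))
  have m3 := sC_mul_self (a := c) (g (ρ c))
  simp only [hte]
  have e : (sC a (g (ρ a)) * ρ a t * (sC b (g (ρ b)) * ρ b t) * (sC c (g (ρ c)) * ρ c t)) ^ 2 =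
      (sC a (g (ρ a)) * sC a (g (ρ a))) * (sC b (g (ρ b)) * sC b (g (ρ b))) *
        (sC c (g (ρ c)) * sC c (g (ρ c))) * (ρ a t * ρ b t * ρ c t) ^ 2 := by ring
  rw [e, m1, m2, m3, one_mul, one_mul, one_mul]

/-- **The norm is a square.** -/
theorem norm_sq [FiniteDimensional K N] (h3 : Module.finrank K N = 3)
    (htr : ∀ e, (e = a ∨ e = b ∨ e = c) → ∃ ρ : Ω ≃ₐ[K] Ω, ρ a = e)
    {θ : N} (hθ : algebraMap N Ω θ = a)
    {g : (Ω ≃ₐ[K] Ω) → Pt W Ω} (hmul : ∀ σ τ, g (σ * τ) = g σ + act W (ak σ) (g τ))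
    (hg2 : ∀ τ, g τ + g τ = 0) {t : Ω} {z : N} (hz : t ^ 2 = algebraMap N Ω z)
    (hk : ∀ τ : Ω ≃ₐ[K] Ω, τ a = a → τ t = sC a (g τ) * t) :
    ∃ T : K, Algebra.norm K z = T ^ 2 := by
  haveI : Algebra.IsSeparable K N := Algebra.isSeparable_tower_bot_of_isSeparable K N Ω
  choose! ρ hρ using htr
  obtain ⟨T, hT⟩ := exists_root hC hmul hg2 hk hρ
  refine ⟨T, ?_⟩
  let E := AlgebraicClosure Ω
  let i : Ω →ₐ[K] E := IsScalarTower.toAlgHom K Ω E
  let j : Ω → (N →ₐ[K] E) := fun e => i.comp ((ρ e : Ω →ₐ[K] Ω).comp (IsScalarTower.toAlgHom K N Ω))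
  have hj : ∀ e (x : N), j e x = i (ρ e (algebraMap N Ω x)) := fun e x => rfl
  have jθ : ∀ e, (e = a ∨ e = b ∨ e = c) → j e θ = i e := by
    intro e he
    rw [hj, hθ, hρ e he]
  have hne : ∀ e e', (e = a ∨ e = b ∨ e = c) → (e' = a ∨ e' = b ∨ e' = c) → e ≠ e' → j e ≠ j e' := by
    intro e e' he he' hne h
    apply hne
    have h1 : i e = i e' := by rw [← jθ e he, ← jθ e' he', h]
    exact RingHom.injective (i : Ω →+* E) h1
  have pa : (a = a ∨ a = b ∨ a = c) := Or.inl rfl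
  have pb : (b = a ∨ b = b ∨ b = c) := Or.inr (Or.inl rfl)
  have pc : (c = a ∨ c = b ∨ c = c) := Or.inr (Or.inr rfl)
  have huniv : (Finset.univ : Finset (N →ₐ[K] E)) = {j a, j b, j c} := by
    symm
    apply Finset.eq_univ_of_card
    have hcard : Fintype.card (N →ₐ[K] E) = 3 := by
      rw [Fintype.card_eq_nat_card, AlgHom.natCard_of_splits K N E
        (fun x => IsAlgClosed.splits _), h3]
    have hc2 : ({j a, j b, j c} : Finset (N →ₐ[K] E)).card = 3 := by
      rw [Finset.card_insert_of_notMem, Finset.card_insert_of_notMem, Finset.card_singleton]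
      · simp [hne b c pb pc hC.bc]
      · simp [hne a b pa pb hC.ab, hne a c pa pc hC.ac]
    rw [hc2]
    convert hcard.symm
  apply (algebraMap K E).injective
  rw [Algebra.norm_eq_prod_embeddings K E z, huniv, Finset.prod_insert (by
    simp [hne a b pa pb hC.ab, hne a c pa pc hC.ac]), Finset.prod_insert (by
    simp [hne b c pb pc hC.bc]), Finset.prod_singleton, hj, hj, hj, ← hz, ← map_mul, ← map_mul]
  have e1 : ρ a (t ^ 2) * (ρ b (t ^ 2) * ρ c (t ^ 2)) = (ρ a t * ρ b t * ρ c t) ^ 2 := by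
    rw [map_pow, map_pow, map_pow]
    ring
  rw [e1, ← hT, map_pow, map_pow]
  rfl

end

end Pool.Agent.K6.H71.PG
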