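import Pool.Agent.K6.H71.PG.Pts
import Pool.Agent.K6.H71.PG.Nrm
import Pool.Agent.K6.H71.PG.Sq
import Pool.Agent.TH115.TC.Crit
import Pool.Agent.TH115.TC.ParT

/-!
# Classes of order two over `k(t)`, without conditions at the inert primes

The parts `parV` and `baseN` follow `Pool.Agent.TH115.TC.ParT` and `Pool.Agent.TH115.TC.Crit`.
-/

set_option autoImplicit false
set_option linter.all false

open Polynomial IsDedekindDomain WeierstrassCurve WeierstrassCurve.Affine WithZero
open scoped Classical

namespace Pool.Agent.K6.H71.PG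

open Pool.Agent.TH115.GD

section par

variable {k k' K F M B : Type} [Field k] [Field k'] [Algebra k k'] [Field K] [Algebra k[X] K]
  [Field F] [Algebra k'[X] F] [IsFractionRing k'[X] F] [Algebra K F]
  [Field M] [Algebra F M] [Algebra K M] [IsScalarTower K F M] [Algebra M (Sep F)]
  [IsScalarTower F M (Sep F)]
  [CommRing B] [IsDedekindDomain B] [Algebra B M] [IsFractionRing B M] [Algebra k'[X] B]
  [Algebra.IsIntegral k'[X] B] [Algebra k'[X] M] [IsScalarTower k'[X] F M]
  [IsScalarTower k'[X] B M] [Module.IsTorsionFree k'[X] B]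

/-- The valuations of the generator are even. -/
theorem parV (hKF : ∀ p : k[X], algebraMap K F (algebraMap k[X] K p) =
      algebraMap k'[X] F (p.map (algebraMap k k'))) {a2 a4 a6 : k[X]}
    {a b c : Sep F} {θ z : M} (hθ : algebraMap M (Sep F) θ = a)
    (hC : IsC ((crvC (algebraMap k[X] K a2) (algebraMap k[X] K a4)
      (algebraMap k[X] K a6)).baseChange (Sep F)).toAffine a b c)
    {f : (Sep F ≃ₐ[F] Sep F) → Pt (crvC (algebraMap k[X] K a2) (algebraMap k[X] K a4)
      (algebraMap k[X] K a6)) (Sep F)} (hf : IsCoc _ f) (hf2 : ∀ σ, f σ + f σ = 0)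
    {t : Sep F} (ht : t ≠ 0)
    (hz : t ^ 2 = algebraMap M (Sep F) z) (hk : ∀ σ : Sep F ≃ₐ[F] Sep F, σ a = a →
      σ t = sC a (f σ) * t) (𝔓 : HeightOneSpectrum B)
    (hloc : LocTriv (crvC (algebraMap k[X] K a2) (algebraMap k[X] K a4)
      (algebraMap k[X] K a6)) (Comp k'[X] F (𝔓.under k'[X])) (Sep (Comp k'[X] F (𝔓.under k'[X]))) f)
    (hsm : LocSm (F := F) (crvC (algebraMap k[X] K a2) (algebraMap k[X] K a4)
      (algebraMap k[X] K a6)) (𝔓.under k'[X])) : IsSquare (𝔓.valuation M z) := by
  set W := crvC (algebraMap k[X] K a2) (algebraMap k[X] K a4) (algebraMap k[X] K a6) with hW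
  let v : HeightOneSpectrum k'[X] := 𝔓.under k'[X]
  haveI hlo : 𝔓.asIdeal.LiesOver v.asIdeal := ⟨rfl⟩
  have hval : ∀ x : F, v.valuation F x ^ v.asIdeal.ramificationIdx' 𝔓.asIdeal =
      𝔓.valuation M (algebraMap F M x) := fun x =>
    HeightOneSpectrum.valuation_liesOver (A := k'[X]) M v 𝔓 x
  have he : v.asIdeal.ramificationIdx' 𝔓.asIdeal ≠ 0 :=
    Ideal.IsDedekindDomain.ramificationIdx'_ne_zero_of_liesOver 𝔓.asIdeal v.ne_bot
  obtain ⟨j, hj1, hj2, hj3⟩ := exists_compl_map v 𝔓 (algebraMap F M)
    (fun x hx => by rw [← hval]; exact pow_le_one₀ zero_le hx)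
    (fun x hx => by rw [← hval]; exact pow_lt_one₀ zero_le hx he)
  let L := Comp k'[X] F v
  let E := Comp B M 𝔓
  haveI : IsScalarTower K F E := IsScalarTower.of_algebraMap_eq fun x => by
    show algebraMap M E (algebraMap K M x) = algebraMap M E (algebraMap F M (algebraMap K F x))
    rw [← IsScalarTower.algebraMap_apply K F M]
  let j' : L →+* E := j
  have hj' : ∀ x : F, j' (algebraMap F L x) = algebraMap F E x := fun x => hj1 x
  have hjK : ∀ x : K, j' (algebraMap K L x) = algebraMap K E x := fun x => by
    rw [IsScalarTower.algebraMap_apply K F L, hj', ← IsScalarTower.algebraMap_apply K F E]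
  obtain ⟨g, D, hg, hzD, hD⟩ := locC (K := K) (F := F) (Ω := Sep F) (L := L) (Ω' := Sep L) (E := E)
    (M := M) W (Sep E) hC hθ j' hj' hf hf2 hloc ht hz hk
  let wE : Valuation E (WithZero (Multiplicative ℤ)) :=
    (Valued.v : Valuation (𝔓.adicCompletion M) (WithZero (Multiplicative ℤ)))
  let vL : Valuation L (WithZero (Multiplicative ℤ)) :=
    (Valued.v : Valuation (v.adicCompletion F) (WithZero (Multiplicative ℤ)))
  have wz : ∀ x : M, wE (algebraMap M E x) = 𝔓.valuation M x := fun x =>
    HeightOneSpectrum.valuedAdicCompletion_eq_valuation' 𝔓 x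
  have vz : ∀ x : F, vL (algebraMap F L x) = v.valuation F x := fun x =>
    HeightOneSpectrum.valuedAdicCompletion_eq_valuation' v x
  rw [← wz]
  refine isSquare_mul_sq wE hzD ?_
  rcases hD with rfl | ⟨x, y, hxy, hcase⟩
  · rw [map_one]; exact ⟨1, (mul_one 1).symm⟩
  -- the integrality of `θ`
  have hcubM : cub W θ = 0 := by
    apply (algebraMap M (Sep F)).injective
    rw [map_zero]
    have h1 : cub W (algebraMap M (Sep F) θ) = algebraMap M (Sep F) (cub W θ) := by
      simp only [cub, map_add, map_mul, map_pow]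
      have e : ∀ x : K, algebraMap M (Sep F) (algebraMap K M x) = algebraMap K (Sep F) x := by
        intro x
        rw [IsScalarTower.algebraMap_apply K F M, ← IsScalarTower.algebraMap_apply F M (Sep F),
          ← IsScalarTower.algebraMap_apply K F (Sep F)]
      rw [e, e, e]
    rw [← h1, hθ]
    exact hC.root_a
  have hcubE : cub W (algebraMap M E θ) = 0 := by
    have h1 : cub W (algebraMap M E θ) = algebraMap M E (cub W θ) := by
      simp only [cub, map_add, map_mul, map_pow]
      rfl
    rw [h1, hcubM, map_zero]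
  have eKM : ∀ p : k[X], algebraMap K M (algebraMap k[X] K p) =
      algebraMap B M (algebraMap k'[X] B (p.map (algebraMap k k'))) := fun p => by
    rw [IsScalarTower.algebraMap_apply K F M, hKF, ← IsScalarTower.algebraMap_apply k'[X] F M,
      IsScalarTower.algebraMap_apply k'[X] B M]
  have v1 : ∀ p : k[X], 𝔓.valuation M (algebraMap K M (algebraMap k[X] K p)) ≤ 1 := fun p => by
    rw [eKM]; exact 𝔓.valuation_le_one _
  have hθ1 : wE (algebraMap M E θ) ≤ 1 := by
    rw [wz]
    by_contra h1
    rw [not_le] at h1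
    have h0 : 𝔓.valuation M θ ≠ 0 := fun h => by rw [h] at h1; exact absurd h1 (by simp)
    have e : θ ^ 3 = -(algebraMap K M W.a₂ * θ ^ 2 + algebraMap K M W.a₄ * θ +
        algebraMap K M W.a₆) := by
      have : θ ^ 3 + algebraMap K M W.a₂ * θ ^ 2 + algebraMap K M W.a₄ * θ +
        algebraMap K M W.a₆ = 0 := hcubM
      linear_combination this
    have h3 := congrArg (𝔓.valuation M) e
    rw [Valuation.map_neg, map_pow] at h3
    set s := 𝔓.valuation M θ with hs
    have h4 : 𝔓.valuation M (algebraMap K M W.a₂ * θ ^ 2 + algebraMap K M W.a₄ * θ +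
        algebraMap K M W.a₆) ≤ s ^ 2 := by
      refine (Valuation.map_add _ _ _).trans (max_le ((Valuation.map_add _ _ _).trans
        (max_le ?_ ?_)) ?_)
      · rw [map_mul, map_pow]
        calc _ ≤ 1 * s ^ 2 := mul_le_mul_left (v1 a2) _
          _ = s ^ 2 := one_mul _
      · rw [map_mul]
        calc _ ≤ 1 * s := mul_le_mul_left (v1 a4) _
          _ = s := one_mul _
          _ ≤ s ^ 2 := by rw [pow_two]; exact le_mul_of_one_le_left' h1.le
      · refine (v1 a6).trans ?_
        exact one_le_pow₀ h1.le
    rw [← h3] at h4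
    have h5 : s ^ 2 < s ^ 3 := by
      rw [pow_succ s 2]
      exact lt_mul_of_one_lt_right (pow_pos (zero_lt_iff.2 h0) 2) h1
    exact absurd h4 (not_le.2 h5)
  have vi1 : ∀ p : k[X], vL (algebraMap K L (algebraMap k[X] K p)) ≤ 1 := fun p => by
    rw [IsScalarTower.algebraMap_apply K F L, hKF, vz]
    exact v.valuation_le_one _
  exact parC (K := K) W vL wE j' hjK hj2 hj3 (vi1 a2) (vi1 a4)
    (fun x h1 h3 h4 => hsm x vL rfl h1 h3 h4) hcubE hθ1 hxy hcase

end par

section sets

/-- The prime `π` of `k[t]` is inert in `R`. -/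
def InertP {k : Type} [Field k] (R : Type) [CommRing R] [Algebra k[X] R] (π : k[X]) : Prop :=
  Irreducible π ∧ ((Ideal.span {π}).map (algebraMap k[X] R)).IsPrime

/-- The places of `k'(t)` which are not above the primes with the property `p`. -/
def VSet {k k' : Type} [Field k] [Field k'] [Algebra k k'] (p : k[X] → Prop) :
    Set (HeightOneSpectrum k'[X]) :=
  {v | ∀ π : k[X], p π → π.map (algebraMap k k') ∉ v.asIdeal}

end sets

section base

variable {k k' K F N M R B : Type} [Field k] [Field k'] [Algebra k k'] [Field K] [Algebra k[X] K]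
  [Field F] [Algebra k'[X] F] [IsFractionRing k'[X] F] [Algebra K F]
  [Field N] [Algebra K N] [Algebra N (Sep F)] [IsScalarTower K N (Sep F)]
  [Field M] [Algebra F M] [Algebra K M] [IsScalarTower K F M] [Algebra M (Sep F)]
  [IsScalarTower F M (Sep F)]
  [Algebra N M] [IsScalarTower N M (Sep F)]
  [Algebra k N] [Algebra k' M] [Algebra k M] [IsScalarTower k k' M] [IsScalarTower k N M]
  [CommRing R] [IsDedekindDomain R] [Algebra R N] [IsFractionRing R N]
  [CommRing B] [IsDedekindDomain B] [Algebra B M] [IsFractionRing B M]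
  [Algebra R B] [Algebra R M] [IsScalarTower R N M] [IsScalarTower R B M]
  [Algebra.IsIntegral R B] [Module.IsTorsionFree R B] [Algebra k' B] [IsScalarTower k' B M]
  [Algebra k'[X] B] [Algebra.IsIntegral k'[X] B] [Algebra k'[X] M] [IsScalarTower k'[X] F M]
  [IsScalarTower k'[X] B M] [Module.IsTorsionFree k'[X] B]


variable (B)

include B

theorem baseM (hT : IsTower k k' K F) (h2 : (2 : k) ≠ 0) {a2 a4 a6 : k[X]}
    [Algebra k[X] N] [IsScalarTower k[X] K N] [Algebra k[X] R] [IsScalarTower k[X] R N]
    (hsm : ∀ v ∈ VSet (k' := k') (InertP (k := k) R), LocSm (F := F) (crvC (algebraMap k[X] K a2)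
      (algebraMap k[X] K a4) (algebraMap k[X] K a6)) v)
    (hΔ : (crvC (algebraMap k[X] K a2) (algebraMap k[X] K a4) (algebraMap k[X] K a6)).Δ ≠ 0)
    (hnr : ∀ x : F, cub (crvC (algebraMap k[X] K a2) (algebraMap k[X] K a4)
      (algebraMap k[X] K a6)) x ≠ 0)
    {a b c : Sep F} (hC : IsC ((crvC (algebraMap k[X] K a2) (algebraMap k[X] K a4)
      (algebraMap k[X] K a6)).baseChange (Sep F)).toAffine a b c)
    {θ : N} (hθ : algebraMap N (Sep F) θ = a) (hNtop : IntermediateField.adjoin K {θ} = ⊤)
    (htop : IntermediateField.adjoin N (Set.range (algebraMap k' M)) = ⊤)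
    (hkN : ∀ x : k, algebraMap N (Sep F) (algebraMap k[X] N (C x)) =
      algebraMap F (Sep F) (algebraMap k'[X] F (C (algebraMap k k' x))))
    (hfin : Module.Finite k[X] R) (htf : Module.IsTorsionFree k[X] R)
    (hpts : ∀ z : N, z ≠ 0 → (∀ v : HeightOneSpectrum R, IsSquare (v.valuation N z)) →
      ∃ (u : k) (g : N), u ≠ 0 ∧ g ≠ 0 ∧ z = algebraMap k[X] N (C u) * g ^ 2) :
    Triv (crvC (algebraMap k[X] K a2) (algebraMap k[X] K a4) (algebraMap k[X] K a6))
      (VSet (k' := k') (InertP (k := k) R)) (⊤ : Subgroup (Sep F ≃ₐ[K] Sep F)) := by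
  haveI := hT.sep
  haveI := hT.fracK
  haveI : IsSepClosed k' := IsSepClosure.sep_closed k
  haveI : IsGalois k k' := inferInstance
  have hKF := hT.map
  haveI : IsSepClosure K (Sep F) := sepKΩ hKF
  haveI : Algebra.IsSeparable K (Sep F) := IsSepClosure.separable
  haveI : IsGalois K (Sep F) := inferInstance
  have hPr : Preserves K F (Sep F) := preserves hKF
  set W := crvC (algebraMap k[X] K a2) (algebraMap k[X] K a4) (algebraMap k[X] K a6) with hW
  intro f hf
  set f0 : (Sep F ≃ₐ[F] Sep F) → Pt W (Sep F) := fun σ => f (rK K F σ) with hf0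
  have hmul0 : ∀ σ τ, f0 (σ * τ) = f0 σ + act W (rs K σ) (f0 τ) := by
    intro σ τ
    have h := hf.coc.mul (rK K F σ) trivial (rK_mem σ) (rK K F τ) trivial (rK_mem τ)
    rw [← map_mul] at h
    exact h
  have hf2 : ∀ σ, f0 σ + f0 σ = 0 := fun σ => hf.coc.two _ trivial (rK_mem σ)
  have hcoc : IsCoc W f0 := by
    refine ⟨?_, hmul0⟩
    obtain ⟨O, hO, hO1, hz⟩ := hf.cont
    rw [IsLocallyConstant.iff_exists_open]
    intro σ
    have hcont : Continuous fun τ : Sep F ≃ₐ[F] Sep F => σ⁻¹ * τ := by fun_prop
    refine ⟨_, hO.preimage hcont, ?_, fun τ hτ => ?_⟩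
    · show σ⁻¹ * σ ∈ O
      rw [inv_mul_cancel]
      exact hO1
    · have h := hmul0 σ (σ⁻¹ * τ)
      have h3 : f0 (σ⁻¹ * τ) = 0 := hz _ hτ trivial
      rw [mul_inv_cancel_left, h3, map_zero, add_zero] at h
      exact h
  have hinv : InvOne W f0 := by
    intro τ
    obtain ⟨Q, hQ, h⟩ := hf.coc.inv τ trivial
    refine ⟨Q, ⟨1, by rw [pow_one, two_nsmul, hQ]⟩, fun σ σ' hσ => ?_⟩
    have h1 := h (rK K F σ) trivial (rK_mem σ)
    rw [conj_rel τ hσ] at h1
    exact h1
  obtain ⟨g, hg, hmul, hg2, hgF⟩ := Pool.Agent.TH115.GD.ext_coc hC hnr hPr hcoc hf2 hinv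
  obtain ⟨t, z, ht, hz, hk⟩ := kummerN hC hθ hNtop hg hmul hg2
  have hz0 : z ≠ 0 := by
    rintro rfl
    rw [map_zero] at hz
    exact pow_ne_zero 2 ht hz
  have hkF : ∀ σ : Sep F ≃ₐ[F] Sep F, σ a = a → σ t = sC a (f0 σ) * t := by
    intro σ hσ
    have h1 := hk (σ.restrictScalars K) hσ
    rw [hgF] at h1
    exact h1
  have htr := fun x hx => trans_roots (F := F) hC hnr x hx
  -- the degree of `N`
  have hθcub : cub W θ = 0 := by
    have h1 := cub_map W (IsScalarTower.toAlgHom K N (Sep F)) θ
    have h3 : (IsScalarTower.toAlgHom K N (Sep F)) θ = a := hθ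
    rw [h3, hC.root_a] at h1
    exact (map_eq_zero (algebraMap N (Sep F))).1 h1.symm
  have hnrK : ∀ x : K, cub W x ≠ 0 := by
    intro x hx
    have h1 := cub_map W (Algebra.ofId K F) x
    rw [hx, map_zero] at h1
    exact hnr _ h1
  obtain ⟨d1, d2⟩ := cubP_deg (W := W) (F := K)
  have hmin : minpoly K θ = cubP W K := by
    have hr : aeval θ (cubP W K) = 0 := by
      have : aeval θ (cubP W K) = cub W θ := by simp [cubP, cub]
      rw [this, hθcub]
    exact (minpoly.eq_of_irreducible_of_monic (cubP_irr hnrK) hr d2).symm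
  have hint : IsIntegral K θ := by
    have hr : aeval θ (cubP W K) = 0 := by
      have : aeval θ (cubP W K) = cub W θ := by simp [cubP, cub]
      rw [this, hθcub]
    exact ⟨cubP W K, d2, hr⟩
  have h3N : Module.finrank K N = 3 := by
    have h1 := IntermediateField.adjoin.finrank hint
    rw [hmin, d1, hNtop, IntermediateField.finrank_top'] at h1
    exact h1
  haveI : FiniteDimensional K N := Module.finite_of_finrank_pos (by rw [h3N]; norm_num)
  obtain ⟨T, hT'⟩ := norm_sq hC h3N (fun e he => by
    obtain ⟨ρ, hρ⟩ := htr e he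
    exact ⟨ρ.restrictScalars K, hρ⟩) hθ hmul hg2 hz hk
  -- the valuations
  have hev : ∀ v : HeightOneSpectrum R, IsSquare (v.valuation N z) := by
    intro v
    obtain ⟨w, rfl⟩ := exists_over (B := B) v
    by_cases hV : w.under k'[X] ∈ VSet (k' := k') (InertP (k := k) R)
    · rw [← val_unram k (R := R) htop w]
      have hθM : algebraMap M (Sep F) (algebraMap N M θ) = a := by
        rw [← IsScalarTower.algebraMap_apply N M (Sep F), hθ]
      let ι : Sep F →ₐ[F] Sep (Comp k'[X] F (w.under k'[X])) := IsSepClosed.lift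
      obtain ⟨P, hP⟩ := hf.loc _ hV ι
      exact parV hKF hθM hC hcoc hf2 ht (by
        rw [← IsScalarTower.algebraMap_apply N M (Sep F), hz]) hkF w
        ⟨ι, P, fun τ σ h => hP τ σ trivial h⟩
        (hsm _ hV)
    · simp only [VSet, Set.mem_setOf_eq, not_forall, not_not] at hV
      obtain ⟨π, ⟨hπ, hπR⟩, hmem⟩ := hV
      have hπ0 : Ideal.span {π} ≠ ⊥ := by
        rw [Ne, Ideal.span_singleton_eq_bot]
        exact hπ.ne_zero
      have hπp : (Ideal.span {π}).IsPrime := (Ideal.span_singleton_prime hπ.ne_zero).2 hπ.prime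
      have hmem' : algebraMap k[X] R π ∈ (w.under R).asIdeal := by
        show algebraMap R B (algebraMap k[X] R π) ∈ w.asIdeal
        have h1 : algebraMap k'[X] B (π.map (algebraMap k k')) ∈ w.asIdeal := hmem
        have e : algebraMap R B (algebraMap k[X] R π) =
            algebraMap k'[X] B (π.map (algebraMap k k')) := by
          apply IsFractionRing.injective B M
          rw [← IsScalarTower.algebraMap_apply R B M, IsScalarTower.algebraMap_apply R N M,
            ← IsScalarTower.algebraMap_apply k[X] R N, ← IsScalarTower.algebraMap_apply k'[X] B M,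
            IsScalarTower.algebraMap_apply k[X] K N, IsScalarTower.algebraMap_apply k'[X] F M,
            ← hKF]
          apply (algebraMap M (Sep F)).injective
          rw [← IsScalarTower.algebraMap_apply N M (Sep F), ← IsScalarTower.algebraMap_apply K N (Sep F),
            ← IsScalarTower.algebraMap_apply F M (Sep F), ← IsScalarTower.algebraMap_apply K F (Sep F)]
        rw [e]
        exact h1
      have hle : (Ideal.span {π}).map (algebraMap k[X] R) ≤ (w.under R).asIdeal := by
        rw [Ideal.map_le_iff_le_comap, Ideal.span_singleton_le_iff_mem]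
        exact hmem'
      have hne : (Ideal.span {π}).map (algebraMap k[X] R) ≠ ⊥ := by
        intro h0
        exact hπ0 ((Ideal.map_eq_bot_iff_of_injective
          (FaithfulSMul.algebraMap_injective k[X] R)).1 h0)
      have hv : (w.under R).asIdeal = (Ideal.span {π}).map (algebraMap k[X] R) :=
        ((hπR.isMaximal hne).eq_of_le (w.under R).isPrime.ne_top hle).symm
      have hodd : Odd (Module.finrank k[X] R) := by
        rw [← IsFractionRing.finrank_eq k[X] K R N, h3N]
        decide
      exact inert_parity (K := K) hπp hπ0 (w.under R) hv hodd hz0 hT'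
  obtain ⟨u, y, hu, hy, hzu⟩ := hpts z hz0 hev
  obtain ⟨s, hs⟩ := const_sqrt (k := k) (k' := k') h2 u
  set m : Sep F := algebraMap F (Sep F) (algebraMap k'[X] F (C s)) * algebraMap N (Sep F) y with hm
  have hm2 : m ^ 2 = algebraMap N (Sep F) (algebraMap k[X] N (C u) * y ^ 2) := by
    rw [hm, mul_pow, ← map_pow, ← map_pow, ← C_pow, hs, map_mul, hkN, map_pow]
  have hfixN : ∀ σ : Sep F ≃ₐ[F] Sep F, σ a = a → ∀ y : N,
      σ (algebraMap N (Sep F) y) = algebraMap N (Sep F) y := by
    intro σ hσ y
    obtain ⟨τ', hτ'⟩ := lift_fix hNtop (σ.restrictScalars K) (by rw [hθ]; exact hσ)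
    have h1 := hτ' (algebraMap N (Sep F) y)
    rw [τ'.commutes] at h1
    exact h1.symm
  have hmfix : ∀ σ : Sep F ≃ₐ[F] Sep F, σ a = a → σ m = m := by
    intro σ hσ
    rw [hm, map_mul, σ.commutes, hfixN σ hσ]
  have htm : t ^ 2 = m ^ 2 := by rw [hz, hzu, hm2]
  have hs1 : ∀ σ : Sep F ≃ₐ[F] Sep F, σ a = a → sC a (f0 σ) = 1 := by
    intro σ hσ
    have h1 := hkF σ hσ
    have h3 : σ t = t := by
      rcases sq_eq_sq_iff_eq_or_eq_neg.1 htm with h | h
      · rw [h, hmfix σ hσ]
      · rw [h, map_neg, hmfix σ hσ]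
    rw [h3] at h1
    have h4 : (sC a (f0 σ) - 1) * t = 0 := by linear_combination -h1
    rcases mul_eq_zero.1 h4 with h5 | h5
    · exact sub_eq_zero.1 h5
    · exact absurd h5 ht
  obtain ⟨R', hR', hR''⟩ := cob1 hC htr hcoc.mul hf2 hs1
  refine ⟨R', hR', ?_⟩
  rintro _ - ⟨σ, rfl⟩
  exact hR'' σ

end base

section critN

variable {k k' K F N : Type} [Field k] [Field k'] [Algebra k k'] [Field K] [Algebra k[X] K]
  [Field F] [Algebra k'[X] F] [IsFractionRing k'[X] F] [Algebra K F]
  [Field N] [Algebra K N] [Algebra k[X] N] [IsScalarTower k[X] K N]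
  {R : Type} [CommRing R] [IsDedekindDomain R] [Algebra R N] [IsFractionRing R N]
  [Algebra k[X] R] [IsScalarTower k[X] R N] [Algebra.IsIntegral k[X] R]

/-- The criterion with a fixed embedding of `N` in the separable closure. -/
theorem baseN [Algebra N (Sep F)] [IsScalarTower K N (Sep F)]
    (hT : IsTower k k' K F) (h2 : (2 : k) ≠ 0) {a2 a4 a6 : k[X]}
    (hsm : ∀ v ∈ VSet (k' := k') (InertP (k := k) R), LocSm (F := F) (crvC (algebraMap k[X] K a2)
      (algebraMap k[X] K a4) (algebraMap k[X] K a6)) v)
    (hΔ : (crvC (algebraMap k[X] K a2) (algebraMap k[X] K a4) (algebraMap k[X] K a6)).Δ ≠ 0)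
    (hnr : ∀ x : F, cub (crvC (algebraMap k[X] K a2) (algebraMap k[X] K a4)
      (algebraMap k[X] K a6)) x ≠ 0) {θ : N}
    (hθ : cub (crvC (algebraMap k[X] K a2) (algebraMap k[X] K a4)
      (algebraMap k[X] K a6)) θ = 0) (hNtop : IntermediateField.adjoin K {θ} = ⊤)
    (hfin : Module.Finite k[X] R) (htf : Module.IsTorsionFree k[X] R)
    (hpts : ∀ z : N, z ≠ 0 → (∀ v : HeightOneSpectrum R, IsSquare (v.valuation N z)) →
      ∃ (u : k) (g : N), u ≠ 0 ∧ g ≠ 0 ∧ z = algebraMap k[X] N (C u) * g ^ 2) :
    Triv (crvC (algebraMap k[X] K a2) (algebraMap k[X] K a4) (algebraMap k[X] K a6))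
      (VSet (k' := k') (InertP (k := k) R)) (⊤ : Subgroup (Sep F ≃ₐ[K] Sep F)) := by
  haveI := hT.sep
  haveI := hT.fracK
  haveI : IsGalois k k' := inferInstance
  have hKF := hT.map
  haveI : IsSepClosure K (Sep F) := sepKΩ hKF
  haveI : Algebra.IsSeparable K (Sep F) := IsSepClosure.separable
  haveI : IsGalois K (Sep F) := inferInstance
  have h2K : (2 : K) ≠ 0 := tt h2
  set W := crvC (algebraMap k[X] K a2) (algebraMap k[X] K a4) (algebraMap k[X] K a6) with hW
  set a : Sep F := algebraMap N (Sep F) θ with ha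
  have hcuba : cub W a = 0 := by
    have h1 := cub_map W (IsScalarTower.toAlgHom K N (Sep F)) θ
    rw [hθ, map_zero] at h1
    exact h1
  obtain ⟨b, c, hC⟩ := exists_isC (W := W) rfl rfl hΔ h2K hcuba
  have hKN : ∀ x : K, algebraMap N (Sep F) (algebraMap K N x) =
      algebraMap F (Sep F) (algebraMap K F x) := fun x => by
    rw [← IsScalarTower.algebraMap_apply K N (Sep F), ← IsScalarTower.algebraMap_apply K F (Sep F)]
  -- the field `M`
  let S : IntermediateField F (Sep F) := IntermediateField.adjoin F {a}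
  haveI : FiniteDimensional F S := IntermediateField.adjoin.finiteDimensional
    (Algebra.IsIntegral.isIntegral (R := F) a)
  haveI : Algebra.IsSeparable F S := inferInstance
  have hmem : ∀ x : N, algebraMap N (Sep F) x ∈ S := by
    intro x
    have hx : x ∈ (⊤ : IntermediateField K N) := trivial
    rw [← hNtop] at hx
    refine IntermediateField.adjoin_induction K
      (p := fun x _ => algebraMap N (Sep F) x ∈ S) ?_ ?_ ?_ ?_ ?_ hx
    · intro y hy
      rw [Set.mem_singleton_iff] at hy
      subst hy
      exact IntermediateField.mem_adjoin_simple_self F a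
    · intro y
      rw [hKN]
      exact S.algebraMap_mem _
    · intro x y _ _ hx hy
      rw [map_add]; exact add_mem hx hy
    · intro x _ hx
      rw [map_inv₀]; exact inv_mem hx
    · intro x y _ _ hx hy
      rw [map_mul]; exact mul_mem hx hy
  let M : Type := S
  letI : Algebra N M := ((algebraMap N (Sep F)).codRestrict S hmem).toAlgebra
  haveI : IsScalarTower N M (Sep F) := IsScalarTower.of_algebraMap_eq fun x => rfl
  haveI : IsScalarTower K F M := IsScalarTower.of_algebraMap_eq fun x => Subtype.ext
    (IsScalarTower.algebraMap_apply K F (Sep F) x)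
  letI : Algebra k N := ((algebraMap k[X] N).comp C).toAlgebra
  letI : Algebra k' M := ((algebraMap F M).comp ((algebraMap k'[X] F).comp C)).toAlgebra
  letI : Algebra k M := ((algebraMap k' M).comp (algebraMap k k')).toAlgebra
  haveI : IsScalarTower k k' M := IsScalarTower.of_algebraMap_eq fun x => rfl
  have hkX : ∀ p : k[X], algebraMap N (Sep F) (algebraMap k[X] N p) =
      algebraMap F (Sep F) (algebraMap k'[X] F (p.map (algebraMap k k'))) := by
    intro p
    rw [IsScalarTower.algebraMap_apply k[X] K N, hKN, hKF]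
  have hkN : ∀ x : k, algebraMap N (Sep F) (algebraMap k N x) =
      algebraMap F (Sep F) (algebraMap k'[X] F (C (algebraMap k k' x))) := by
    intro x
    have := hkX (C x)
    rwa [map_C] at this
  haveI : IsScalarTower k N M := IsScalarTower.of_algebraMap_eq fun x => Subtype.ext (hkN x).symm
  letI : Algebra k'[X] M := ((algebraMap F M).comp (algebraMap k'[X] F)).toAlgebra
  haveI : IsScalarTower k'[X] F M := IsScalarTower.of_algebraMap_eq fun x => rfl
  -- the ring `R`
  haveI : FiniteDimensional K N := by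
    have hint : IsIntegral K θ := by
      have h1 : IsIntegral K a := Algebra.IsIntegral.isIntegral a
      exact (isIntegral_algebraMap_iff (algebraMap N (Sep F)).injective).1 h1
    haveI := IntermediateField.adjoin.finiteDimensional hint
    rw [hNtop] at this
    exact (IntermediateField.topEquiv (F := K) (E := N)).toLinearEquiv.finiteDimensional
  haveI : Algebra.IsSeparable K N := Algebra.isSeparable_tower_bot_of_isSeparable K N (Sep F)
  haveI : IsDedekindDomain (integralClosure k'[X] M) := integralClosure.isDedekindDomain k'[X] F M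
  haveI : IsFractionRing (integralClosure k'[X] M) M :=
    integralClosure.isFractionRing_of_finite_extension F M
  letI : Algebra R M := ((algebraMap N M).comp (algebraMap R N)).toAlgebra
  haveI : IsScalarTower R N M := IsScalarTower.of_algebraMap_eq fun x => rfl
  have hRB : ∀ r : R, algebraMap N M (algebraMap R N r) ∈ integralClosure k'[X] M := by
    intro r
    have h1 : IsIntegral k[X] (algebraMap R N r) :=
      (Algebra.IsIntegral.isIntegral (R := k[X]) r).algebraMap
    exact IsIntegral.map_of_comp_eq (mapRingHom (algebraMap k k')) (algebraMap N M) (by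
      ext p
      · exact (hkX (C p)).symm
      · exact (hkX X).symm) h1
  letI : Algebra R (integralClosure k'[X] M) :=
    (((algebraMap N M).comp (algebraMap R N)).codRestrict
      (integralClosure k'[X] M) hRB).toAlgebra
  haveI : IsScalarTower R (integralClosure k'[X] M) M :=
    IsScalarTower.of_algebraMap_eq fun x => rfl
  letI : Algebra k' (integralClosure k'[X] M) :=
    ((algebraMap k'[X] (integralClosure k'[X] M)).comp C).toAlgebra
  haveI : IsScalarTower k' (integralClosure k'[X] M) M :=
    IsScalarTower.of_algebraMap_eq fun x => rfl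
  haveI : Algebra.IsIntegral R (integralClosure k'[X] M) := by
    have h1 : (mapRingHom (algebraMap k k')).IsIntegral := poly_integral
    have h3 : (algebraMap k'[X] (integralClosure k'[X] M)).IsIntegral := fun x =>
      Algebra.IsIntegral.isIntegral (R := k'[X]) x
    have h4 := RingHom.IsIntegral.trans _ _ h1 h3
    have h5 : (algebraMap k'[X] (integralClosure k'[X] M)).comp (mapRingHom (algebraMap k k')) =
        (algebraMap R (integralClosure k'[X] M)).comp
          (algebraMap k[X] R) := by
      apply RingHom.ext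
      intro p
      apply Subtype.ext
      apply Subtype.ext
      show algebraMap F (Sep F) (algebraMap k'[X] F (p.map (algebraMap k k'))) =
        algebraMap N (Sep F) (algebraMap R N (algebraMap k[X] R p))
      rw [← IsScalarTower.algebraMap_apply k[X] R N]
      exact (hkX p).symm
    rw [h5] at h4
    exact ⟨RingHom.IsIntegral.tower_top _ _ h4⟩
  haveI : Module.IsTorsionFree R (integralClosure k'[X] M) := by
    rw [Module.isTorsionFree_iff_algebraMap_injective]
    intro x y h
    have h1 := congrArg (algebraMap (integralClosure k'[X] M) M) h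
    rw [← IsScalarTower.algebraMap_apply R (integralClosure k'[X] M) M,
      ← IsScalarTower.algebraMap_apply R (integralClosure k'[X] M) M] at h1
    exact IsFractionRing.injective R N ((algebraMap N M).injective h1)
  haveI : Module.IsTorsionFree k'[X] (integralClosure k'[X] M) := by
    rw [Module.isTorsionFree_iff_algebraMap_injective]
    intro x y h
    have h1 := congrArg (algebraMap (integralClosure k'[X] M) M) h
    apply IsFractionRing.injective k'[X] F
    exact (algebraMap F M).injective h1
  -- `M` is generated by the constants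
  have htop : IntermediateField.adjoin N (Set.range (algebraMap k' M)) = ⊤ := by
    set T : IntermediateField N M := IntermediateField.adjoin N (Set.range (algebraMap k' M)) with hT'
    have hpoly : ∀ p : k'[X], algebraMap F M (algebraMap k'[X] F p) ∈ T := by
      intro p
      induction p using Polynomial.induction_on' with
      | add p q hp hq => rw [map_add, map_add]; exact add_mem hp hq
      | monomial n c =>
        rw [← C_mul_X_pow_eq_monomial, map_mul, map_mul, map_pow, map_pow]
        refine mul_mem (IntermediateField.subset_adjoin N _ ⟨c, rfl⟩) (pow_mem ?_ n)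
        have h1 : algebraMap F M (algebraMap k'[X] F X) = algebraMap N M (algebraMap k[X] N X) := by
          apply Subtype.ext
          have := hkX X
          rw [map_X] at this
          exact this.symm
        rw [h1]
        exact T.algebraMap_mem _
    have hF : ∀ x : F, algebraMap F M x ∈ T := by
      intro x
      obtain ⟨n, d, hd, rfl⟩ := IsFractionRing.div_surjective (A := k'[X]) x
      rw [map_div₀]
      exact div_mem (hpoly n) (hpoly d)
    rw [eq_top_iff]
    rintro ⟨x, hx⟩ -
    refine IntermediateField.adjoin_induction F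
      (p := fun x hx => (⟨x, hx⟩ : M) ∈ T) ?_ ?_ ?_ ?_ ?_ hx
    · intro y hy
      rw [Set.mem_singleton_iff] at hy
      subst hy
      exact T.algebraMap_mem θ
    · intro y
      exact hF y
    · intro x y _ _ hx hy
      exact add_mem hx hy
    · intro x _ hx
      exact inv_mem hx
    · intro x y _ _ hx hy
      exact mul_mem hx hy
  exact baseM (M := M) (R := R) (integralClosure k'[X] M) hT h2 hsm hΔ hnr hC rfl hNtop htop
    hkN hfin htf hpts

end critN

end Pool.Agent.K6.H71.PG
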