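import Pool.Agent.K6.H71.PG.Cls

/-!
# The descent in a Galois extension whose degree is a power of two
-/

set_option autoImplicit false

open Polynomial IsDedekindDomain WeierstrassCurve WeierstrassCurve.Affine
open scoped Classical

namespace Pool.Agent.K6.H71.PG

open Pool.Agent.TH115.GD

section chain

variable {k' K F : Type} [Field k'] [Field K] [Field F] [Algebra K F] [Algebra k'[X] F]
  [IsFractionRing k'[X] F] {W : WeierstrassCurve K} {V : Set (HeightOneSpectrum k'[X])}
  {Γ : Type} [Group Γ] [Finite Γ] (ρ : (Sep F ≃ₐ[K] Sep F) →* Γ)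

theorem chain (hN : Preserves K F (Sep F)) (hΓ : IsPGroup 2 Γ)
    (hsurj : ∀ γ : Γ, ∃ σ : Sep F ≃ₐ[F] Sep F, ρ (rK K F σ) = γ)
    (hO : ∃ O : Set (Sep F ≃ₐ[F] Sep F), IsOpen O ∧ 1 ∈ O ∧ ∀ τ ∈ O, ρ (rK K F τ) = 1)
    (hun : ∀ v ∈ V, ∀ (ι : Sep F →ₐ[F] Sep (Comp k'[X] F v))
      (τ : Sep (Comp k'[X] F v) ≃ₐ[Comp k'[X] F v] Sep (Comp k'[X] F v)) (σ : Sep F ≃ₐ[F] Sep F),
      (∀ x, τ (ι x) = ι (σ x)) → ρ (rK K F σ) = 1)
    (h2 : NT (ac W) (NK K F) ⊤) (h : Triv W V (⊤ : Subgroup (Sep F ≃ₐ[K] Sep F))) :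
    ∀ H : Subgroup Γ, NT (ac W) (NK K F) (H.comap ρ) ∧ Triv W V (H.comap ρ) := by
  haveI : Fact (Nat.Prime 2) := ⟨Nat.prime_two⟩
  obtain ⟨M, hM⟩ := IsPGroup.iff_card.1 hΓ
  have key : ∀ (m n : ℕ), n + m = M → ∀ H : Subgroup Γ, Nat.card H = 2 ^ n →
      NT (ac W) (NK K F) (H.comap ρ) ∧ Triv W V (H.comap ρ) := by
    intro m
    induction m with
    | zero =>
      intro n hn H hH
      have e : H = ⊤ := Subgroup.eq_top_of_card_eq H (by rw [hH, hM]; congr 1)
      rw [e, Subgroup.comap_top]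
      exact ⟨h2, h⟩
    | succ m ih =>
      intro n hn H hH
      obtain ⟨H₁, hc, hle⟩ := Sylow.exists_subgroup_card_pow_succ (p := 2) (n := n)
        (by rw [hM]; exact pow_dvd_pow 2 (by omega)) hH
      obtain ⟨i1, i2⟩ := ih (n + 1) (by omega) H₁ hc
      have hidx : (H.subgroupOf H₁).index = 2 := by
        have h1 : Nat.card (H.subgroupOf H₁) = 2 ^ n := by
          rw [Nat.card_congr (Subgroup.subgroupOfEquivOfLe hle).toEquiv, hH]
        have h3 := Subgroup.card_mul_index (H.subgroupOf H₁)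
        rw [h1, hc, pow_succ] at h3
        exact Nat.eq_of_mul_eq_mul_left (by positivity) h3
      obtain ⟨γ, hγ, hγ'⟩ : ∃ γ ∈ H₁, γ ∉ H := by
        by_contra hcon
        push Not at hcon
        have h1 : H₁ = H := le_antisymm hcon hle
        rw [h1, hH] at hc
        have := Nat.pow_right_injective (le_refl 2) hc
        omega
      obtain ⟨s, hs⟩ := hsurj γ
      have hst : Step (NK K F) (H₁.comap ρ) (H.comap ρ) (rK K F s) := by
        refine ⟨Subgroup.comap_mono hle, ?_, rK_mem s, ?_, fun t ht => ?_⟩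
        · show ρ _ ∈ H₁
          rw [hs]
          exact hγ
        · intro h1
          apply hγ'
          rw [← hs]
          exact h1
        · by_cases h1 : ρ t ∈ H
          · exact Or.inl h1
          · right
            show ρ ((rK K F s)⁻¹ * t) ∈ H
            rw [map_mul, map_inv, hs]
            have h3 := (Subgroup.mul_mem_iff_of_index_two hidx (a := ⟨γ, hγ⟩⁻¹)
              (b := ⟨ρ t, ht⟩)).2 (by
                rw [Subgroup.mem_subgroupOf, Subgroup.mem_subgroupOf]
                refine ⟨fun h5 => absurd ?_ hγ', fun h5 => absurd h5 h1⟩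
                have h6 := H.inv_mem h5
                simpa using h6)
            rw [Subgroup.mem_subgroupOf] at h3
            simpa using h3
      have hnt := step_nt (ac_isAct (F := F) W) (nk_normal hN) hst i1
      refine ⟨hnt, step_triv hN hst hnt ?_ ?_ i2⟩
      · obtain ⟨O, h1, h3, h4⟩ := hO
        refine ⟨O, h1, h3, fun τ hτ => ?_⟩
        show ρ _ ∈ H
        rw [h4 τ hτ]
        exact H.one_mem
      · intro v hv ι τ σ hσ
        show ρ _ ∈ H
        rw [hun v hv ι τ σ hσ]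
        exact H.one_mem
  intro H
  obtain ⟨n, hn⟩ := IsPGroup.iff_card.1 (hΓ.to_subgroup H)
  have hle : n ≤ M := by
    have h1 := Subgroup.card_subgroup_dvd_card H
    rw [hn, hM] at h1
    exact (Nat.pow_dvd_pow_iff_le_right (le_refl 2)).1 h1
  exact key (M - n) n (by omega) H hn

end chain

end Pool.Agent.K6.H71.PG
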