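import Mathlib

/-!
# Dedekind domains whose class group has no elements of order two and whose units are constants

The proofs are those of `Pool.Agent.X261.BC.Cls`.
-/

set_option autoImplicit false
set_option linter.all false

open Polynomial IsDedekindDomain WithZero
open scoped nonZeroDivisors Classical

namespace Pool.Agent.K6.H71.PG

variable {R : Type} [CommRing R] [IsDedekindDomain R]

/-- An ideal whose exponents are even is a square. -/
theorem exists_ideal {a : R} (ha : a ≠ 0)
    (h : ∀ v : HeightOneSpectrum R, IsSquare (v.intValuation a)) :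
    ∃ I : Ideal R, I ≠ 0 ∧ I ^ 2 = Ideal.span {a} := by
  have hI0 : Ideal.span {a} ≠ (0 : Ideal R) := fun h0 => ha (Ideal.span_singleton_eq_bot.1 h0)
  have hcnt : ∀ v : HeightOneSpectrum R, 2 ∣ (Associates.mk v.asIdeal).count
      (Associates.mk (Ideal.span {a} : Ideal R)).factors := by
    intro v
    obtain ⟨δ, hδ⟩ := h v
    rw [HeightOneSpectrum.intValuation_if_neg v ha] at hδ
    have hδ0 : δ ≠ 0 := by
      rintro rfl
      rw [mul_zero] at hδ
      exact exp_ne_zero hδ
    obtain ⟨d, rfl⟩ : ∃ d : ℤ, δ = exp d := ⟨δ.log, (exp_log hδ0).symm⟩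
    rw [← exp_add, exp_inj] at hδ
    have h1 : ((2 : ℕ) : ℤ) ∣ ((Associates.mk v.asIdeal).count
      (Associates.mk (Ideal.span {a} : Ideal R)).factors : ℤ) := ⟨-d, by push_cast; linarith⟩
    exact_mod_cast h1
  choose e he using hcnt
  have hf : Function.HasFiniteMulSupport fun v : HeightOneSpectrum R => v.asIdeal ^ e v := by
    refine Set.Finite.subset (Ideal.hasFiniteMulSupport hI0) ?_
    intro v hv h0
    apply hv
    have h0' : v.asIdeal ^ (Associates.mk v.asIdeal).count
      (Associates.mk (Ideal.span {a} : Ideal R)).factors = 1 := h0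
    rw [he v, mul_comm, pow_mul] at h0'
    exact (pow_eq_one_iff.1 h0').resolve_right two_ne_zero
  have hpow : (∏ᶠ v : HeightOneSpectrum R, v.asIdeal ^ e v) ^ 2 = Ideal.span {a} := by
    rw [finprod_pow hf, ← Ideal.finprod_heightOneSpectrum_factorization hI0]
    refine finprod_congr fun v => ?_
    show _ = v.asIdeal ^ _
    rw [he v, ← pow_mul, mul_comm]
  refine ⟨_, fun h0 => ?_, hpow⟩
  rw [h0, zero_pow two_ne_zero] at hpow
  exact hI0 hpow.symm

/-- Elements with even valuations. -/
theorem even_of_ideals {k : Type} [Field k] [Algebra k R]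
    (hcl : ∀ I : Ideal R, (I ^ 2).IsPrincipal → I.IsPrincipal)
    (hu : ∀ u : Rˣ, ∃ c : k, (u : R) = algebraMap k R c)
    {L : Type} [Field L] [Algebra R L] [IsFractionRing R L] {z : L} (hz : z ≠ 0)
    (hP : ∀ P : HeightOneSpectrum R, IsSquare (P.valuation L z)) :
    ∃ (c : k) (w : L), c ≠ 0 ∧ w ≠ 0 ∧ z = algebraMap R L (algebraMap k R c) * w ^ 2 := by
  have hinj := IsFractionRing.injective R L
  obtain ⟨a, b, hb, rfl⟩ := IsFractionRing.div_surjective (A := R) z
  have hb0 : b ≠ 0 := nonZeroDivisors.ne_zero hb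
  have ha0 : a ≠ 0 := by
    rintro rfl
    rw [map_zero, zero_div] at hz
    exact hz rfl
  have hbL : algebraMap R L b ≠ 0 := fun h => hb0 (hinj (by rw [h, map_zero]))
  have hA0 : a * b ≠ 0 := mul_ne_zero ha0 hb0
  obtain ⟨I, hI0, hI⟩ := exists_ideal hA0 (fun v => by
      have h := hP v
      rw [map_div₀, HeightOneSpectrum.valuation_of_algebraMap,
        HeightOneSpectrum.valuation_of_algebraMap] at h
      have hvb : v.intValuation b ≠ 0 := v.intValuation_ne_zero b hb0
      have e : v.intValuation (a * b) =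
          (v.intValuation a / v.intValuation b) * (v.intValuation b * v.intValuation b) := by
        rw [map_mul, ← mul_assoc, div_mul_cancel₀ _ hvb]
      rw [e]
      exact h.mul ⟨_, rfl⟩)
  obtain ⟨⟨w, hw⟩⟩ := hcl I (by rw [hI]; exact ⟨⟨_, rfl⟩⟩)
  rw [Ideal.submodule_span_eq] at hw
  rw [hw, Ideal.span_singleton_pow, Ideal.span_singleton_eq_span_singleton] at hI
  obtain ⟨u, hu'⟩ := hI
  obtain ⟨c, hc⟩ := hu u
  have hc0 : c ≠ 0 := by
    rintro rfl
    rw [map_zero] at hc
    exact u.ne_zero hc
  have hw0 : w ≠ 0 := by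
    rintro rfl
    rw [zero_pow two_ne_zero, zero_mul] at hu'
    exact hA0 hu'.symm
  have hwL : algebraMap R L w ≠ 0 := fun h => hw0 (hinj (by rw [h, map_zero]))
  refine ⟨c, algebraMap R L w / algebraMap R L b, hc0, div_ne_zero hwL hbL, ?_⟩
  have e2 : algebraMap R L a * algebraMap R L b =
      algebraMap R L (algebraMap k R c) * algebraMap R L w ^ 2 := by
    rw [← map_pow, ← map_mul, ← hu', hc, map_mul, map_pow, mul_comm]
  rw [div_pow]
  field_simp
  linear_combination e2

end Pool.Agent.K6.H71.PG
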