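import Pool.Agent.K6.H71.MQ.Stm
import Pool.Agent.K6.H71.PG.Abs

/-!
# Invariant Selmer classes of order two in quadratic extensions

`U` is a subgroup of `Gal(Sep F / K)` (the Galois group of a finite extension `L` of `K`); the geometric
Galois group `Gal(Sep F / F L)` is the intersection of `U` with the image of `Gal(Sep F / F)`. `V` is a set
of places of `F`.
-/

set_option autoImplicit false

open Polynomial IsDedekindDomain WeierstrassCurve WeierstrassCurve.Affine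
open scoped Classical

namespace Pool.Agent.K6.H71.PG

open Pool.Agent.TH115.GD

section gal

variable (K F : Type) [Field K] [Field F] [Algebra K F]

/-- The restriction of scalars. -/
noncomputable def rK : (Sep F ≃ₐ[F] Sep F) →* (Sep F ≃ₐ[K] Sep F) := AlgEquiv.restrictScalarsHom K

theorem rK_apply (σ : Sep F ≃ₐ[F] Sep F) (x : Sep F) : rK K F σ x = σ x := rfl

theorem rK_inj : Function.Injective (rK K F) := by
  intro σ τ h
  ext x
  exact congrArg (fun e : Sep F ≃ₐ[K] Sep F => e x) h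

/-- The geometric Galois group. -/
noncomputable def NK : Subgroup (Sep F ≃ₐ[K] Sep F) := (rK K F).range

variable {K F}

theorem rK_mem (σ : Sep F ≃ₐ[F] Sep F) : rK K F σ ∈ NK K F := ⟨σ, rfl⟩

theorem mem_NK_iff (τ : Sep F ≃ₐ[K] Sep F) :
    τ ∈ NK K F ↔ ∀ x : F, τ (algebraMap F (Sep F) x) = algebraMap F (Sep F) x := by
  constructor
  · rintro ⟨σ, rfl⟩ x
    exact σ.commutes x
  · intro h
    exact ⟨AlgEquiv.ofRingEquiv (f := τ.toRingEquiv) h, AlgEquiv.ext fun x => rfl⟩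

theorem nk_normal (hN : Preserves K F (Sep F)) : (NK K F).Normal := by
  refine ⟨fun n hn g => ?_⟩
  rw [mem_NK_iff] at hn ⊢
  intro x
  obtain ⟨y, hy⟩ := hN g⁻¹ x
  show g (n (g⁻¹ (algebraMap F (Sep F) x))) = _
  rw [hy, hn, ← hy]
  exact AlgEquiv.apply_symm_apply g _

variable (W : WeierstrassCurve K)

/-- The action of `Gal(Sep F / K)` on the points. -/
noncomputable def ac (τ : Sep F ≃ₐ[K] Sep F) : Pt W (Sep F) →+ Pt W (Sep F) := act W (ak τ)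

theorem ac_rK (σ : Sep F ≃ₐ[F] Sep F) : ac W (rK K F σ) = act W (rs K σ) := rfl

theorem ac_isAct : IsAct (ac (F := F) W) := by
  refine ⟨fun x y P => ?_, fun P => MQ.act_self W _ (fun _ => rfl) P⟩
  unfold ac
  rw [act_act]
  rfl

end gal

section cls

variable {k' K F : Type} [Field k'] [Field K] [Field F] [Algebra K F] [Algebra k'[X] F]
  [IsFractionRing k'[X] F] (W : WeierstrassCurve K)

/-- Invariant classes of order two which are locally trivial at the places in `V`. -/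
structure Cls (V : Set (HeightOneSpectrum k'[X])) (U : Subgroup (Sep F ≃ₐ[K] Sep F))
    (f : (Sep F ≃ₐ[K] Sep F) → Pt W (Sep F)) : Prop where
  coc : Coc (ac W) (NK K F) U f
  cont : ∃ O : Set (Sep F ≃ₐ[F] Sep F), IsOpen O ∧ 1 ∈ O ∧
    ∀ τ ∈ O, rK K F τ ∈ U → f (rK K F τ) = 0
  loc : ∀ v ∈ V, ∀ ι : Sep F →ₐ[F] Sep (Comp k'[X] F v), ∃ P : Pt W (Sep (Comp k'[X] F v)),
    ∀ (τ : Sep (Comp k'[X] F v) ≃ₐ[Comp k'[X] F v] Sep (Comp k'[X] F v)) (σ : Sep F ≃ₐ[F] Sep F),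
      rK K F σ ∈ U → (∀ x, τ (ι x) = ι (σ x)) →
        act W (ι.restrictScalars K) (f (rK K F σ)) = act W (rs K τ) P - P

/-- All the classes over the field of `U` are trivial. -/
def Triv (V : Set (HeightOneSpectrum k'[X])) (U : Subgroup (Sep F ≃ₐ[K] Sep F)) : Prop :=
  ∀ f, Cls W V U f → ∃ Q, Q + Q = 0 ∧ ∀ x ∈ U, x ∈ NK K F → f x = ac W x Q - Q

variable {W} {V : Set (HeightOneSpectrum k'[X])} {U U' : Subgroup (Sep F ≃ₐ[K] Sep F)}
  {s : Sep F ≃ₐ[F] Sep F}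

theorem Cls.add {f g : (Sep F ≃ₐ[K] Sep F) → Pt W (Sep F)} (hf : Cls W V U f) (hg : Cls W V U g) :
    Cls W V U (f + g) := by
  refine ⟨hf.coc.add hg.coc, ?_, fun v hv ι => ?_⟩
  · obtain ⟨O, h1, h2, h3⟩ := hf.cont
    obtain ⟨O', h1', h2', h3'⟩ := hg.cont
    refine ⟨O ∩ O', h1.inter h1', ⟨h2, h2'⟩, fun τ hτ hU => ?_⟩
    show f _ + g _ = 0
    rw [h3 τ hτ.1 hU, h3' τ hτ.2 hU, add_zero]
  · obtain ⟨P, hP⟩ := hf.loc v hv ι
    obtain ⟨P', hP'⟩ := hg.loc v hv ι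
    refine ⟨P + P', fun τ σ hσ h => ?_⟩
    show act W _ (f _ + g _) = _
    rw [map_add, hP τ σ hσ h, hP' τ σ hσ h, map_add]
    abel

theorem Cls.sh (hN : Preserves K F (Sep F)) (hs : Step (NK K F) U U' (rK K F s))
    {f : (Sep F ≃ₐ[K] Sep F) → Pt W (Sep F)} (hf : Cls W V U' f) :
    Cls W V U' (sh (ac W) (rK K F s) f) := by
  have e : ∀ σ, (rK K F s)⁻¹ * rK K F σ * rK K F s = rK K F (s⁻¹ * σ * s) := by
    intro σ
    rw [map_mul, map_mul, map_inv]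
  refine ⟨sh_coc (ac_isAct W) (nk_normal hN) hs hf.coc, ?_, fun v hv ι => ?_⟩
  · obtain ⟨O, h1, h2, h3⟩ := hf.cont
    have hcont : Continuous fun u : Sep F ≃ₐ[F] Sep F => s⁻¹ * u * s := by fun_prop
    refine ⟨_, h1.preimage hcont, ?_, fun τ hτ hU => ?_⟩
    · show s⁻¹ * 1 * s ∈ O
      rw [mul_one, inv_mul_cancel]
      exact h2
    · show ac W _ (f _) = 0
      have h4 := hs.sconj hU
      rw [e] at h4 ⊢
      rw [h3 _ hτ h4, map_zero]
  · obtain ⟨P, hP⟩ := hf.loc v hv (ι.comp s.toAlgHom)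
    refine ⟨P, fun τ σ hσ h => ?_⟩
    have h4 := hs.sconj hσ
    rw [e] at h4
    have h5 := hP τ _ h4 (fun x => by
      show τ (ι (s x)) = ι (s ((s⁻¹ * σ * s) x))
      rw [h]
      congr 1
      show σ (s x) = s (s⁻¹ (σ (s x)))
      exact (AlgEquiv.apply_symm_apply s _).symm)
    show act W _ (ac W (rK K F s) (f _)) = _
    rw [e, ← h5, ac_rK, act_act]
    rfl

/-- The extension. -/
theorem Cls.ext (hN : Preserves K F (Sep F)) (hs : Step (NK K F) U U' (rK K F s))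
    (h2 : NT (ac W) (NK K F) U')
    (hO : ∃ O : Set (Sep F ≃ₐ[F] Sep F), IsOpen O ∧ 1 ∈ O ∧ ∀ τ ∈ O, rK K F τ ∈ U')
    (hun : ∀ v ∈ V, ∀ (ι : Sep F →ₐ[F] Sep (Comp k'[X] F v))
      (τ : Sep (Comp k'[X] F v) ≃ₐ[Comp k'[X] F v] Sep (Comp k'[X] F v)) (σ : Sep F ≃ₐ[F] Sep F),
      (∀ x, τ (ι x) = ι (σ x)) → rK K F σ ∈ U')
    {g : (Sep F ≃ₐ[K] Sep F) → Pt W (Sep F)} (hg : Cls W V U' g) {Q : Pt W (Sep F)}
    (hQ : Q + Q = 0) (hi : ∀ x ∈ U', x ∈ NK K F →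
      ac W (rK K F s) (g ((rK K F s)⁻¹ * x * rK K F s)) - g x = ac W x Q - Q) :
    Cls W V U (ext (ac W) U' (rK K F s) Q g) := by
  refine ⟨ext_coc (ac_isAct W) (nk_normal hN) hs h2 hg.coc hQ hi, ?_, fun v hv ι => ?_⟩
  · obtain ⟨O, h1, h3, h4⟩ := hg.cont
    obtain ⟨O', h1', h3', h4'⟩ := hO
    refine ⟨O ∩ O', h1.inter h1', ⟨h3, h3'⟩, fun τ hτ hU => ?_⟩
    rw [ext_mem (h4' τ hτ.2), h4 τ hτ.1 (h4' τ hτ.2)]
  · obtain ⟨P, hP⟩ := hg.loc v hv ι
    refine ⟨P, fun τ σ hσ h => ?_⟩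
    have h3 := hun v hv ι τ σ h
    rw [ext_mem h3, hP τ σ h3 h]

/-- **The quadratic step.** -/
theorem step_triv (hN : Preserves K F (Sep F)) (hs : Step (NK K F) U U' (rK K F s))
    (h2 : NT (ac W) (NK K F) U')
    (hO : ∃ O : Set (Sep F ≃ₐ[F] Sep F), IsOpen O ∧ 1 ∈ O ∧ ∀ τ ∈ O, rK K F τ ∈ U')
    (hun : ∀ v ∈ V, ∀ (ι : Sep F →ₐ[F] Sep (Comp k'[X] F v))
      (τ : Sep (Comp k'[X] F v) ≃ₐ[Comp k'[X] F v] Sep (Comp k'[X] F v)) (σ : Sep F ≃ₐ[F] Sep F),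
      (∀ x, τ (ι x) = ι (σ x)) → rK K F σ ∈ U')
    (h : Triv W V U) : Triv W V U' := by
  have ha := ac_isAct (F := F) W
  have hn := nk_normal hN
  have star : ∀ g, Cls W V U' g → ∀ Q, Q + Q = 0 → (∀ x ∈ U', x ∈ NK K F →
      ac W (rK K F s) (g ((rK K F s)⁻¹ * x * rK K F s)) - g x = ac W x Q - Q) →
      ∃ Q, Q + Q = 0 ∧ ∀ x ∈ U', x ∈ NK K F → g x = ac W x Q - Q := by
    intro g hg Q hQ hi
    obtain ⟨R, hR, hr⟩ := h _ (hg.ext hN hs h2 hO hun hQ hi)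
    refine ⟨R, hR, fun x hx hxN => ?_⟩
    rw [← hr x (hs.le hx) hxN, ext_mem hx]
  intro f hf
  have hsf := hf.sh hN hs
  have hsq := hs.sq
  have hsqN := (NK K F).mul_mem hs.memN hs.memN
  obtain ⟨R, hR, hr⟩ := star _ (hf.add hsf) (f (rK K F s * rK K F s))
    (hf.coc.two _ hsq hsqN) (fun x hx hxN => by
      have h1 := hf.coc.inner hn hsq hsqN hx hxN
      have e1 : (rK K F s)⁻¹ * ((rK K F s)⁻¹ * x * rK K F s) * rK K F s =
          (rK K F s * rK K F s)⁻¹ * x * (rK K F s * rK K F s) := by group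
      rw [← h1]
      show ac W _ (f _ + ac W _ (f _)) - (f x + ac W _ (f _)) = _
      rw [map_add, ← ha.mul, e1]
      abel)
  refine star f hf R hR fun x hx hxN => ?_
  have h1 : f x + ac W (rK K F s) (f ((rK K F s)⁻¹ * x * rK K F s)) = ac W x R - R := hr x hx hxN
  have h3 := hf.coc.two x hx hxN
  have h4 : ac W (rK K F s) (f ((rK K F s)⁻¹ * x * rK K F s)) - f x =
      (f x + ac W (rK K F s) (f ((rK K F s)⁻¹ * x * rK K F s))) - (f x + f x) := by abel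
  rw [h4, h1, h3, sub_zero]

end cls

end Pool.Agent.K6.H71.PG
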