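import Pool.Agent.K6.H71.PG.Graph
import Pool.Agent.R939.FF.Prm

/-!
# One third of the primes are inert
-/

set_option autoImplicit false
set_option linter.all false

open Polynomial
open scoped Classical

namespace Pool.Agent.K6.H71.PG

section field

variable {E : Type} [Field E]

/-- The discriminant of `x ^ 3 + a x ^ 2 + b x + (c - τ)`. -/
def dsc (a b c τ : E) : E :=
  a ^ 2 * b ^ 2 - 4 * b ^ 3 - 4 * a ^ 3 * (c - τ) - 27 * (c - τ) ^ 2 + 18 * a * b * (c - τ)

/-- The value of the cubic polynomial. -/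
def cbv (a b c x : E) : E := x ^ 3 + a * x ^ 2 + b * x + c

theorem dsc_eq (a b c r : E) : dsc a b c (cbv a b c r) =
    (r ^ 2 + (a + r) * r + (b + r * (a + r))) ^ 2 * ((a + r) ^ 2 - 4 * (b + r * (a + r))) := by
  unfold dsc cbv
  ring

theorem cbv_sub (a b c r x : E) : cbv a b c x - cbv a b c r =
    (x - r) * (x ^ 2 + (a + r) * x + (b + r * (a + r))) := by
  unfold cbv
  ring

variable [Fintype E] (h2 : (2 : E) ≠ 0) (a b c : E)

/-- The number of the roots. -/
noncomputable def rt (τ : E) : ℕ := (Finset.univ.filter fun x : E => cbv a b c x = τ).card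

theorem sum_rt : ∑ τ : E, rt a b c τ = Fintype.card E := by
  have h := Finset.card_eq_sum_card_fiberwise (f := cbv a b c) (s := (Finset.univ : Finset E))
    (t := Finset.univ) (fun x _ => Finset.mem_coe.2 (Finset.mem_univ _))
  rw [Finset.card_univ] at h
  exact h.symm

theorem rt_le (τ : E) : rt a b c τ ≤ 3 := by
  set P : E[X] := X ^ 3 + C a * X ^ 2 + C b * X + C (c - τ) with hP
  have hd : P.natDegree = 3 := by
    rw [hP]
    compute_degree!
  have h0 : P ≠ 0 := by
    intro h
    rw [h, natDegree_zero] at hd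
    exact absurd hd (by norm_num)
  have hsub : (Finset.univ.filter fun x : E => cbv a b c x = τ) ⊆ P.roots.toFinset := by
    intro x hx
    rw [Finset.mem_filter] at hx
    rw [Multiset.mem_toFinset, mem_roots h0, IsRoot.def, hP]
    have := hx.2
    unfold cbv at this
    simp
    linear_combination this
  refine (Finset.card_le_card hsub).trans ((Multiset.toFinset_card_le _).trans ?_)
  exact (card_roots' _).trans hd.le

include h2

/-- The basic inequality. -/
theorem rt_ineq (τ : E) : (2 : ℤ) - rt a b c τ + quadraticChar E (dsc a b c τ) -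
    (if dsc a b c τ = 0 then 1 else 0) ≤ 3 * (if rt a b c τ = 0 then 1 else 0) := by
  have hle := rt_le a b c τ
  have hchar : ringChar E ≠ 2 := by
    intro h
    apply h2
    have := ringChar.Nat.cast_ringChar (R := E)
    rw [h] at this
    exact_mod_cast this
  have hχ : quadraticChar E (dsc a b c τ) ≤ 1 := by
    by_cases h0 : dsc a b c τ = 0
    · rw [h0, MulChar.map_zero]; norm_num
    · rcases quadraticChar_dichotomy h0 with h | h <;> rw [h] <;> norm_num
  have hχ0 : dsc a b c τ = 0 → quadraticChar E (dsc a b c τ) = 0 := fun h => by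
    rw [h, MulChar.map_zero]
  -- one root
  have one : ∀ r : E, cbv a b c r = τ → (∀ x, cbv a b c x = τ → x = r) →
      dsc a b c τ = 0 ∨ quadraticChar E (dsc a b c τ) = -1 := by
    intro r hr hu
    by_cases h0 : dsc a b c τ = 0
    · exact Or.inl h0
    right
    rw [quadraticChar_neg_one_iff_not_isSquare]
    rintro ⟨w, hw⟩
    rw [← hr, dsc_eq] at hw h0
    set A := r ^ 2 + (a + r) * r + (b + r * (a + r)) with hA
    have hA0 : A ≠ 0 := by
      intro h
      apply h0
      rw [h]
      ring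
    set w' := w / A with hw'
    have e1 : (a + r) ^ 2 - 4 * (b + r * (a + r)) = w' ^ 2 := by
      rw [hw']
      field_simp
      linear_combination hw
    have h3 : cbv a b c ((-(a + r) + w') / 2) = τ := by
      have e2 := cbv_sub a b c r ((-(a + r) + w') / 2)
      have e3 : ((-(a + r) + w') / 2) ^ 2 + (a + r) * ((-(a + r) + w') / 2) +
          (b + r * (a + r)) = 0 := by
        field_simp
        linear_combination (-1 : E) * e1
      rw [e3, mul_zero, hr, sub_eq_zero] at e2
      exact e2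
    have h4 : cbv a b c ((-(a + r) - w') / 2) = τ := by
      have e2 := cbv_sub a b c r ((-(a + r) - w') / 2)
      have e3 : ((-(a + r) - w') / 2) ^ 2 + (a + r) * ((-(a + r) - w') / 2) +
          (b + r * (a + r)) = 0 := by
        field_simp
        linear_combination (-1 : E) * e1
      rw [e3, mul_zero, hr, sub_eq_zero] at e2
      exact e2
    have h5 := hu _ h3
    have h6 := hu _ h4
    have h7 : w' = 0 := by
      have h8 : (-(a + r) + w') / 2 - (-(a + r) - w') / 2 = 0 := by rw [h5, h6, sub_self]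
      have h9 : (-(a + r) + w') / 2 - (-(a + r) - w') / 2 = w' := by
        field_simp
        ring
      rw [h9] at h8
      exact h8
    apply h0
    rw [e1, h7]
    ring
  -- two roots
  have two : ∀ r s : E, r ≠ s → cbv a b c r = τ → cbv a b c s = τ →
      (∀ x, cbv a b c x = τ → x = r ∨ x = s) → dsc a b c τ = 0 := by
    intro r s hrs hr hs hu
    have e1 := cbv_sub a b c r s
    rw [hr, hs, sub_self] at e1
    have e2 := (mul_eq_zero.1 e1.symm).resolve_left (sub_ne_zero.2 hrs.symm)
    have h3 : cbv a b c (-(a + r) - s) = τ := by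
      have e3 := cbv_sub a b c r (-(a + r) - s)
      have e4 : (-(a + r) - s) ^ 2 + (a + r) * (-(a + r) - s) + (b + r * (a + r)) = 0 := by
        linear_combination e2
      rw [e4, mul_zero, hr, sub_eq_zero] at e3
      exact e3
    rw [← hr, dsc_eq]
    rcases hu _ h3 with h4 | h4
    · have e5 : r ^ 2 + (a + r) * r + (b + r * (a + r)) = 0 := by
        linear_combination e2 - (r - s) * h4
      rw [e5]
      ring
    · have e5 : (a + r) ^ 2 - 4 * (b + r * (a + r)) = 0 := by
        linear_combination (-4) * e2 + (-(a + r) - 2 * s) * h4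
      rw [e5]
      ring
  have hcase : rt a b c τ = 0 ∨ rt a b c τ = 1 ∨ rt a b c τ = 2 ∨ rt a b c τ = 3 := by omega
  rcases hcase with h | h | h | h
  · rw [h, if_pos rfl]
    split_ifs <;> push_cast <;> linarith
  · obtain ⟨r, hr⟩ := Finset.card_eq_one.1 h
    have hmem : ∀ x, cbv a b c x = τ ↔ x = r := fun x => by
      have := Finset.ext_iff.1 hr x
      simpa using this
    rw [if_neg (show ¬ rt a b c τ = 0 by omega), h]
    rcases one r ((hmem r).2 rfl) (fun x hx => (hmem x).1 hx) with h0 | h0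
    · rw [if_pos h0, hχ0 h0]
      norm_num
    · rw [h0]
      split_ifs <;> norm_num
  · obtain ⟨r, s, hrs, hr⟩ := Finset.card_eq_two.1 h
    have hmem : ∀ x, cbv a b c x = τ ↔ x = r ∨ x = s := fun x => by
      have := Finset.ext_iff.1 hr x
      simpa using this
    have h0 := two r s hrs ((hmem r).2 (Or.inl rfl)) ((hmem s).2 (Or.inr rfl))
      (fun x hx => (hmem x).1 hx)
    rw [if_pos h0, if_neg (show ¬ rt a b c τ = 0 by omega), h, hχ0 h0]
    norm_num
  · rw [if_neg (show ¬ rt a b c τ = 0 by omega), h]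
    split_ifs <;> push_cast <;> linarith

end field

section count

variable {k : Type} [Field k]

/-- The discriminant of `g(x) - t` as a polynomial in `t`. -/
noncomputable def dscP (a b c : k) : k[X] :=
  C (a ^ 2 * b ^ 2 - 4 * b ^ 3 - 4 * a ^ 3 * c - 27 * c ^ 2 + 18 * a * b * c) +
    C (4 * a ^ 3 + 54 * c - 18 * a * b) * X + C (-27) * X ^ 2

theorem dscP_aeval {E : Type} [Field E] [Algebra k E] (a b c : k) (τ : E) :
    aeval τ (dscP a b c) = dsc (algebraMap k E a) (algebraMap k E b) (algebraMap k E c) τ := by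
  simp only [dscP, dsc, map_add, map_sub, map_mul, map_pow, aeval_C, aeval_X, map_neg, map_ofNat]
  ring

theorem dscP_deg (a b c : k) : (dscP a b c).natDegree ≤ 2 := by
  unfold dscP
  compute_degree

theorem quad_coeffs {A B D A' B' D' : k}
    (h : C D + C B * X + C A * X ^ 2 = C D' + C B' * X + C A' * X ^ 2) :
    D = D' ∧ B = B' ∧ A = A' := by
  have c2 := congrArg (fun p => coeff p 2) h
  have c1 := congrArg (fun p => coeff p 1) h
  have c0 := congrArg (fun p => coeff p 0) h
  simp [coeff_X, coeff_C] at c2 c1 c0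
  exact ⟨c0, c1, c2⟩

theorem dscP_ne (h2 : (2 : k) ≠ 0) (h3 : (3 : k) ≠ 0) {a b c : k} (hab : a ^ 2 ≠ 3 * b) (u : k)
    (h : k[X]) : dscP a b c ≠ C u * h ^ 2 := by
  intro e
  have h27 : (27 : k) ≠ 0 := by
    have : (27 : k) = 3 ^ 3 := by norm_num
    rw [this]
    exact pow_ne_zero _ h3
  have hd : (dscP a b c).natDegree = 2 := by
    unfold dscP
    compute_degree!
  have hu : u ≠ 0 := by
    rintro rfl
    rw [e, C_0, zero_mul, natDegree_zero] at hd
    exact absurd hd (by norm_num)
  have hh : h.natDegree = 1 := by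
    rw [e, natDegree_C_mul hu, natDegree_pow] at hd
    omega
  obtain ⟨v, w, rfl⟩ := exists_eq_X_add_C_of_natDegree_le_one hh.le
  have e3 : C u * (C v * X + C w) ^ 2 = C (u * w ^ 2) + C (2 * u * v * w) * X + C (u * v ^ 2) * X ^ 2 := by
    simp only [C_mul, C_pow, map_ofNat]
    ring
  rw [e3] at e
  obtain ⟨c0, c1, c2⟩ := quad_coeffs e
  have key : (16 : k) * (a ^ 2 - 3 * b) ^ 3 = 0 := by
    linear_combination (108 : k) * c0 + (4 * a ^ 3 + 54 * c - 18 * a * b + 2 * u * v * w) * c1 -
      4 * (u * w ^ 2) * c2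
  have h16 : (16 : k) ≠ 0 := by
    have : (16 : k) = 2 ^ 4 := by norm_num
    rw [this]
    exact pow_ne_zero _ h2
  exact hab (sub_eq_zero.1 (pow_eq_zero_iff (three_ne_zero) |>.1
    ((mul_eq_zero.1 key).resolve_left h16)))

theorem third_elts [Fintype k] (hk : ringChar k ≠ 2) (h3 : (3 : k) ≠ 0) {a b c : k}
    (hab : a ^ 2 ≠ 3 * b) (E : Type) [Field E] [Fintype E] [Algebra k E] :
    (Fintype.card E : ℝ) ≤ 3 * ((Finset.univ.filter fun τ : E => rt (algebraMap k E a)
      (algebraMap k E b) (algebraMap k E c) τ = 0).card : ℝ) + 10 * Real.sqrt (Fintype.card E) + 2 := by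
  have h2 : (2 : k) ≠ 0 := Ring.two_ne_zero hk
  have h2E : (2 : E) ≠ 0 := by
    intro h
    apply h2
    apply (algebraMap k E).injective
    rw [map_ofNat, h, map_zero]
  set a' := algebraMap k E a
  set b' := algebraMap k E b
  set c' := algebraMap k E c
  have h1 := Pool.Agent.R939.FF.sum_bound (E := E) hk (dscP_ne h2 h3 (c := c) hab)
  have h4 := Pool.Agent.R939.FF.card_zeros (E := E) (f := dscP a b c) (by
    intro h
    exact dscP_ne h2 h3 (c := c) hab 0 0 (by rw [h]; simp))
  have hsum := Finset.sum_le_sum fun (τ : E) (_ : τ ∈ Finset.univ) => rt_ineq h2E a' b' c' τ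
  rw [Finset.sum_sub_distrib, Finset.sum_add_distrib, Finset.sum_sub_distrib, ← Finset.mul_sum,
    Finset.sum_const, Finset.card_univ, Finset.sum_boole, Finset.sum_boole] at hsum
  have e1 : ∑ τ : E, (rt a' b' c' τ : ℤ) = Fintype.card E := by
    rw [← Nat.cast_sum, sum_rt]
  rw [e1] at hsum
  have e2 : (Finset.univ.filter fun τ : E => dsc a' b' c' τ = 0) =
      Finset.univ.filter fun x : E => aeval x (dscP a b c) = 0 := by
    ext τ
    rw [Finset.mem_filter, Finset.mem_filter, dscP_aeval]
  rw [e2] at hsum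
  have h5 : ((Finset.univ.filter fun x : E => aeval x (dscP a b c) = 0).card : ℝ) ≤ 2 := by
    exact_mod_cast h4.trans (dscP_deg a b c)
  have e3 : ∑ x : E, (quadraticChar E (aeval x (dscP a b c)) : ℝ) =
      ((∑ τ : E, quadraticChar E (dsc a' b' c' τ) : ℤ) : ℝ) := by
    push_cast
    refine Finset.sum_congr rfl fun τ _ => ?_
    rw [dscP_aeval]
  rw [e3] at h1
  have h6 : (5 * ((dscP a b c).natDegree : ℝ)) * Real.sqrt (Fintype.card E) ≤
      10 * Real.sqrt (Fintype.card E) := by
    refine mul_le_mul_of_nonneg_right ?_ (Real.sqrt_nonneg _)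
    have : ((dscP a b c).natDegree : ℝ) ≤ 2 := by exact_mod_cast dscP_deg a b c
    linarith
  have h7 := (abs_le.1 (h1.trans h6)).1
  have h8 : ((Fintype.card E • (2 : ℤ) - Fintype.card E + ∑ τ : E, quadraticChar E (dsc a' b' c' τ) -
      ((Finset.univ.filter fun x : E => aeval x (dscP a b c) = 0).card : ℤ) : ℤ) : ℝ) ≤
      ((3 * ((Finset.univ.filter fun τ : E => rt a' b' c' τ = 0).card : ℤ) : ℤ) : ℝ) := by
    exact_mod_cast hsum
  simp only [nsmul_eq_mul] at h8
  push_cast at h8 h7
  linarith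

theorem inert_of_rt [Fintype k] {a b c : k} {E : Type} [Field E] [Fintype E] [Algebra k E]
    [FiniteDimensional k E] {τ : E}
    (h : rt (algebraMap k E a) (algebraMap k E b) (algebraMap k E c) τ = 0) :
    IsInert (C a) (C b) (C c - X) (minpoly k τ) := by
  have hint : IsIntegral k τ := Algebra.IsIntegral.isIntegral τ
  refine ⟨minpoly.irreducible hint, ?_⟩
  haveI : Fact (Irreducible (minpoly k τ)) := ⟨minpoly.irreducible hint⟩
  obtain ⟨h1, h2⟩ := cubT_deg (C a) (C b) (C c - X)
  have hm : ((cubT (C a) (C b) (C c - X)).map (AdjoinRoot.mk (minpoly k τ))).Monic := h2.map _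
  have hd : ((cubT (C a) (C b) (C c - X)).map (AdjoinRoot.mk (minpoly k τ))).natDegree = 3 := by
    rw [h2.natDegree_map, h1]
  rw [hm.irreducible_iff_roots_eq_zero_of_degree_le_three (by rw [hd]; norm_num) (by rw [hd]),
    Multiset.eq_zero_iff_forall_notMem]
  intro y hy
  rw [mem_roots hm.ne_zero, IsRoot.def, cubT_map] at hy
  let φ : AdjoinRoot (minpoly k τ) →+* E := AdjoinRoot.lift (algebraMap k E) τ (minpoly.aeval k τ)
  have hφ : ∀ p : k[X], φ (AdjoinRoot.mk _ p) = aeval τ p := fun p => AdjoinRoot.lift_mk _ p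
  have h4 := congrArg φ hy
  simp only [cubT, eval_add, eval_sub, eval_mul, eval_pow, eval_X, eval_C, map_add, map_mul, map_pow, hφ,
    map_sub, aeval_C, aeval_X, map_zero] at h4
  have h5 : cbv (algebraMap k E a) (algebraMap k E b) (algebraMap k E c) (φ y) = τ := by
    unfold cbv
    linear_combination h4
  have h6 : φ y ∈ (Finset.univ.filter fun x : E => cbv (algebraMap k E a) (algebraMap k E b)
      (algebraMap k E c) x = τ) := Finset.mem_filter.2 ⟨Finset.mem_univ _, h5⟩
  rw [Finset.card_eq_zero.1 h] at h6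
  exact absurd h6 (Finset.notMem_empty _)

/-- Inert primes of degree `n`. -/
theorem third_primes [Fintype k] (hk : ringChar k ≠ 2) (h3 : (3 : k) ≠ 0) {a b c : k}
    (hab : a ^ 2 ≠ 3 * b) (n : ℕ) (hn : n ≠ 0) :
    ∃ T : Finset k[X], (∀ D ∈ T, D.Monic ∧ IsInert (C a) (C b) (C c - X) D ∧ D.natDegree = n) ∧
      (Fintype.card k : ℝ) ^ n ≤ 3 * (n * T.card) +
        (3 * Fintype.card k + 12) * (Real.sqrt (Fintype.card k)) ^ n := by
  obtain ⟨p, hp⟩ := CharP.exists k
  haveI : Fact (Nat.Prime p) := ⟨CharP.char_is_prime k p⟩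
  haveI : NeZero n := ⟨hn⟩
  let E := FiniteField.Extension k p n
  letI : Fintype E := Fintype.ofFinite E
  haveI : FiniteDimensional k E := Module.Finite.of_finite
  have hfr : Module.finrank k E = n := FiniteField.finrank_extension k p n
  have hcard : Fintype.card E = Fintype.card k ^ n := by
    rw [Module.card_eq_pow_finrank (K := k) (V := E), hfr]
  set S : Finset E := Finset.univ.filter fun τ : E => rt (algebraMap k E a)
      (algebraMap k E b) (algebraMap k E c) τ = 0 with hS
  set Bd : Finset E := Finset.univ.filter fun x : E =>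
    (minpoly k x).natDegree ≠ Module.finrank k E with hBd
  have h1 := third_elts (E := E) hk h3 (c := c) hab
  have h2 : Bd.card ≤ Fintype.card k ^ (Module.finrank k E / 2 + 1) :=
    Pool.Agent.R939.FF.card_small (F := k) (E := E)
  rw [← hS] at h1
  have hsq : Real.sqrt (Fintype.card E) = (Real.sqrt (Fintype.card k)) ^ n := by
    rw [hcard]
    push_cast
    rw [Real.sqrt_eq_iff_mul_self_eq (by positivity) (by positivity), ← mul_pow,
      Real.mul_self_sqrt (by positivity)]
  have hq1 : (1 : ℝ) ≤ Fintype.card k := by exact_mod_cast Fintype.card_pos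
  have hs1 : (1 : ℝ) ≤ Real.sqrt (Fintype.card k) := by
    rw [show (1 : ℝ) = Real.sqrt 1 by simp]
    exact Real.sqrt_le_sqrt hq1
  have h4 : (Bd.card : ℝ) ≤ Fintype.card k * (Real.sqrt (Fintype.card k)) ^ n := by
    have h4 : (Bd.card : ℝ) ≤ (Fintype.card k : ℝ) ^ (n / 2 + 1) := by
      rw [hfr] at h2
      exact_mod_cast h2
    refine h4.trans ?_
    rw [pow_succ, mul_comm]
    refine mul_le_mul_of_nonneg_left ?_ (by positivity)
    have h5 : (Fintype.card k : ℝ) ^ (n / 2) = (Real.sqrt (Fintype.card k)) ^ (2 * (n / 2)) := by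
      rw [pow_mul, Real.sq_sqrt (by positivity)]
    rw [h5]
    exact pow_le_pow_right₀ hs1 (Nat.mul_div_le n 2)
  set T : Finset k[X] := (S \ Bd).image fun x => minpoly k x with hT
  have hx : ∀ x ∈ S \ Bd, rt (algebraMap k E a) (algebraMap k E b) (algebraMap k E c) x = 0 ∧
      (minpoly k x).natDegree = n := by
    intro x hx
    rw [Finset.mem_sdiff, hS, hBd, Finset.mem_filter, Finset.mem_filter] at hx
    refine ⟨hx.1.2, ?_⟩
    by_contra hne
    exact hx.2 ⟨Finset.mem_univ _, by rw [hfr]; exact hne⟩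
  refine ⟨T, ?_, ?_⟩
  · intro D hD
    obtain ⟨x, hxS, rfl⟩ := Finset.mem_image.1 hD
    obtain ⟨e1, e3⟩ := hx x hxS
    exact ⟨minpoly.monic (Algebra.IsIntegral.isIntegral x), inert_of_rt e1, e3⟩
  · have h6 : (S \ Bd).card ≤ n * T.card := by
      refine Finset.card_le_mul_card_image (S \ Bd) n ?_
      intro D hD
      obtain ⟨x, hxS, rfl⟩ := Finset.mem_image.1 hD
      have hdeg := (hx x hxS).2
      have hne : minpoly k x ≠ 0 := minpoly.ne_zero (Algebra.IsIntegral.isIntegral x)
      have hsub : ((S \ Bd).filter fun y => minpoly k y = minpoly k x) ⊆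
          ((minpoly k x).aroots E).toFinset := by
        intro y hy
        rw [Finset.mem_filter] at hy
        rw [Multiset.mem_toFinset, mem_aroots]
        refine ⟨hne, ?_⟩
        rw [← hy.2]
        exact minpoly.aeval _ _
      refine (Finset.card_le_card hsub).trans ((Multiset.toFinset_card_le _).trans ?_)
      rw [aroots]
      refine (card_roots' _).trans ?_
      rw [natDegree_map, hdeg]
    have h7 : (S.card : ℝ) ≤ n * T.card + Bd.card := by
      have h8 : S.card ≤ (S \ Bd).card + Bd.card := by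
        have := Finset.le_card_sdiff Bd S
        omega
      have h9 : S.card ≤ n * T.card + Bd.card := by omega
      exact_mod_cast h9
    rw [hsq, hcard] at h1
    have hQ1 : (1 : ℝ) ≤ (Real.sqrt (Fintype.card k)) ^ n := one_le_pow₀ hs1
    push_cast at h1 ⊢
    nlinarith

/-- The asymptotic form. -/
theorem exists_third [Fintype k] (hk : ringChar k ≠ 2) (h3 : (3 : k) ≠ 0) {a b c : k}
    (hab : a ^ 2 ≠ 3 * b) {η : ℝ} (hη : 0 < η) :
    ∃ n0 : ℕ, ∀ n : ℕ, n0 ≤ n → ∃ T : Finset k[X],
      (∀ D ∈ T, D.Monic ∧ IsInert (C a) (C b) (C c - X) D ∧ D.natDegree = n) ∧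
      (1 / 3 - η) * (Fintype.card k : ℝ) ^ n ≤ n * T.card := by
  set A : ℝ := (3 * Fintype.card k + 12) / (3 * η) with hA
  obtain ⟨N, hN⟩ := exists_nat_ge A
  refine ⟨max 4 N, fun n hn => ?_⟩
  have hn4 : 4 ≤ n := (le_max_left _ _).trans hn
  have hnN : N ≤ n := (le_max_right _ _).trans hn
  obtain ⟨T, hT, hc⟩ := third_primes hk h3 (c := c) hab n (by omega)
  refine ⟨T, hT, ?_⟩
  set Q : ℝ := (Real.sqrt (Fintype.card k)) ^ n with hQ
  have hq2 : (2 : ℝ) ≤ Fintype.card k := by exact_mod_cast Fintype.one_lt_card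
  have hQQ : (Fintype.card k : ℝ) ^ n = Q * Q := by
    rw [hQ, ← mul_pow, Real.mul_self_sqrt (by positivity)]
  have hQ0 : 0 ≤ Q := by positivity
  have hQn : (n : ℝ) ≤ Q := by
    have h1 : (n : ℝ) * n ≤ Q * Q := by
      rw [← hQQ]
      have h2 : n ^ 2 ≤ 2 ^ n := Pool.Agent.R939.FF.sq_le_pow n hn4
      have h3 : (n : ℝ) ^ 2 ≤ 2 ^ n := by exact_mod_cast h2
      calc (n : ℝ) * n = n ^ 2 := by ring
        _ ≤ 2 ^ n := h3
        _ ≤ (Fintype.card k : ℝ) ^ n := pow_le_pow_left₀ (by norm_num) hq2 n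
    nlinarith
  have hAQ : 3 * (Fintype.card k : ℝ) + 12 ≤ 3 * η * Q := by
    have h1 : A ≤ Q := hN.trans ((by exact_mod_cast hnN : (N : ℝ) ≤ n).trans hQn)
    rw [hA, div_le_iff₀ (by positivity)] at h1
    linarith
  have h5 : (3 * (Fintype.card k : ℝ) + 12) * Q ≤ 3 * η * Q * Q :=
    mul_le_mul_of_nonneg_right hAQ hQ0
  rw [hQQ] at hc ⊢
  nlinarith

end count

end Pool.Agent.K6.H71.PG
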