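import Pool.Agent.K6.H71.PG.Cls
import Pool.Agent.TH115.TC.Compl

/-!
# The step for the quadratic extensions of the field of constants
-/

set_option autoImplicit false
set_option linter.all false

open Polynomial IsDedekindDomain WeierstrassCurve WeierstrassCurve.Affine
open scoped Classical

namespace Pool.Agent.K6.H71.PG

open Pool.Agent.TH115.GD

section abs

variable {G A : Type*} [Group G] [AddCommGroup A] {a : G → A →+ A} {N U U' : Subgroup G} {s : G}
  (ha : IsAct a) (hN : N.Normal)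

include ha hN

theorem sh_coc' (hs : ∀ x ∈ U', s⁻¹ * x * s ∈ U') {f : G → A} (hf : Coc a N U' f) :
    Coc a N U' (sh a s f) := by
  refine ⟨fun x hx hxN y hy hyN => ?_, fun x hx hxN => ?_, fun t ht => ?_⟩
  · have e : s⁻¹ * (x * y) * s = (s⁻¹ * x * s) * (s⁻¹ * y * s) := by group
    have e' : x * s = s * (s⁻¹ * x * s) := by group
    show a s (f _) = a s (f _) + a x (a s (f _))
    rw [e, hf.mul _ (hs x hx) (conj_N hN hxN) _ (hs y hy) (conj_N hN hyN), map_add,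
      ← ha.mul x s, e', ha.mul s]
  · show a s _ + a s _ = 0
    rw [← map_add, hf.two _ (hs x hx) (conj_N hN hxN), map_zero]
  · obtain ⟨Q, hQ, h⟩ := hf.inv _ (hs t ht)
    refine ⟨a s Q, by rw [← map_add, hQ, map_zero], fun x hx hxN => ?_⟩
    have h1 := congrArg (a s) (h _ (hs x hx) (conj_N hN hxN))
    rw [map_sub, map_sub, ← ha.mul, ← ha.mul] at h1
    have e1 : s * (s⁻¹ * t * s) = t * s := by group
    have e2 : (s⁻¹ * t * s)⁻¹ * (s⁻¹ * x * s) * (s⁻¹ * t * s) = s⁻¹ * (t⁻¹ * x * t) * s := by group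
    have e3 : s * (s⁻¹ * x * s) = x * s := by group
    rw [e1, e2, e3, ha.mul, ha.mul] at h1
    exact h1

/-- A cocycle whose class is fixed by `U'` and `s` is fixed by `U`. -/
theorem cext (hs : Step ⊤ U U' s) (hgeo : ∀ x ∈ U, x ∈ N → x ∈ U') {f : G → A}
    (hf : Coc a N U' f) {R : A} (hR : R + R = 0)
    (hr : ∀ x ∈ U', x ∈ N → a s (f (s⁻¹ * x * s)) - f x = a x R - R) : Coc a N U f := by
  refine ⟨fun x hx hxN y hy hyN => hf.mul x (hgeo x hx hxN) hxN y (hgeo y hy hyN) hyN,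
    fun x hx hxN => hf.two x (hgeo x hx hxN) hxN, fun t ht => ?_⟩
  rcases hs.dich t ht with h | h
  · obtain ⟨Q, hQ, h1⟩ := hf.inv t h
    exact ⟨Q, hQ, fun x hx hxN => h1 x (hgeo x hx hxN) hxN⟩
  · obtain ⟨Q, hQ, h1⟩ := hf.inv _ h
    refine ⟨R + a s Q, ?_, fun x hx hxN => ?_⟩
    · rw [add_add_add_comm, hR, ← map_add, hQ, map_zero, add_zero]
    · have hx' := hgeo x hx hxN
      have h2 := congrArg (a s) (h1 _ (hs.sconj hx') (conj_N hN hxN))
      rw [map_sub, map_sub, ← ha.mul, ← ha.mul] at h2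
      have e1 : s * (s⁻¹ * t) = t := by group
      have e2 : (s⁻¹ * t)⁻¹ * (s⁻¹ * x * s) * (s⁻¹ * t) = t⁻¹ * x * t := by group
      have e3 : s * (s⁻¹ * x * s) = x * s := by group
      rw [e1, e2, e3, ha.mul x s] at h2
      have h3 := hr x hx' hxN
      have h4 : a t (f (t⁻¹ * x * t)) - f x = (a t (f (t⁻¹ * x * t)) - a s (f (s⁻¹ * x * s))) +
          (a s (f (s⁻¹ * x * s)) - f x) := by abel
      rw [h4, h2, h3, map_add]
      abel

end abs

theorem norm_lift {A B C : Type} [Field A] [Field B] [Field C] [Algebra A B] [Normal A B]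
    (f g : B →+* C) (h : ∀ x : A, f (algebraMap A B x) = g (algebraMap A B x)) :
    ∃ σ : B ≃ₐ[A] B, ∀ x, f (σ x) = g x := by
  letI : Algebra B C := f.toAlgebra
  letI : Algebra A C := (f.comp (algebraMap A B)).toAlgebra
  haveI : IsScalarTower A B C := IsScalarTower.of_algebraMap_eq fun x => rfl
  let φ : B →ₐ[A] C := { g with commutes' := fun x => (h x).symm }
  exact ⟨φ.restrictNormal' B, fun x => φ.restrictNormal_commutes B x⟩

section cls

variable {k' K F : Type} [Field k'] [Field K] [Field F] [Algebra K F] [Algebra k'[X] F]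
  [IsFractionRing k'[X] F] {W : WeierstrassCurve K}

/-- The set of places is stable under the automorphisms over `K`. -/
def Stable (K F : Type) {k' : Type} [Field k'] [Field K] [Field F] [Algebra K F] [Algebra k'[X] F]
    [IsFractionRing k'[X] F] (V : Set (HeightOneSpectrum k'[X])) : Prop :=
  ∀ (s : Sep F ≃ₐ[K] Sep F), ∀ w ∈ V, ∃ v ∈ V, ∃ sF : F →+* F,
    (∀ x, s (algebraMap F (Sep F) x) = algebraMap F (Sep F) (sF x)) ∧
    (∀ x, v.valuation F x ≤ 1 → w.valuation F (sF x) ≤ 1) ∧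
    (∀ x, v.valuation F x < 1 → w.valuation F (sF x) < 1)

theorem conj_loc {v w : HeightOneSpectrum k'[X]} (s : Sep F ≃ₐ[K] Sep F) (sF : F →+* F)
    (hs : ∀ x, s (algebraMap F (Sep F) x) = algebraMap F (Sep F) (sF x))
    (h1 : ∀ x, v.valuation F x ≤ 1 → w.valuation F (sF x) ≤ 1)
    (h2 : ∀ x, v.valuation F x < 1 → w.valuation F (sF x) < 1)
    (ι' : Sep F →ₐ[F] Sep (Comp k'[X] F w)) :
    ∃ (ι : Sep F →ₐ[F] Sep (Comp k'[X] F v))
      (J : Sep (Comp k'[X] F v) →ₐ[K] Sep (Comp k'[X] F w)),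
      (∀ x, J (ι x) = ι' (s x)) ∧
      ∀ τ' : Sep (Comp k'[X] F w) ≃ₐ[Comp k'[X] F w] Sep (Comp k'[X] F w),
        ∃ τ : Sep (Comp k'[X] F v) ≃ₐ[Comp k'[X] F v] Sep (Comp k'[X] F v),
          ∀ y, J (τ y) = τ' (J y) := by
  obtain ⟨j, hj, -, -⟩ := exists_compl_map v w sF h1 h2
  let E := Comp k'[X] F v
  let E' := Comp k'[X] F w
  letI aE : Algebra E (Sep E') := ((algebraMap E' (Sep E')).comp j).toAlgebra
  let J : Sep E →ₐ[E] Sep E' := IsSepClosed.lift
  have hJ : ∀ y : E, J (algebraMap E (Sep E) y) = algebraMap E' (Sep E') (j y) := fun y =>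
    J.commutes y
  let ι₀ : Sep F →ₐ[F] Sep E := IsSepClosed.lift
  have hJF : ∀ x : F, J (ι₀ (algebraMap F (Sep F) x)) =
      algebraMap E' (Sep E') (algebraMap F E' (sF x)) := by
    intro x
    rw [ι₀.commutes, IsScalarTower.algebraMap_apply F E (Sep E), hJ]
    exact congrArg _ (hj x)
  haveI : Normal F (Sep F) := inferInstance
  haveI : Normal E (Sep E) := inferInstance
  obtain ⟨σ₀, hσ₀⟩ := norm_lift (A := F) (B := Sep F) (C := Sep E')
    ((J : Sep E →+* Sep E').comp (ι₀ : Sep F →+* Sep E))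
    ((ι' : Sep F →+* Sep E').comp (s : Sep F →+* Sep F)) (fun x => by
      show J (ι₀ (algebraMap F (Sep F) x)) = ι' (s (algebraMap F (Sep F) x))
      rw [hJF, hs, ι'.commutes]
      rfl)
  have hJK : ∀ x : K, J (algebraMap K (Sep E) x) = algebraMap K (Sep E') x := by
    intro x
    have e1 : algebraMap K (Sep E) x = ι₀ (algebraMap F (Sep F) (algebraMap K F x)) := by
      rw [ι₀.commutes, ← IsScalarTower.algebraMap_apply K F (Sep E)]
    have e2 : sF (algebraMap K F x) = algebraMap K F x := by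
      apply (algebraMap F (Sep F)).injective
      rw [← hs, ← IsScalarTower.algebraMap_apply K F (Sep F), s.commutes]
    rw [e1, hJF, e2]
    rfl
  refine ⟨ι₀.comp (σ₀ : Sep F →ₐ[F] Sep F), { (J : Sep E →+* Sep E') with commutes' := hJK },
    fun x => hσ₀ x, fun τ' => ?_⟩
  obtain ⟨τ, hτ⟩ := norm_lift (A := E) (B := Sep E) (C := Sep E')
    (J : Sep E →+* Sep E') ((τ' : Sep E' →+* Sep E').comp (J : Sep E →+* Sep E')) (fun x => by
      show J (algebraMap E (Sep E) x) = τ' (J (algebraMap E (Sep E) x))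
      rw [hJ]
      exact (τ'.commutes (j x)).symm)
  exact ⟨τ, hτ⟩

/-- Neighbourhoods of one and the conjugation by `s`. -/
theorem conj_open (hN : Preserves K F (Sep F)) (s : Sep F ≃ₐ[K] Sep F)
    {O : Set (Sep F ≃ₐ[F] Sep F)} (hO : IsOpen O) (h1 : 1 ∈ O) :
    ∃ O' : Set (Sep F ≃ₐ[F] Sep F), IsOpen O' ∧ 1 ∈ O' ∧ ∀ τ ∈ O', ∀ σ : Sep F ≃ₐ[F] Sep F,
      rK K F σ = s⁻¹ * rK K F τ * s → σ ∈ O := by
  obtain ⟨E, hE, hEO⟩ := (krullTopology_mem_nhds_one_iff F (Sep F) O).1 (hO.mem_nhds h1)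
  let b := Module.finBasis F E
  refine ⟨⋂ i, {σ | σ (s (b i : Sep F)) = s (b i)}, ?_, ?_, ?_⟩
  · exact isOpen_iInter_of_finite fun i =>
      (Pool.Agent.W309.TD.locConst_apply (K := F) (Ω := Sep F) (s (b i : Sep F))).isOpen_fiber _
  · rw [Set.mem_iInter]
    exact fun i => rfl
  · intro τ hτ σ hσ
    rw [Set.mem_iInter] at hτ
    apply hEO
    rw [SetLike.mem_coe, IntermediateField.mem_fixingSubgroup_iff]
    intro x hx
    have e : x = ((∑ i, b.repr ⟨x, hx⟩ i • b i : E) : Sep F) := by rw [b.sum_repr]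
    have e2 : ((∑ i, b.repr ⟨x, hx⟩ i • b i : E) : Sep F) =
        ∑ i, algebraMap F (Sep F) (b.repr ⟨x, hx⟩ i) * (b i : Sep F) := by
      rw [AddSubmonoidClass.coe_finsetSum]
      refine Finset.sum_congr rfl fun i _ => ?_
      rw [IntermediateField.coe_smul, Algebra.smul_def]
    rw [e, e2, map_sum]
    refine Finset.sum_congr rfl fun i _ => ?_
    have h3 : τ (s (b i : Sep F)) = s (b i) := hτ i
    have h4 : σ (b i : Sep F) = b i := by
      have h5 : (rK K F σ) (b i : Sep F) = (s⁻¹ * rK K F τ * s) (b i : Sep F) := by rw [hσ]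
      have h6 : (s⁻¹ * rK K F τ * s) (b i : Sep F) = s⁻¹ (τ (s (b i : Sep F))) := rfl
      rw [rK_apply, h6, h3] at h5
      rw [h5]
      exact AlgEquiv.symm_apply_apply s _
    rw [map_mul, h4, σ.commutes]

variable {V : Set (HeightOneSpectrum k'[X])} {U U' : Subgroup (Sep F ≃ₐ[K] Sep F)}
  {s : Sep F ≃ₐ[K] Sep F}

theorem cls_sh' (hN : Preserves K F (Sep F)) (hV : Stable K F V)
    (hs : ∀ x ∈ U', s⁻¹ * x * s ∈ U')
    {f : (Sep F ≃ₐ[K] Sep F) → Pt W (Sep F)} (hf : Cls W V U' f) :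
    Cls W V U' (sh (ac W) s f) := by
  have hnn := nk_normal hN
  have conj : ∀ τ : Sep F ≃ₐ[F] Sep F, ∃ σ : Sep F ≃ₐ[F] Sep F,
      rK K F σ = s⁻¹ * rK K F τ * s := fun τ => conj_N hnn (rK_mem τ)
  refine ⟨sh_coc' (ac_isAct W) hnn hs hf.coc, ?_, fun w hw ι' => ?_⟩
  · obtain ⟨O, h1, h2, h3⟩ := hf.cont
    obtain ⟨O', h4, h5, h6⟩ := conj_open hN s h1 h2
    refine ⟨O', h4, h5, fun τ hτ hU => ?_⟩
    obtain ⟨σ, hσ⟩ := conj τ
    show ac W _ (f _) = 0
    rw [← hσ, h3 σ (h6 τ hτ σ hσ) (by rw [hσ]; exact hs _ hU), map_zero]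
  · obtain ⟨v, hv, sF, e1, e2, e3⟩ := hV s w hw
    obtain ⟨ι, J, hJ, hJ'⟩ := conj_loc s sF e1 e2 e3 ι'
    obtain ⟨P, hP⟩ := hf.loc v hv ι
    refine ⟨act W J P, fun τ' σ' hσ' h => ?_⟩
    obtain ⟨τ, hτ⟩ := hJ' τ'
    obtain ⟨σ, hσ⟩ := conj σ'
    have hx : ∀ x, s (σ x) = σ' (s x) := by
      intro x
      have h5 : (rK K F σ) x = (s⁻¹ * rK K F σ' * s) x := by rw [hσ]
      have h6 : (s⁻¹ * rK K F σ' * s) x = s⁻¹ (σ' (s x)) := rfl
      rw [rK_apply, h6] at h5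
      rw [h5]
      exact AlgEquiv.apply_symm_apply s _
    have h4 := hP τ σ (by rw [hσ]; exact hs _ hσ') (fun x => by
      apply (J : Sep (Comp k'[X] F v) →+* Sep (Comp k'[X] F w)).injective
      show J (τ (ι x)) = J (ι (σ x))
      rw [hτ, hJ, hJ, h, hx])
    show act W _ (ac W s (f _)) = _
    rw [← hσ]
    have e4 : (ι'.restrictScalars K).comp (ak s) = J.comp (ι.restrictScalars K) :=
      AlgHom.ext fun x => (hJ x).symm
    have e5 : J.comp (rs K τ) = (rs K τ').comp J := AlgHom.ext fun y => hτ y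
    unfold ac
    rw [act_act, e4, ← act_act, h4, map_sub, act_act, act_act, e5]

/-- **The step for constants.** -/
theorem cstep_triv (hN : Preserves K F (Sep F)) (hV : Stable K F V) (hs : Step ⊤ U U' s)
    (hgeo : ∀ x ∈ U, x ∈ NK K F → x ∈ U') (h : Triv W V U) : Triv W V U' := by
  have ha := ac_isAct (F := F) W
  have hn := nk_normal hN
  have hc : ∀ x ∈ U', s⁻¹ * x * s ∈ U' := fun x hx => hs.sconj hx
  have star : ∀ g, Cls W V U' g → ∀ Q, Q + Q = 0 → (∀ x ∈ U', x ∈ NK K F →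
      ac W s (g (s⁻¹ * x * s)) - g x = ac W x Q - Q) →
      ∃ Q, Q + Q = 0 ∧ ∀ x ∈ U', x ∈ NK K F → g x = ac W x Q - Q := by
    intro g hg Q hQ hi
    have h1 : Cls W V U g := by
      refine ⟨cext ha hn hs hgeo hg.coc hQ hi, ?_, fun v hv ι => ?_⟩
      · obtain ⟨O, h1, h2, h3⟩ := hg.cont
        exact ⟨O, h1, h2, fun τ hτ hU => h3 τ hτ (hgeo _ hU (rK_mem τ))⟩
      · obtain ⟨P, hP⟩ := hg.loc v hv ι
        exact ⟨P, fun τ σ hσ => hP τ σ (hgeo _ hσ (rK_mem σ))⟩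
    obtain ⟨R, hR, hr⟩ := h _ h1
    exact ⟨R, hR, fun x hx hxN => hr x (hs.le hx) hxN⟩
  intro f hf
  have hsf := cls_sh' hN hV hc hf
  obtain ⟨S, hS, hS'⟩ := hf.coc.inv _ hs.sq
  obtain ⟨R, hR, hr⟩ := star _ (hf.add hsf) S hS (fun x hx hxN => by
      have h1 := hS' x hx hxN
      have e1 : s⁻¹ * (s⁻¹ * x * s) * s = (s * s)⁻¹ * x * (s * s) := by group
      rw [← h1]
      show ac W _ (f _ + ac W _ (f _)) - (f x + ac W _ (f _)) = _
      rw [map_add, ← ha.mul, e1]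
      abel)
  refine star f hf R hR fun x hx hxN => ?_
  have h1 : f x + ac W s (f (s⁻¹ * x * s)) = ac W x R - R := hr x hx hxN
  have h3 := hf.coc.two x hx hxN
  have h4 : ac W s (f (s⁻¹ * x * s)) - f x =
      (f x + ac W s (f (s⁻¹ * x * s))) - (f x + f x) := by abel
  rw [h4, h1, h3, sub_zero]

end cls

end Pool.Agent.K6.H71.PG
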