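import Pool.Agent.K6.H71.PG.Fld

/-!
# From classes of order two to the Tate module
-/

set_option autoImplicit false

open Polynomial IsDedekindDomain WeierstrassCurve WeierstrassCurve.Affine
open scoped Classical

namespace Pool.Agent.K6.H71.PG

open Pool.Agent.TH115.GD Pool.Agent.K6.H71.MQ

section div

variable {k' K F : Type} [Field k'] [Field K] [Field F] [Algebra K F] [Algebra k'[X] F]
  [IsFractionRing k'[X] F] {W : WeierstrassCurve K} {V : Set (HeightOneSpectrum k'[X])}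
  {L : IntermediateField K (Sep F)}

omit [Field k'] [Algebra k'[X] F] [IsFractionRing k'[X] F] in
theorem over_iff (σ : Sep F ≃ₐ[F] Sep F) : rK K F σ ∈ L.fixingSubgroup ↔ Over L σ := by
  rw [IntermediateField.mem_fixingSubgroup_iff]
  rfl

omit [Field k'] [Algebra k'[X] F] [IsFractionRing k'[X] F] in
/-- There are no points of order a power of two over `F L`. -/
theorem no_pow' (h : NT (ac W) (NK K F) L.fixingSubgroup) (m : ℕ) : ∀ Q : Pt W (Sep F),
    2 ^ m • Q = 0 → (∀ σ : Sep F ≃ₐ[F] Sep F, Over L σ → act W (rs K σ) Q = Q) → Q = 0 := by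
  induction m with
  | zero =>
    intro Q h1 _
    rwa [pow_zero, one_smul] at h1
  | succ m ih =>
    intro Q h1 hf
    have h3 : 2 ^ m • (Q + Q) = 0 := by rw [← two_nsmul, smul_smul, ← pow_succ, h1]
    have h4 := ih (Q + Q) h3 (fun σ hσ => by rw [map_add, hf σ hσ])
    refine h Q h4 ?_
    rintro _ hx ⟨σ, rfl⟩
    exact hf σ ((over_iff σ).1 hx)

omit [Field k'] [Algebra k'[X] F] [IsFractionRing k'[X] F] in
/-- Conjugation. -/
theorem conj_rel (τ : Sep F ≃ₐ[K] Sep F) {σ σ' : Sep F ≃ₐ[F] Sep F}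
    (h : ∀ x, τ (σ' x) = σ (τ x)) : τ⁻¹ * rK K F σ * τ = rK K F σ' := by
  apply AlgEquiv.ext
  intro x
  show τ⁻¹ (σ (τ x)) = σ' x
  rw [← h]
  exact AlgEquiv.symm_apply_apply τ _

/-- A function on `Gal(Sep F / F)` as a function on the image in `Gal(Sep F / K)`. -/
noncomputable def lf {A : Type} [Zero A] (f : (Sep F ≃ₐ[F] Sep F) → A) (x : Sep F ≃ₐ[K] Sep F) : A :=
  if h : x ∈ NK K F then f h.choose else 0

omit [Field k'] [Algebra k'[X] F] [IsFractionRing k'[X] F] in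
theorem lf_apply {A : Type} [Zero A] (f : (Sep F ≃ₐ[F] Sep F) → A) (σ : Sep F ≃ₐ[F] Sep F) :
    lf (K := K) f (rK K F σ) = f σ := by
  have h : rK K F σ ∈ NK K F := rK_mem σ
  unfold lf
  rw [dif_pos h, rK_inj K F h.choose_spec]

/-- A class of order two. -/
theorem cls_of {f : (Sep F ≃ₐ[F] Sep F) → Pt W (Sep F)} (hf : IsCocL W L f)
    (h2 : ∀ σ, Over L σ → f σ + f σ = 0)
    (hl : ∀ v ∈ V, LocTrivL W L (Comp k'[X] F v) (Sep (Comp k'[X] F v)) f)
    (hN : Preserves K F (Sep F))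
    (hi : ∀ τ : Sep F ≃ₐ[K] Sep F, (∀ x ∈ L, τ x = x) → ∃ Q : Pt W (Sep F), Q + Q = 0 ∧
      ∀ (σ σ' : Sep F ≃ₐ[F] Sep F), Over L σ → Over L σ' → (∀ x, τ (σ' x) = σ (τ x)) →
        act W (ak τ) (f σ') - f σ = act W (rs K σ) Q - Q) :
    Cls W V L.fixingSubgroup (lf f) := by
  have h1 : Over L (1 : Sep F ≃ₐ[F] Sep F) := fun _ _ => rfl
  have hf1 : f 1 = 0 := by
    have h := hf.mul 1 1 h1 h1
    have e : act W (rs K (1 : Sep F ≃ₐ[F] Sep F)) (f 1) = f 1 := MQ.act_self W _ (fun _ => rfl) _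
    rw [mul_one, e] at h
    exact left_eq_add.1 h
  refine ⟨⟨?_, ?_, ?_⟩, ?_, ?_⟩
  · rintro _ hx ⟨σ, rfl⟩ _ hy ⟨τ, rfl⟩
    rw [← map_mul, lf_apply, lf_apply, lf_apply]
    exact hf.mul σ τ ((over_iff σ).1 hx) ((over_iff τ).1 hy)
  · rintro _ hx ⟨σ, rfl⟩
    rw [lf_apply]
    exact h2 σ ((over_iff σ).1 hx)
  · intro τ hτ
    have hτ' : ∀ x ∈ L, τ x = x := by
      rw [IntermediateField.mem_fixingSubgroup_iff] at hτ
      exact hτ
    obtain ⟨Q, hQ, h⟩ := hi τ hτ'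
    refine ⟨Q, hQ, ?_⟩
    rintro _ hx ⟨σ, rfl⟩
    obtain ⟨σ', hσ'⟩ := exists_conj hN τ σ
    have e := conj_rel τ hσ'
    have hc : rK K F σ' ∈ L.fixingSubgroup := by
      rw [← e]
      exact L.fixingSubgroup.mul_mem (L.fixingSubgroup.mul_mem (L.fixingSubgroup.inv_mem hτ) hx) hτ
    rw [e, lf_apply, lf_apply]
    exact h σ σ' ((over_iff σ).1 hx) ((over_iff σ').1 hc) hσ'
  · obtain ⟨O, hO, hO1, h⟩ := hf.lc 1 h1
    refine ⟨O, hO, hO1, fun τ hτ hτ' => ?_⟩
    rw [lf_apply, h τ hτ ((over_iff τ).1 hτ'), hf1]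
  · intro v hv ι
    obtain ⟨P, hP⟩ := hl v hv ι
    refine ⟨P, fun τ σ hσ h => ?_⟩
    rw [lf_apply]
    exact hP τ σ ((over_iff σ).1 hσ) h

/-- The conditions on a cocycle with values in the Tate module. -/
structure TCls (V : Set (HeightOneSpectrum k'[X])) (W : WeierstrassCurve K)
    (L : IntermediateField K (Sep F))
    (c : ℕ → (Sep F ≃ₐ[F] Sep F) → Pt W (Sep F)) : Prop where
  tc : IsTCL W L c
  loc : ∀ n, ∀ v ∈ V, LocTrivL W L (Comp k'[X] F v) (Sep (Comp k'[X] F v)) (c n)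
  inv : IsInvL W L c

theorem tm_pow {Q : ℕ → Pt W (Sep F)} (hQ : IsTM W Q) (n : ℕ) : 2 ^ n • Q n = 0 := by
  induction n with
  | zero => rw [hQ.zero, smul_zero]
  | succ n ih => rw [pow_succ, mul_smul, hQ.two, ih]

theorem first {c : ℕ → (Sep F ≃ₐ[F] Sep F) → Pt W (Sep F)} (hc : TCls V W L c)
    (hN : Preserves K F (Sep F))
    (hnt : NT (ac W) (NK K F) L.fixingSubgroup) (ht : Triv W V L.fixingSubgroup) :
    ∃ Q : Pt W (Sep F), Q + Q = 0 ∧ ∀ σ, Over L σ → c 1 σ = act W (rs K σ) Q - Q := by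
  have h2 : ∀ σ, Over L σ → c 1 σ + c 1 σ = 0 := fun σ hσ => by
    rw [← two_nsmul, hc.tc.two 0 σ hσ, hc.tc.zero σ hσ]
  obtain ⟨Q, hQ, h⟩ := ht _ (cls_of (hc.tc.coc 1) h2 (hc.loc 1) hN (fun τ hτ => by
    obtain ⟨m, Q, hQ, hm⟩ := hc.inv τ hτ
    have hpow : ∀ (k : ℕ) (σ), Over L σ → 2 ^ k • c (k + 1) σ = c 1 σ := by
      intro k
      induction k with
      | zero => intro σ _; rw [pow_zero, one_smul]
      | succ k ih =>
        intro σ hσ
        rw [pow_succ, mul_smul, hc.tc.two _ σ hσ, ih σ hσ]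
    have hrel : ∀ (σ σ' : Sep F ≃ₐ[F] Sep F), Over L σ → Over L σ' → (∀ x, τ (σ' x) = σ (τ x)) →
        act W (ak τ) (c 1 σ') - c 1 σ = act W (rs K σ) (Q (m + 1)) - Q (m + 1) := by
      intro σ σ' hσ hσ' h
      rw [← hm (m + 1) σ σ' hσ hσ' h, smul_sub, ← map_nsmul, hpow m σ' hσ', hpow m σ hσ]
    refine ⟨Q (m + 1), ?_, hrel⟩
    refine no_pow' hnt (m + 1) _ ?_ fun σ hσ => ?_
    · rw [← two_nsmul, smul_comm, tm_pow hQ, smul_zero]
    · obtain ⟨σ', hσ'⟩ := exists_conj hN τ σ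
      have hov : Over L σ' := fun x hx => by
        apply τ.injective
        rw [hσ', hτ x hx, hσ x hx]
      have h1 := hrel σ σ' hσ hov hσ'
      have h3 : act W (ak τ) (c 1 σ') + act W (ak τ) (c 1 σ') = 0 := by
        rw [← map_add, h2 σ' hov, map_zero]
      have h4 : (act W (rs K σ) (Q (m + 1)) - Q (m + 1)) +
          (act W (rs K σ) (Q (m + 1)) - Q (m + 1)) = 0 := by
        rw [← h1, sub_add_sub_comm, h3, h2 σ hσ, sub_zero]
      rw [sub_add_sub_comm, ← map_add] at h4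
      exact sub_eq_zero.1 h4))
  refine ⟨Q, hQ, fun σ hσ => ?_⟩
  have h1 := h _ ((over_iff σ).2 hσ) (rK_mem σ)
  rw [lf_apply] at h1
  exact h1

/-- Division of a class by two. -/
theorem div_cls {c : ℕ → (Sep F ≃ₐ[F] Sep F) → Pt W (Sep F)} (hc : TCls V W L c)
    (hN : Preserves K F (Sep F)) (hnt : NT (ac W) (NK K F) L.fixingSubgroup)
    {H : ℕ → Pt W (Sep F)} (H0 : H 0 = 0) (HS : ∀ j, 2 • H (j + 1) = H j)
    (key : ∀ σ, Over L σ → c 1 σ = act W (rs K σ) (H 1) - H 1) :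
    TCls V W L (fun j σ => c (j + 1) σ - (act W (rs K σ) (H (j + 1)) - H (j + 1))) := by
  refine ⟨⟨fun n => ⟨fun σ hσ => ?_, fun σ τ hσ hτ => ?_⟩, fun σ hσ => ?_, fun n σ hσ => ?_⟩,
    fun n v hv ι => ?_, fun τ hτ => ?_⟩
  · obtain ⟨O, hO, hO1, h⟩ := (hc.tc.coc (n + 1)).lc σ hσ
    have h1 : IsLocallyConstant (fun σ : Sep F ≃ₐ[F] Sep F =>
      act W (rs K σ) (H (n + 1)) - H (n + 1)) := (cob_isCoc W (H (n + 1))).lc
    refine ⟨O ∩ _, hO.inter (h1.isOpen_fiber (act W (rs K σ) (H (n + 1)) - H (n + 1))), ⟨hO1, rfl⟩,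
      fun τ hτ hτ' => ?_⟩
    have h3 : act W (rs K τ) (H (n + 1)) - H (n + 1) = act W (rs K σ) (H (n + 1)) - H (n + 1) :=
      hτ.2
    show c (n + 1) τ - _ = _
    rw [h τ hτ.1 hτ', h3]
  · have h1 := (cob_isCoc W (F := F) (H (n + 1))).mul σ τ
    show c (n + 1) (σ * τ) - (act W (rs K (σ * τ)) (H (n + 1)) - H (n + 1)) = _
    rw [h1, (hc.tc.coc (n + 1)).mul σ τ hσ hτ]
    simp only [map_sub]
    abel
  · show c 1 σ - (act W (rs K σ) (H 1) - H 1) = 0
    rw [key σ hσ, sub_self]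
  · show 2 • (c (n + 2) σ - (act W (rs K σ) (H (n + 2)) - H (n + 2))) = _
    rw [smul_sub, smul_sub, ← map_nsmul, HS, hc.tc.two (n + 1) σ hσ]
  · obtain ⟨P, hP⟩ := hc.loc (n + 1) v hv ι
    refine ⟨P - act W (ι.restrictScalars K) (H (n + 1)), fun τ σ hσ h => ?_⟩
    show act W _ (c (n + 1) σ - (act W (rs K σ) (H (n + 1)) - H (n + 1))) = _
    have e : act W (ι.restrictScalars K) (act W (rs K σ) (H (n + 1))) =
        act W (rs K τ) (act W (ι.restrictScalars K) (H (n + 1))) := by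
      have e0 : (ι.restrictScalars K).comp (rs K σ) = (rs K τ).comp (ι.restrictScalars K) :=
        AlgHom.ext fun x => (h x).symm
      rw [act_act, act_act, e0]
    rw [map_sub, map_sub, hP τ σ hσ h, e, map_sub]
    abel
  · obtain ⟨m, Q, hQ, hm⟩ := hc.inv τ hτ
    set Q' : ℕ → Pt W (Sep F) := fun j =>
      Q (j + 1) - 2 ^ m • (act W (ak τ) (H (j + 1)) - H (j + 1)) with hQ'
    have e1 : ∀ (n : ℕ) (σ σ' : Sep F ≃ₐ[F] Sep F), Over L σ → Over L σ' →
        (∀ x, τ (σ' x) = σ (τ x)) →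
        2 ^ m • (act W (ak τ) (c (n + 1) σ' - (act W (rs K σ') (H (n + 1)) - H (n + 1))) -
          (c (n + 1) σ - (act W (rs K σ) (H (n + 1)) - H (n + 1)))) =
        act W (rs K σ) (Q' n) - Q' n := by
      intro n σ σ' hσ hσ' h
      have h1 := hm (n + 1) σ σ' hσ hσ' h
      have e : act W (ak τ) (act W (rs K σ') (H (n + 1))) =
          act W (rs K σ) (act W (ak τ) (H (n + 1))) := by
        have e0 : (ak τ).comp (rs K σ') = (rs K σ).comp (ak τ) := AlgHom.ext fun x => h x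
        rw [act_act, act_act, e0]
      have h3 : act W (ak τ) (c (n + 1) σ' - (act W (rs K σ') (H (n + 1)) - H (n + 1))) -
          (c (n + 1) σ - (act W (rs K σ) (H (n + 1)) - H (n + 1))) =
          (act W (ak τ) (c (n + 1) σ') - c (n + 1) σ) -
          (act W (rs K σ) (act W (ak τ) (H (n + 1)) - H (n + 1)) -
            (act W (ak τ) (H (n + 1)) - H (n + 1))) := by
        rw [map_sub, map_sub, e, map_sub]
        abel
      have h4 : ∀ D : Pt W (Sep F), (act W (rs K σ) (Q (n + 1)) - Q (n + 1)) -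
          2 ^ m • (act W (rs K σ) D - D) =
          act W (rs K σ) (Q (n + 1) - 2 ^ m • D) - (Q (n + 1) - 2 ^ m • D) := by
        intro D
        rw [map_sub, map_nsmul, smul_sub]
        abel
      rw [h3, smul_sub, h1]
      exact h4 _
    refine ⟨m, Q', ⟨?_, fun n => ?_⟩, e1⟩
    · -- `Q' 0 = 0`
      have hd : 2 ^ 1 • Q' 0 = 0 := by
        simp only [hQ']
        have h3 : 2 ^ 1 • Q (0 + 1) = 0 := by
          rw [pow_one, hQ.two, hQ.zero]
        have h4 : (2 : ℕ) ^ 1 • (2 ^ m • (act W (ak τ) (H (0 + 1)) - H (0 + 1))) = 0 := by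
          rw [smul_comm, pow_one, smul_sub, ← map_nsmul, HS, H0, map_zero, sub_zero, smul_zero]
        rw [smul_sub, h3, h4, sub_zero]
      refine no_pow' hnt 1 _ hd fun σ hσ => ?_
      obtain ⟨σ', hσ'⟩ := exists_conj hN τ σ
      have hov : Over L σ' := fun x hx => by
        apply τ.injective
        rw [hσ', hτ x hx, hσ x hx]
      have h3 := e1 0 σ σ' hσ hov hσ'
      have h4 : c (0 + 1) σ' - (act W (rs K σ') (H (0 + 1)) - H (0 + 1)) = 0 :=
        sub_eq_zero.2 (key σ' hov)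
      have h5 : c (0 + 1) σ - (act W (rs K σ) (H (0 + 1)) - H (0 + 1)) = 0 :=
        sub_eq_zero.2 (key σ hσ)
      rw [h4, h5, map_zero, sub_zero, smul_zero] at h3
      exact sub_eq_zero.1 h3.symm
    · simp only [hQ']
      rw [smul_sub, hQ.two, smul_comm, smul_sub, ← map_nsmul, HS]

/-- All the layers are trivial. -/
theorem layers (hdiv : ∀ X : Pt W (Sep F), ∃ Y, Y + Y = X)
    (hN : Preserves K F (Sep F))
    (hnt : NT (ac W) (NK K F) L.fixingSubgroup) (ht : Triv W V L.fixingSubgroup) (n : ℕ) :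
    ∀ c : ℕ → (Sep F ≃ₐ[F] Sep F) → Pt W (Sep F), TCls V W L c →
      ∃ R : Pt W (Sep F), 2 ^ n • R = 0 ∧ ∀ σ, Over L σ → c n σ = act W (rs K σ) R - R := by
  induction n with
  | zero =>
    intro c hc
    exact ⟨0, smul_zero _, fun σ hσ => by rw [hc.tc.zero σ hσ, map_zero, sub_zero]⟩
  | succ n ih =>
    intro c hc
    obtain ⟨Q, hQ, h⟩ := first hc hN hnt ht
    choose hf hhf using hdiv
    let H : ℕ → Pt W (Sep F) := fun j => Nat.casesOn j 0 (fun i => (hf^[i]) Q)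
    have H0 : H 0 = 0 := rfl
    have H1 : H 1 = Q := rfl
    have HS : ∀ j, 2 • H (j + 1) = H j := by
      intro j
      rcases j with _ | j
      · show 2 • Q = 0
        rw [two_nsmul, hQ]
      · show 2 • (hf^[j + 1]) Q = (hf^[j]) Q
        rw [Function.iterate_succ_apply', two_nsmul, hhf]
    obtain ⟨R, hR, hr⟩ := ih _ (div_cls hc hN hnt H0 HS (fun σ hσ => by rw [H1]; exact h σ hσ))
    refine ⟨H (n + 1) + R, ?_, fun σ hσ => ?_⟩
    · have h1 : ∀ j, 2 ^ j • H j = 0 := by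
        intro j
        induction j with
        | zero => rw [H0, smul_zero]
        | succ j ih => rw [pow_succ, mul_smul, HS, ih]
      rw [smul_add, h1, zero_add, pow_succ', mul_smul, hR, smul_zero]
    · have h1 := hr σ hσ
      rw [sub_eq_iff_eq_add] at h1
      rw [h1, map_add]
      abel

theorem tate_of (hdiv : ∀ X : Pt W (Sep F), ∃ Y, Y + Y = X) (hN : Preserves K F (Sep F))
    (hnt : NT (ac W) (NK K F) L.fixingSubgroup) (ht : Triv W V L.fixingSubgroup) :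
    TateAtTwoOver W L k' := by
  intro c hc hl hi
  refine ⟨0, fun n => ?_⟩
  obtain ⟨R, hR, h⟩ := layers hdiv hN hnt ht n c ⟨hc, fun n v _ => (hl n).1 v, hi⟩
  exact ⟨0, R, by rw [hR, map_zero], fun σ hσ => by rw [pow_zero, one_smul, h σ hσ]⟩

end div

end Pool.Agent.K6.H71.PG
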