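import Pool.Agent.K6.H71.PG.Chain

/-!
# Galois extensions of `K` in `Sep F` whose degree is a power of two
-/

set_option autoImplicit false

open Polynomial IsDedekindDomain WeierstrassCurve WeierstrassCurve.Affine
open scoped Classical

namespace Pool.Agent.K6.H71.PG

open Pool.Agent.TH115.GD

section fld

variable {k' K F : Type} [Field k'] [Field K] [Field F] [Algebra K F] [Algebra k'[X] F]
  [IsFractionRing k'[X] F]

/-- `N` is unramified at the places of `F` in `V`: for all the embeddings `ι` of `Sep F` in a separable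
closure of the completion at `v` the image of `N` is in the completion. -/
def Unramified (V : Set (HeightOneSpectrum k'[X])) (N : IntermediateField K (Sep F)) : Prop :=
  ∀ v ∈ V, ∀ (ι : Sep F →ₐ[F] Sep (Comp k'[X] F v)), ∀ x ∈ N, ∃ y : Comp k'[X] F v,
    ι x = algebraMap (Comp k'[X] F v) (Sep (Comp k'[X] F v)) y

/-- `F ∩ N = K`. -/
def Geometric (N : IntermediateField K (Sep F)) : Prop :=
  ∀ x ∈ N, ∀ y : F, algebraMap F (Sep F) y = x → x ∈ (⊥ : IntermediateField K (Sep F))

variable (N L : IntermediateField K (Sep F)) [IsGalois K N] [FiniteDimensional K N]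

/-- The restriction of automorphisms to `N`. -/
noncomputable def rho : (Sep F ≃ₐ[K] Sep F) →* (N ≃ₐ[K] N) := AlgEquiv.restrictNormalHom N

omit [IsGalois K N] [FiniteDimensional K N] in
theorem rho_apply [Normal K N] (τ : Sep F ≃ₐ[K] Sep F) (x : N) :
    ((AlgEquiv.restrictNormalHom N τ x : N) : Sep F) = τ x :=
  AlgEquiv.restrictNormal_commutes τ N x

/-- The automorphisms of `N` which fix `L`. -/
def fixL : Subgroup (N ≃ₐ[K] N) where
  carrier := {γ | ∀ x : N, (x : Sep F) ∈ L → γ x = x}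
  mul_mem' := by
    intro γ δ h1 h2 x hx
    show γ (δ x) = x
    rw [h2 x hx, h1 x hx]
  one_mem' := fun _ _ => rfl
  inv_mem' := by
    intro γ h x hx
    show γ.symm x = x
    rw [AlgEquiv.symm_apply_eq, h x hx]

variable {N L}

theorem fixL_comap (hL : L ≤ N) : (fixL N L).comap (rho N) = L.fixingSubgroup := by
  ext τ
  rw [Subgroup.mem_comap, IntermediateField.mem_fixingSubgroup_iff]
  constructor
  · intro h x hx
    have h1 := h ⟨x, hL hx⟩ hx
    have h3 := rho_apply N τ ⟨x, hL hx⟩
    show τ x = x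
    rw [← h3]
    exact congrArg Subtype.val h1
  · intro h x hx
    apply Subtype.ext
    have h3 := rho_apply N τ x
    show ((rho N τ x : N) : Sep F) = x
    exact h3.trans (h x hx)

theorem rho_one {τ : Sep F ≃ₐ[K] Sep F} (h : ∀ x ∈ N, τ x = x) : rho N τ = 1 := by
  apply AlgEquiv.ext
  intro x
  apply Subtype.ext
  exact (rho_apply N τ x).trans (h x x.2)

theorem rho_surj (hg : Geometric N) (γ : N ≃ₐ[K] N) :
    ∃ σ : Sep F ≃ₐ[F] Sep F, rho N (rK K F σ) = γ := by
  set H : Subgroup (N ≃ₐ[K] N) := ((rho N).comp (rK K F)).range with hH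
  have h1 : IntermediateField.fixedField H = ⊥ := by
    rw [eq_bot_iff]
    intro x hx
    rw [IntermediateField.mem_fixedField_iff] at hx
    have h3 : ∀ σ : Sep F ≃ₐ[F] Sep F, σ (x : Sep F) = x := by
      intro σ
      have h4 := hx (rho N (rK K F σ)) ⟨σ, rfl⟩
      have h5 := rho_apply N (rK K F σ) x
      rw [rK_apply] at h5
      rw [← h5]
      exact congrArg Subtype.val h4
    obtain ⟨y, hy⟩ : (x : Sep F) ∈ Set.range (algebraMap F (Sep F)) := by
      rw [InfiniteGalois.mem_range_algebraMap_iff_fixed]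
      exact h3
    have h4 := hg x x.2 y hy
    rw [IntermediateField.mem_bot] at h4 ⊢
    obtain ⟨z, hz⟩ := h4
    exact ⟨z, Subtype.ext hz⟩
  have h3 : H = ⊤ := by
    rw [← IntermediateField.fixingSubgroup_fixedField H, h1]
    exact IntermediateField.fixingSubgroup_bot
  have h4 : γ ∈ H := by rw [h3]; trivial
  exact h4

omit [IsGalois K N] in
theorem exists_open : ∃ O : Set (Sep F ≃ₐ[F] Sep F), IsOpen O ∧ 1 ∈ O ∧
    ∀ τ ∈ O, ∀ x ∈ N, τ x = x := by
  let b := Module.finBasis K N
  refine ⟨⋂ i, {σ | σ (b i : Sep F) = b i}, ?_, ?_, ?_⟩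
  · exact isOpen_iInter_of_finite fun i =>
      (Pool.Agent.W309.TD.locConst_apply (K := F) (Ω := Sep F) (b i : Sep F)).isOpen_fiber _
  · rw [Set.mem_iInter]
    exact fun i => rfl
  · intro τ hτ x hx
    rw [Set.mem_iInter] at hτ
    have e : x = ((∑ i, b.repr ⟨x, hx⟩ i • b i : N) : Sep F) := by rw [b.sum_repr]
    have e2 : ((∑ i, b.repr ⟨x, hx⟩ i • b i : N) : Sep F) =
        ∑ i, algebraMap K (Sep F) (b.repr ⟨x, hx⟩ i) * (b i : Sep F) := by
      rw [AddSubmonoidClass.coe_finsetSum]
      refine Finset.sum_congr rfl fun i _ => ?_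
      rw [IntermediateField.coe_smul, Algebra.smul_def]
    rw [e, e2, map_sum]
    refine Finset.sum_congr rfl fun i _ => ?_
    have h3 : τ (b i : Sep F) = b i := hτ i
    rw [map_mul, h3, IsScalarTower.algebraMap_apply K F (Sep F), τ.commutes]

/-- **The descent for fields.** -/
theorem fld {W : WeierstrassCurve K} {V : Set (HeightOneSpectrum k'[X])}
    (hN : Preserves K F (Sep F)) (h2 : NT (ac W) (NK K F) ⊤)
    (h : Triv W V (⊤ : Subgroup (Sep F ≃ₐ[K] Sep F))) {e : ℕ} (hd : Module.finrank K N = 2 ^ e)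
    (hg : Geometric N) (hu : Unramified V N) (hL : L ≤ N) :
    NT (ac W) (NK K F) L.fixingSubgroup ∧ Triv W V L.fixingSubgroup := by
  rw [← fixL_comap hL]
  refine chain (rho N) hN ?_ (rho_surj hg) ?_ ?_ h2 h _
  · refine IsPGroup.of_card (n := e) ?_
    rw [IsGalois.card_aut_eq_finrank, hd]
  · obtain ⟨O, h1, h3, h4⟩ := exists_open (K := K) (F := F) (N := N)
    exact ⟨O, h1, h3, fun τ hτ => rho_one fun x hx => h4 τ hτ x hx⟩
  · intro v hv ι τ σ hσ
    refine rho_one fun x hx => ?_
    obtain ⟨y, hy⟩ := hu v hv ι x hx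
    have h3 := hσ x
    rw [hy, τ.commutes, ← hy] at h3
    exact (RingHom.injective (ι : Sep F →+* Sep (Comp k'[X] F v)) h3).symm

end fld

end Pool.Agent.K6.H71.PG
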