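import Pool.Agent.K6.H71.PG.Cst
import Pool.Agent.K6.H71.PG.Fld

/-!
# Galois extensions of `K` in `Sep F` whose degree is a power of two (with constants)
-/

set_option autoImplicit false
set_option linter.all false

open Polynomial IsDedekindDomain WeierstrassCurve WeierstrassCurve.Affine
open scoped Classical

namespace Pool.Agent.K6.H71.PG

open Pool.Agent.TH115.GD

section chain

variable {k' K F : Type} [Field k'] [Field K] [Field F] [Algebra K F] [Algebra k'[X] F]
  [IsFractionRing k'[X] F] {W : WeierstrassCurve K} {V : Set (HeightOneSpectrum k'[X])}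
  {Γ : Type} [Group Γ] [Finite Γ] (ρ : (Sep F ≃ₐ[K] Sep F) →* Γ)

theorem chain2 (hN : Preserves K F (Sep F)) (hV : Stable K F V) (hΓ : IsPGroup 2 Γ)
    (hsurj : Function.Surjective ρ)
    (hO : ∃ O : Set (Sep F ≃ₐ[F] Sep F), IsOpen O ∧ 1 ∈ O ∧ ∀ τ ∈ O, ρ (rK K F τ) = 1)
    (hun : ∀ v ∈ V, ∀ (ι : Sep F →ₐ[F] Sep (Comp k'[X] F v))
      (τ : Sep (Comp k'[X] F v) ≃ₐ[Comp k'[X] F v] Sep (Comp k'[X] F v)) (σ : Sep F ≃ₐ[F] Sep F),
      (∀ x, τ (ι x) = ι (σ x)) → ρ (rK K F σ) = 1)
    (h2 : NT (ac W) (NK K F) ⊤) (h : Triv W V (⊤ : Subgroup (Sep F ≃ₐ[K] Sep F))) :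
    ∀ H : Subgroup Γ, NT (ac W) (NK K F) (H.comap ρ) ∧ Triv W V (H.comap ρ) := by
  haveI : Fact (Nat.Prime 2) := ⟨Nat.prime_two⟩
  obtain ⟨M, hM⟩ := IsPGroup.iff_card.1 hΓ
  have key : ∀ (m n : ℕ), n + m = M → ∀ H : Subgroup Γ, Nat.card H = 2 ^ n →
      NT (ac W) (NK K F) (H.comap ρ) ∧ Triv W V (H.comap ρ) := by
    intro m
    induction m with
    | zero =>
      intro n hn H hH
      have e : H = ⊤ := Subgroup.eq_top_of_card_eq H (by rw [hH, hM]; congr 1)
      rw [e, Subgroup.comap_top]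
      exact ⟨h2, h⟩
    | succ m ih =>
      intro n hn H hH
      obtain ⟨H₁, hc, hle⟩ := Sylow.exists_subgroup_card_pow_succ (p := 2) (n := n)
        (by rw [hM]; exact pow_dvd_pow 2 (by omega)) hH
      obtain ⟨i1, i2⟩ := ih (n + 1) (by omega) H₁ hc
      have hidx : (H.subgroupOf H₁).index = 2 := by
        have h1 : Nat.card (H.subgroupOf H₁) = 2 ^ n := by
          rw [Nat.card_congr (Subgroup.subgroupOfEquivOfLe hle).toEquiv, hH]
        have h3 := Subgroup.card_mul_index (H.subgroupOf H₁)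
        rw [h1, hc, pow_succ] at h3
        exact Nat.eq_of_mul_eq_mul_left (by positivity) h3
      -- a step for each element
      have dich : ∀ g : Sep F ≃ₐ[K] Sep F, ρ g ∈ H₁ → ρ g ∉ H →
          ∀ t ∈ H₁.comap ρ, t ∈ H.comap ρ ∨ g⁻¹ * t ∈ H.comap ρ := by
        intro g hg hg' t ht
        by_cases h1 : ρ t ∈ H
        · exact Or.inl h1
        · right
          show ρ (g⁻¹ * t) ∈ H
          rw [map_mul, map_inv]
          have h3 := (Subgroup.mul_mem_iff_of_index_two hidx (a := ⟨ρ g, hg⟩⁻¹)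
            (b := ⟨ρ t, ht⟩)).2 (by
              rw [Subgroup.mem_subgroupOf, Subgroup.mem_subgroupOf]
              refine ⟨fun h5 => absurd ?_ hg', fun h5 => absurd h5 h1⟩
              have h6 := H.inv_mem h5
              simpa using h6)
          rw [Subgroup.mem_subgroupOf] at h3
          simpa using h3
      by_cases hgeo : ∃ s : Sep F ≃ₐ[F] Sep F, ρ (rK K F s) ∈ H₁ ∧ ρ (rK K F s) ∉ H
      · obtain ⟨s, hs1, hs2⟩ := hgeo
        have hst : Step (NK K F) (H₁.comap ρ) (H.comap ρ) (rK K F s) :=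
          ⟨Subgroup.comap_mono hle, hs1, rK_mem s, hs2, dich _ hs1 hs2⟩
        have hnt := step_nt (ac_isAct (F := F) W) (nk_normal hN) hst i1
        refine ⟨hnt, step_triv hN hst hnt ?_ ?_ i2⟩
        · obtain ⟨O, h1, h3, h4⟩ := hO
          refine ⟨O, h1, h3, fun τ hτ => ?_⟩
          show ρ _ ∈ H
          rw [h4 τ hτ]
          exact H.one_mem
        · intro v hv ι τ σ hσ
          show ρ _ ∈ H
          rw [hun v hv ι τ σ hσ]
          exact H.one_mem
      · push Not at hgeo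
        obtain ⟨γ, hγ, hγ'⟩ : ∃ γ ∈ H₁, γ ∉ H := by
          by_contra hcon
          push Not at hcon
          have h1 : H₁ = H := le_antisymm hcon hle
          rw [h1, hH] at hc
          have := Nat.pow_right_injective (le_refl 2) hc
          omega
        obtain ⟨s, rfl⟩ := hsurj γ
        have hg : ∀ x ∈ H₁.comap ρ, x ∈ NK K F → x ∈ H.comap ρ := by
          rintro x hx ⟨σ, rfl⟩
          exact hgeo σ hx
        refine ⟨fun Q hQ hf => i1 Q hQ fun x hx hxN => hf x (hg x hx hxN) hxN, ?_⟩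
        exact cstep_triv hN hV ⟨Subgroup.comap_mono hle, hγ, trivial, hγ', dich _ hγ hγ'⟩ hg i2
  intro H
  obtain ⟨n, hn⟩ := IsPGroup.iff_card.1 (hΓ.to_subgroup H)
  have hle : n ≤ M := by
    have h1 := Subgroup.card_subgroup_dvd_card H
    rw [hn, hM] at h1
    exact (Nat.pow_dvd_pow_iff_le_right (le_refl 2)).1 h1
  exact key (M - n) n (by omega) H hn

end chain

section fld

variable {k' K F : Type} [Field k'] [Field K] [Field F] [Algebra K F] [Algebra k'[X] F]
  [IsFractionRing k'[X] F] {N L : IntermediateField K (Sep F)} [IsGalois K N]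
  [FiniteDimensional K N]

/-- **The descent for fields.** -/
theorem fld2 [Normal K (Sep F)] {W : WeierstrassCurve K} {V : Set (HeightOneSpectrum k'[X])}
    (hN : Preserves K F (Sep F)) (hV : Stable K F V) (h2 : NT (ac W) (NK K F) ⊤)
    (h : Triv W V (⊤ : Subgroup (Sep F ≃ₐ[K] Sep F))) {e : ℕ} (hd : Module.finrank K N = 2 ^ e)
    (hu : Unramified V N) (hL : L ≤ N) :
    NT (ac W) (NK K F) L.fixingSubgroup ∧ Triv W V L.fixingSubgroup := by
  rw [← fixL_comap hL]
  refine chain2 (rho N) hN hV ?_ (AlgEquiv.restrictNormalHom_surjective (Sep F)) ?_ ?_ h2 h _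
  · refine IsPGroup.of_card (n := e) ?_
    rw [IsGalois.card_aut_eq_finrank, hd]
  · obtain ⟨O, h1, h3, h4⟩ := exists_open (K := K) (F := F) (N := N)
    exact ⟨O, h1, h3, fun τ hτ => rho_one fun x hx => h4 τ hτ x hx⟩
  · intro v hv ι τ σ hσ
    refine rho_one fun x hx => ?_
    obtain ⟨y, hy⟩ := hu v hv ι x hx
    have h3 := hσ x
    rw [hy, τ.commutes, ← hy] at h3
    exact (RingHom.injective (ι : Sep F →+* Sep (Comp k'[X] F v)) h3).symm

end fld

end Pool.Agent.K6.H71.PG
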