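import Pool.Agent.K6.H71.PG.Ring

/-!
# The surfaces `y ^ 2 = g(x) - t` and inert places of degree one
-/

set_option autoImplicit false
set_option linter.all false

open Polynomial
open scoped Classical

namespace Pool.Agent.K6.H71.PG

section graph

variable {k : Type} [Field k] (α2 α4 α6 : k)

/-- The polynomial `g(x) - t`. -/
noncomputable abbrev gr : k[X][X] := cubT (C α2) (C α4) (C α6 - X)

noncomputable def toLine : BR (C α2) (C α4) (C α6 - X) →+* k[X] :=
  AdjoinRoot.lift (compRingHom (cubT α2 α4 α6)) X (by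
    simp [cubT, eval₂_add, eval₂_mul, eval₂_pow])

noncomputable def ofLine : k[X] →+* BR (C α2) (C α4) (C α6 - X) :=
  eval₂RingHom ((AdjoinRoot.of (gr α2 α4 α6)).comp C) (AdjoinRoot.root (gr α2 α4 α6))

omit α2 α4 α6 in
theorem root_eq' {S : Type} [CommRing S] (α2 α4 α6 : k) (φ : k[X] →+* S) (r : S)
    (h : (gr α2 α4 α6).eval₂ φ r = 0) :
    (cubT α2 α4 α6).eval₂ (φ.comp C) r = φ X := by
  rw [← sub_eq_zero, ← h]
  simp only [gr, cubT, eval₂_add, eval₂_mul, eval₂_pow, eval₂_X, eval₂_C, RingHom.comp_apply]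
  rw [map_sub φ]
  ring

theorem root_eq : (cubT α2 α4 α6).eval₂ ((AdjoinRoot.of (gr α2 α4 α6)).comp C)
    (AdjoinRoot.root (gr α2 α4 α6)) = AdjoinRoot.of (gr α2 α4 α6) X :=
  root_eq' α2 α4 α6 _ _ (AdjoinRoot.eval₂_root (gr α2 α4 α6))

omit α2 α4 α6 in
theorem coeffs_zero {A B D : k} (h : C A * X ^ 2 + C B * X + C D = 0) : A = 0 ∧ B = 0 ∧ D = 0 := by
  have c2 := congrArg (fun p => coeff p 2) h
  have c1 := congrArg (fun p => coeff p 1) h
  have c0 := congrArg (fun p => coeff p 0) h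
  simp [coeff_X, coeff_C] at c2 c1 c0
  exact ⟨c2, c1, c0⟩

theorem of_to (z : BR (C α2) (C α4) (C α6 - X)) : ofLine α2 α4 α6 (toLine α2 α4 α6 z) = z := by
  have key : ((ofLine α2 α4 α6).comp (toLine α2 α4 α6)).comp (AdjoinRoot.mk (gr α2 α4 α6)) =
      AdjoinRoot.mk (gr α2 α4 α6) := by
    refine Polynomial.ringHom_ext' (Polynomial.ringHom_ext' ?_ ?_) ?_
    · refine RingHom.ext fun c => ?_
      simp [toLine, ofLine]
    · simp only [RingHom.comp_apply, toLine, ofLine, AdjoinRoot.lift_mk, eval₂_C, coe_compRingHom,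
        X_comp, coe_eval₂RingHom]
      exact root_eq α2 α4 α6
    · simp [toLine, ofLine]
  obtain ⟨P, rfl⟩ := AdjoinRoot.mk_surjective z
  exact congrArg (fun φ : k[X][X] →+* _ => φ P) key

theorem to_of (p : k[X]) : toLine α2 α4 α6 (ofLine α2 α4 α6 p) = p := by
  have key : (toLine α2 α4 α6).comp (ofLine α2 α4 α6) = RingHom.id _ := by
    refine Polynomial.ringHom_ext' (RingHom.ext fun c => ?_) ?_
    · simp [toLine, ofLine]
    · simp [toLine, ofLine]
  exact congrArg (fun φ : k[X] →+* _ => φ p) key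

noncomputable def lineEquiv : BR (C α2) (C α4) (C α6 - X) ≃+* k[X] :=
  RingEquiv.ofRingHom (toLine α2 α4 α6) (ofLine α2 α4 α6) (RingHom.ext (to_of α2 α4 α6))
    (RingHom.ext (of_to α2 α4 α6))

theorem gr_irr : Irreducible (gr α2 α4 α6) := by
  haveI : IsDomain (AdjoinRoot (gr α2 α4 α6)) := (lineEquiv α2 α4 α6).toMulEquiv.isDomain _
  have h0 : gr α2 α4 α6 ≠ 0 := (cubT_deg _ _ _).2.ne_zero
  have h1 : (Ideal.span {gr α2 α4 α6}).IsPrime := (Ideal.Quotient.isDomain_iff_prime _).1 this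
  exact ((Ideal.span_singleton_prime h0).1 h1).irreducible

theorem isBranch_graph (h2 : (2 : k) ≠ 0) (hg : derivative (cubT α2 α4 α6) ≠ 0) :
    IsBranch (C α2) (C α4) (C α6 - X) where
  smooth := ⟨0, 0, -1, by simp; ring⟩
  disc := by
    intro h
    have e : (⟨0, C α2, 0, C α4, C α6 - X⟩ : WeierstrassCurve k[X]).Δ =
        C (-432) * X ^ 2 + C (864 * α6 - 288 * α2 * α4 + 64 * α2 ^ 3) * X +
          C ((⟨0, α2, 0, α4, α6⟩ : WeierstrassCurve k).Δ) := by
      simp only [WeierstrassCurve.Δ, WeierstrassCurve.b₂, WeierstrassCurve.b₄,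
        WeierstrassCurve.b₆, WeierstrassCurve.b₈, C_add, C_sub, C_mul, C_pow, C_neg, map_ofNat,
        C_0]
      ring
    rw [e] at h
    obtain ⟨c2, c1, c0⟩ := coeffs_zero h
    have h16 : (16 : k) ≠ 0 := by
      have : (16 : k) = 2 ^ 4 := by norm_num
      rw [this]
      exact pow_ne_zero _ h2
    have h3 : (3 : k) = 0 := by
      have e1 : (16 : k) * 3 ^ 3 = 0 := by linear_combination -c2
      exact pow_eq_zero_iff (three_ne_zero) |>.1 ((mul_eq_zero.1 e1).resolve_left h16)
    have h64 : (64 : k) ≠ 0 := by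
      have : (64 : k) = 2 ^ 6 := by norm_num
      rw [this]
      exact pow_ne_zero _ h2
    have hα2 : α2 = 0 := by
      have e1 : (64 : k) * α2 ^ 3 = 0 := by
        linear_combination c1 + (-288 * α6 + 96 * α2 * α4) * h3
      exact pow_eq_zero_iff (three_ne_zero) |>.1 ((mul_eq_zero.1 e1).resolve_left h64)
    have hα4 : α4 = 0 := by
      subst hα2
      have e1 : (64 : k) * α4 ^ 3 = 0 := by
        simp only [WeierstrassCurve.Δ, WeierstrassCurve.b₂, WeierstrassCurve.b₄,
          WeierstrassCurve.b₆, WeierstrassCurve.b₈] at c0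
        linear_combination -c0 - (144 * α6 ^ 2) * h3
      exact pow_eq_zero_iff (three_ne_zero) |>.1 ((mul_eq_zero.1 e1).resolve_left h64)
    apply hg
    rw [hα2, hα4]
    have e2 : (3 : k[X]) = 0 := by
      have := congrArg (C : k → k[X]) h3
      rw [map_ofNat, map_zero] at this
      exact this
    have e3 : derivative (cubT (0 : k) 0 α6) = 3 * X ^ 2 := by
      simp [cubT]
      rw [show (C (2 : k) : k[X]) = 2 from map_ofNat C 2]
      norm_num
    rw [e3, e2, zero_mul]
  irreducible := fun k' _ _ => by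
    have e : (cubT (C α2) (C α4) (C α6 - X)).map (mapRingHom (algebraMap k k')) =
        gr (algebraMap k k' α2) (algebraMap k k' α4) (algebraMap k k' α6) := by
      rw [cubT_map]
      simp [gr]
    rw [e]
    exact gr_irr _ _ _
  dedekind := by
    haveI : IsDomain (BR (C α2) (C α4) (C α6 - X)) := (lineEquiv α2 α4 α6).toMulEquiv.isDomain _
    haveI : IsPrincipalIdealRing (BR (C α2) (C α4) (C α6 - X)) :=
      IsPrincipalIdealRing.of_surjective (lineEquiv α2 α4 α6).symm.toRingHom
        (lineEquiv α2 α4 α6).symm.surjective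
    infer_instance
  ideals := fun I _ => by
    haveI : IsPrincipalIdealRing (BR (C α2) (C α4) (C α6 - X)) :=
      IsPrincipalIdealRing.of_surjective (lineEquiv α2 α4 α6).symm.toRingHom
        (lineEquiv α2 α4 α6).symm.surjective
    exact IsPrincipalIdealRing.principal I
  units := fun u => by
    have h1 : IsUnit (lineEquiv α2 α4 α6 u) := u.isUnit.map (lineEquiv α2 α4 α6)
    obtain ⟨r, -, hr⟩ := Polynomial.isUnit_iff.1 h1
    refine ⟨r, ?_⟩
    have h3 : (u : BR (C α2) (C α4) (C α6 - X)) = ofLine α2 α4 α6 (C r) := by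
      rw [hr]
      exact (of_to α2 α4 α6 u).symm
    rw [h3]
    simp only [ofLine, coe_eval₂RingHom, eval₂_C]
    rfl

end graph

section lin

variable {k : Type} [Field k]

theorem inert_lin {a2 a4 a6 : k[X]} {c : k}
    (h : Irreducible (cubT (a2.eval c) (a4.eval c) (a6.eval c))) : IsInert a2 a4 a6 (X - C c) := by
  refine ⟨irreducible_X_sub_C c, ?_⟩
  haveI : Fact (Irreducible (X - C c)) := ⟨irreducible_X_sub_C c⟩
  let σ : k →+* AdjoinRoot (X - C c) := (AdjoinRoot.mk (X - C c)).comp C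
  have key : ∀ p : k[X], AdjoinRoot.mk (X - C c) p = σ (p.eval c) := by
    intro p
    show _ = AdjoinRoot.mk (X - C c) (C (p.eval c))
    rw [AdjoinRoot.mk_eq_mk]
    exact X_sub_C_dvd_sub_C_eval
  have hb : Function.Bijective σ := by
    refine ⟨σ.injective, fun z => ?_⟩
    obtain ⟨p, rfl⟩ := AdjoinRoot.mk_surjective z
    exact ⟨_, (key p).symm⟩
  rw [cubT_map, key, key, key, ← cubT_map]
  exact (MulEquiv.irreducible_iff (Polynomial.mapEquiv (RingEquiv.ofBijective σ hb))).2 h

end lin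

end Pool.Agent.K6.H71.PG
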