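import Pool.Agent.K6.H71.PG.Iter

/-!
# Square roots of products of inert primes
-/

set_option autoImplicit false
set_option linter.all false

open Polynomial IsDedekindDomain WeierstrassCurve WeierstrassCurve.Affine
open scoped Classical

namespace Pool.Agent.K6.H71.PG

open Pool.Agent.TH115.GD

variable {k k' K F : Type} [Field k] [Field k'] [Algebra k k'] [Field K] [Algebra k[X] K]
  [Field F] [Algebra k'[X] F] [IsFractionRing k'[X] F] [Algebra K F]

theorem sqTower_sqrt {δ : Sep F} {P : K} (h : δ ^ 2 = algebraMap K (Sep F) P) :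
    SqTower K (IntermediateField.adjoin K {δ}) := by
  have h1 := SqTower.step (K := K) ⊥ δ SqTower.base (by
    rw [h]
    exact IntermediateField.algebraMap_mem _ _)
  rwa [bot_sup_eq] at h1

theorem unramified_sqrt (hT : IsTower k k' K F) (h2 : (2 : k) ≠ 0) {p : k[X] → Prop} {P : k[X]}
    (hP0 : P ≠ 0) (hP : ∀ π : k[X], Irreducible π → π ∣ P → p π) {δ : Sep F}
    (h : δ ^ 2 = algebraMap K (Sep F) (algebraMap k[X] K P)) :
    Unramified (VSet (k := k) (k' := k') p) (IntermediateField.adjoin K {δ}) := by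
  haveI := hT.sep
  haveI : IsSepClosed k' := IsSepClosure.sep_closed k
  have hKF := hT.map
  have h2' : (2 : k') ≠ 0 := by
    intro h
    apply h2
    apply (algebraMap k k').injective
    rw [map_ofNat, h, map_zero]
  intro v hv ι x hx
  obtain ⟨y, hy⟩ : ∃ y : Comp k'[X] F v, ι δ = algebraMap _ (Sep (Comp k'[X] F v)) y := by
    have hnot : P.map (algebraMap k k') ∉ v.asIdeal := twist_notMem hP0 hP hv
    obtain ⟨z, hz⟩ := unit_sq v h2' (algebraMap F (Comp k'[X] F v)
      (algebraMap k'[X] F (P.map (algebraMap k k')))) (by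
        rw [wv_coe]
        exact le_antisymm (v.valuation_le_one _) (not_lt.1 fun h3 =>
          hnot ((v.valuation_lt_one_iff_mem _).1 h3)))
    have h4 : ι δ ^ 2 = (algebraMap _ (Sep (Comp k'[X] F v)) z) ^ 2 := by
      have h5 : (algebraMap _ (Sep (Comp k'[X] F v)) z) ^ 2 =
          algebraMap _ (Sep (Comp k'[X] F v)) (z ^ 2) := (map_pow _ z 2).symm
      rw [h5, hz, ← map_pow, h, IsScalarTower.algebraMap_apply K F (Sep F), ι.commutes,
        IsScalarTower.algebraMap_apply F (Comp k'[X] F v) (Sep (Comp k'[X] F v)), hKF]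
    rcases sq_eq_sq_iff_eq_or_eq_neg.1 h4 with h5 | h5
    · exact ⟨z, h5⟩
    · exact ⟨-z, by rw [h5, map_neg]⟩
  refine IntermediateField.adjoin_induction K (p := fun x _ => ∃ y : Comp k'[X] F v,
    ι x = algebraMap (Comp k'[X] F v) (Sep (Comp k'[X] F v)) y) ?_ ?_ ?_ ?_ ?_ hx
  · intro z hz
    rw [Set.mem_singleton_iff] at hz
    exact ⟨y, by rw [hz, hy]⟩
  · intro z
    refine ⟨algebraMap F _ (algebraMap K F z), ?_⟩
    rw [IsScalarTower.algebraMap_apply K F (Sep F), ι.commutes,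
      IsScalarTower.algebraMap_apply F (Comp k'[X] F v) (Sep (Comp k'[X] F v))]
  · rintro a b - - ⟨a', ha⟩ ⟨b', hb⟩
    exact ⟨a' + b', by rw [map_add, map_add, ha, hb]⟩
  · rintro a - ⟨a', ha⟩
    exact ⟨a'⁻¹, by rw [map_inv₀, map_inv₀, ha]⟩
  · rintro a b - - ⟨a', ha⟩ ⟨b', hb⟩
    exact ⟨a' * b', by rw [map_mul, map_mul, ha, hb]⟩

end Pool.Agent.K6.H71.PG
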