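import Pool.Agent.K6.H71.PG.Main

/-!
# Compositions of quadratic polynomials
-/

set_option autoImplicit false
set_option linter.all false

open Polynomial IsDedekindDomain WeierstrassCurve WeierstrassCurve.Affine
open scoped Classical

namespace Pool.Agent.K6.H71.PG

open Pool.Agent.TH115.GD

/-- The composition `h_0 ∘ h_1 ∘ ... ∘ h_{n-1}`, `h_i = e_i X ^ 2 + c_i`. -/
noncomputable def qcomp {k : Type} [Field k] (e c : ℕ → k) : ℕ → k[X]
  | 0 => X
  | n + 1 => (qcomp e c n).comp (C (e n) * X ^ 2 + C (c n))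

/-- The inclusion of the constants. -/
noncomputable def cst (k K Ω : Type) [Field k] [Field K] [Field Ω] [Algebra k[X] K] [Algebra K Ω] :
    k →+* Ω := (algebraMap K Ω).comp ((algebraMap k[X] K).comp C)

/-- `s` is a root of `P(s) = t`. -/
def RootOf {k K Ω : Type} [Field k] [Field K] [Field Ω] [Algebra k[X] K] [Algebra K Ω] (P : k[X])
    (s : Ω) : Prop := P.eval₂ (cst k K Ω) s = algebraMap K Ω (algebraMap k[X] K X)

section iter

variable {k K Ω : Type} [Field k] [Field K] [Field Ω] [Algebra k[X] K] [Algebra K Ω]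

theorem rootOf_succ {e c : ℕ → k} {n : ℕ} {s : Ω} (h : RootOf (K := K) (qcomp e c (n + 1)) s) :
    RootOf (K := K) (qcomp e c n) (cst k K Ω (e n) * s ^ 2 + cst k K Ω (c n)) := by
  unfold RootOf at h ⊢
  rw [qcomp, eval₂_comp] at h
  simpa using h

theorem sqTower_iter {e c : ℕ → k} (he : ∀ i, e i ≠ 0) (n : ℕ) : ∀ s : Ω,
    RootOf (K := K) (qcomp e c n) s → SqTower K (IntermediateField.adjoin K {s}) := by
  induction n with
  | zero =>
    intro s hs
    have h1 : s = algebraMap K Ω (algebraMap k[X] K X) := by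
      have h2 : (X : k[X]).eval₂ (cst k K Ω) s = _ := hs
      rwa [eval₂_X] at h2
    have h3 : IntermediateField.adjoin K {s} = ⊥ := by
      rw [h1, IntermediateField.adjoin_simple_eq_bot_iff]
      exact IntermediateField.algebraMap_mem _ _
    rw [h3]
    exact SqTower.base
  | succ n ih =>
    intro s hs
    have h1 := ih _ (rootOf_succ hs)
    set s' := cst k K Ω (e n) * s ^ 2 + cst k K Ω (c n) with hs'
    have hc : ∀ (S : IntermediateField K Ω) (x : k), cst k K Ω x ∈ S := fun S x =>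
      IntermediateField.algebraMap_mem _ _
    have he0 : cst k K Ω (e n) ≠ 0 := (_root_.map_ne_zero _).2 (he n)
    have h4 := SqTower.step _ s h1 (by
      have e1 : s ^ 2 = (s' - cst k K Ω (c n)) / cst k K Ω (e n) := by
        rw [hs', add_sub_cancel_right, mul_div_cancel_left₀ _ he0]
      rw [e1]
      exact div_mem (sub_mem (IntermediateField.mem_adjoin_simple_self K s') (hc _ _)) (hc _ _))
    have h5 : IntermediateField.adjoin K {s'} ≤ IntermediateField.adjoin K {s} := by
      rw [IntermediateField.adjoin_le_iff, Set.singleton_subset_iff]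
      exact add_mem (mul_mem (hc _ _) (pow_mem (IntermediateField.mem_adjoin_simple_self K s) 2))
        (hc _ _)
    rwa [sup_eq_right.2 h5] at h4

end iter

section val

variable {k k' K F : Type} [Field k] [Field k'] [Algebra k k'] [Field K] [Algebra k[X] K]
  [Field F] [Algebra k'[X] F] [IsFractionRing k'[X] F] [Algebra K F]

theorem wv_poly (v : HeightOneSpectrum k'[X]) (p : k'[X]) :
    wv v (algebraMap F (Comp k'[X] F v) (algebraMap k'[X] F p)) ≤ 1 := by
  rw [wv_coe]
  exact v.valuation_le_one _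

theorem val_sub_le {E : Type} [Field E] (w : Valuation E (WithZero (Multiplicative ℤ)))
    (φ : k →+* E) (hφ : ∀ x, w (φ x) ≤ 1) {y c : E} (hy : w y ≤ 1) (hc : w c ≤ 1) (p : k[X]) :
    w (p.eval₂ φ y - p.eval₂ φ c) ≤ w (y - c) := by
  induction p using Polynomial.induction_on' with
  | add p q hp hq =>
    have e : (p + q).eval₂ φ y - (p + q).eval₂ φ c =
        (p.eval₂ φ y - p.eval₂ φ c) + (q.eval₂ φ y - q.eval₂ φ c) := by
      rw [eval₂_add, eval₂_add]
      ring
    rw [e]
    exact (w.map_add _ _).trans (max_le hp hq)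
  | monomial n a =>
    rw [eval₂_monomial, eval₂_monomial, ← mul_sub, map_mul]
    refine (mul_le_mul' (hφ a) (le_refl _)).trans ?_
    rw [one_mul]
    induction n with
    | zero => rw [pow_zero, pow_zero, sub_self, map_zero]; exact zero_le
    | succ n ih =>
      have e : y ^ (n + 1) - c ^ (n + 1) = y * (y ^ n - c ^ n) + (y - c) * c ^ n := by ring
      rw [e]
      refine (w.map_add _ _).trans (max_le ?_ ?_)
      · rw [map_mul]
        exact (mul_le_mul' hy ih).trans (by rw [one_mul])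
      · rw [map_mul, map_pow]
        exact (mul_le_mul' (le_refl _) (pow_le_one₀ zero_le hc)).trans (by rw [mul_one])

theorem unr_iter (hT : IsTower k k' K F) (h2 : (2 : k) ≠ 0) {p : k[X] → Prop} {e c : ℕ → k}
    (he : ∀ i, e i ≠ 0) {v : HeightOneSpectrum k'[X]} (hv : v ∈ VSet (k := k) (k' := k') p)
    (ι : Sep F →ₐ[F] Sep (Comp k'[X] F v)) (n : ℕ)
    (hp : ∀ i < n, p (X - C ((qcomp e c i).eval (c i)))) : ∀ s : Sep F,
    RootOf (K := K) (qcomp e c n) s →
      ∃ y : Comp k'[X] F v, ι s = algebraMap _ (Sep (Comp k'[X] F v)) y ∧ wv v y ≤ 1 := by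
  haveI := hT.sep
  haveI : IsSepClosed k' := IsSepClosure.sep_closed k
  have hKF := hT.map
  have h2' : (2 : k') ≠ 0 := by
    intro h
    apply h2
    apply (algebraMap k k').injective
    rw [map_ofNat, h, map_zero]
  let φ : k →+* Comp k'[X] F v :=
    (algebraMap F (Comp k'[X] F v)).comp ((algebraMap K F).comp ((algebraMap k[X] K).comp C))
  have hφ : ∀ x, φ x = algebraMap F (Comp k'[X] F v) (algebraMap k'[X] F (C (algebraMap k k' x))) := by
    intro x
    show algebraMap F _ (algebraMap K F (algebraMap k[X] K (C x))) = _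
    rw [hKF, map_C]
  have hφ1 : ∀ x, wv v (φ x) ≤ 1 := fun x => by
    rw [hφ]
    exact wv_poly v _
  have hι : ∀ x, ι (cst k K (Sep F) x) = algebraMap _ (Sep (Comp k'[X] F v)) (φ x) := by
    intro x
    show ι (algebraMap K (Sep F) _) = _
    rw [IsScalarTower.algebraMap_apply K F (Sep F), ι.commutes,
      IsScalarTower.algebraMap_apply F (Comp k'[X] F v) (Sep (Comp k'[X] F v))]
    rfl
  set T : Comp k'[X] F v := algebraMap F (Comp k'[X] F v) (algebraMap k'[X] F X) with hTd
  have hιT : ι (algebraMap K (Sep F) (algebraMap k[X] K X)) = algebraMap _ (Sep (Comp k'[X] F v)) T := by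
    rw [IsScalarTower.algebraMap_apply K F (Sep F), ι.commutes,
      IsScalarTower.algebraMap_apply F (Comp k'[X] F v) (Sep (Comp k'[X] F v)), hKF, map_X]
  have root : ∀ (P : k[X]) (s : Sep F) (y : Comp k'[X] F v), RootOf (K := K) P s →
      ι s = algebraMap _ (Sep (Comp k'[X] F v)) y → P.eval₂ φ y = T := by
    intro P s y hP hs
    apply (algebraMap (Comp k'[X] F v) (Sep (Comp k'[X] F v))).injective
    refine Eq.trans ?_ hιT
    rw [← show P.eval₂ (cst k K (Sep F)) s = algebraMap K (Sep F) (algebraMap k[X] K X) from hP]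
    have h3 := hom_eval₂ P (cst k K (Sep F)) (ι : Sep F →+* Sep (Comp k'[X] F v)) s
    have h4 := hom_eval₂ P φ (algebraMap (Comp k'[X] F v) (Sep (Comp k'[X] F v))) y
    have e1 : (ι : Sep F →+* Sep (Comp k'[X] F v)).comp (cst k K (Sep F)) =
        (algebraMap (Comp k'[X] F v) (Sep (Comp k'[X] F v))).comp φ := RingHom.ext hι
    rw [e1] at h3
    refine h4.trans ?_
    refine Eq.trans ?_ h3.symm
    congr 1
    exact hs.symm
  induction n with
  | zero =>
    intro s hs
    have h1 : s = algebraMap K (Sep F) (algebraMap k[X] K X) := by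
      have h3 : (X : k[X]).eval₂ (cst k K (Sep F)) s = _ := hs
      rwa [eval₂_X] at h3
    exact ⟨T, by rw [h1, hιT], wv_poly v X⟩
  | succ n ih =>
    intro s hs
    have hs' := rootOf_succ hs
    obtain ⟨y, hy, hy1⟩ := ih (fun i hi => hp i (by omega)) _ hs'
    have hyr := root _ _ y hs' hy
    have hcn := hφ1 (c n)
    have hu : wv v (y - φ (c n)) = 1 := by
      refine le_antisymm ((Valuation.map_sub _ _ _).trans (max_le hy1 hcn)) (not_lt.1 fun hlt => ?_)
      have h3 := (val_sub_le (wv v) φ hφ1 hy1 hcn (qcomp e c n)).trans_lt hlt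
      rw [hyr, eval₂_hom, hφ, hTd, ← map_sub, ← map_sub, wv_coe,
        v.valuation_lt_one_iff_mem] at h3
      refine hv _ (hp n (by omega)) ?_
      rw [Polynomial.map_sub, map_X, map_C]
      exact h3
    have hen0 : φ (e n) ≠ 0 := (_root_.map_ne_zero _).2 (he n)
    have hen : wv v (φ (e n)) = 1 := by
      refine le_antisymm (hφ1 _) ?_
      have h3 : wv v (φ (e n)) * wv v (φ (e n)⁻¹) = 1 := by
        rw [← map_mul, ← map_mul, mul_inv_cancel₀ (he n), map_one, map_one]
      calc (1 : WithZero (Multiplicative ℤ)) = wv v (φ (e n)) * wv v (φ (e n)⁻¹) := h3.symm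
        _ ≤ wv v (φ (e n)) * 1 := mul_le_mul' (le_refl _) (hφ1 _)
        _ = _ := mul_one _
    obtain ⟨z, hz⟩ := unit_sq v h2' ((y - φ (c n)) / φ (e n)) (by rw [map_div₀, hu, hen, div_one])
    have hz1 : wv v z ≤ 1 := by
      by_contra hcon
      push Not at hcon
      have h3 : wv v (z ^ 2) = 1 := by rw [hz, map_div₀, hu, hen, div_one]
      rw [map_pow] at h3
      exact (one_lt_pow₀ hcon two_ne_zero).ne' h3
    have h4 : ι s ^ 2 = (algebraMap _ (Sep (Comp k'[X] F v)) z) ^ 2 := by
      have h5 : algebraMap _ (Sep (Comp k'[X] F v)) (φ (e n)) * ι s ^ 2 +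
          algebraMap _ (Sep (Comp k'[X] F v)) (φ (c n)) = algebraMap _ (Sep (Comp k'[X] F v)) y := by
        rw [← hy, ← hι, ← hι, map_add, map_mul, map_pow]
      have h6 : algebraMap _ (Sep (Comp k'[X] F v)) (φ (e n)) ≠ 0 := (_root_.map_ne_zero _).2 hen0
      have h7 : (algebraMap _ (Sep (Comp k'[X] F v)) z) ^ 2 =
          (algebraMap _ (Sep (Comp k'[X] F v)) y - algebraMap _ (Sep (Comp k'[X] F v)) (φ (c n))) /
            algebraMap _ (Sep (Comp k'[X] F v)) (φ (e n)) := by
        rw [← map_sub, ← map_div₀, ← hz]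
        exact (map_pow _ z 2).symm
      rw [h7, ← h5, add_sub_cancel_right, mul_div_cancel_left₀ _ h6]
    rcases sq_eq_sq_iff_eq_or_eq_neg.1 h4 with h5 | h5
    · exact ⟨z, h5, hz1⟩
    · exact ⟨-z, by rw [h5, map_neg], by rw [Valuation.map_neg]; exact hz1⟩

theorem unramified_iter (hT : IsTower k k' K F) (h2 : (2 : k) ≠ 0) {p : k[X] → Prop} {e c : ℕ → k}
    (he : ∀ i, e i ≠ 0) (n : ℕ) (hp : ∀ i < n, p (X - C ((qcomp e c i).eval (c i)))) {s : Sep F}
    (hs : RootOf (K := K) (qcomp e c n) s) :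
    Unramified (VSet (k := k) (k' := k') p) (IntermediateField.adjoin K {s}) := by
  intro v hv ι x hx
  obtain ⟨y, hy, -⟩ := unr_iter hT h2 he hv ι n hp s hs
  refine IntermediateField.adjoin_induction K (p := fun x _ => ∃ y : Comp k'[X] F v,
    ι x = algebraMap (Comp k'[X] F v) (Sep (Comp k'[X] F v)) y) ?_ ?_ ?_ ?_ ?_ hx
  · intro z hz
    rw [Set.mem_singleton_iff] at hz
    exact ⟨y, by rw [hz, hy]⟩
  · intro z
    refine ⟨algebraMap F _ (algebraMap K F z), ?_⟩
    rw [IsScalarTower.algebraMap_apply K F (Sep F), ι.commutes,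
      IsScalarTower.algebraMap_apply F (Comp k'[X] F v) (Sep (Comp k'[X] F v))]
  · rintro a b - - ⟨a', ha⟩ ⟨b', hb⟩
    exact ⟨a' + b', by rw [map_add, map_add, ha, hb]⟩
  · rintro a - ⟨a', ha⟩
    exact ⟨a'⁻¹, by rw [map_inv₀, map_inv₀, ha]⟩
  · rintro a b - - ⟨a', ha⟩ ⟨b', hb⟩
    exact ⟨a' * b', by rw [map_mul, map_mul, ha, hb]⟩

end val

end Pool.Agent.K6.H71.PG
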