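import Pool.Agent.K6.H71.PG.Cst
import Pool.Agent.K6.H71.PG.Base

/-!
# The places not above a set of polynomials are stable
-/

set_option autoImplicit false
set_option linter.all false

open Polynomial IsDedekindDomain WeierstrassCurve WeierstrassCurve.Affine
open scoped Classical

namespace Pool.Agent.K6.H71.PG

open Pool.Agent.TH115.GD

section pl

variable {k' F : Type} [Field k'] [Field F] [Algebra k'[X] F] [IsFractionRing k'[X] F]

/-- The place `w ∘ φ`. -/
noncomputable def plc (φ : k'[X] ≃+* k'[X]) (w : HeightOneSpectrum k'[X]) : HeightOneSpectrum k'[X] where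
  asIdeal := w.asIdeal.comap (φ : k'[X] →+* k'[X])
  isPrime := Ideal.comap_isPrime _ _
  ne_bot := by
    intro h
    apply w.ne_bot
    rw [eq_bot_iff]
    intro x hx
    have h1 : φ.symm x ∈ w.asIdeal.comap (φ : k'[X] →+* k'[X]) := by
      rw [Ideal.mem_comap]
      show φ (φ.symm x) ∈ _
      rwa [φ.apply_symm_apply]
    rw [h, Ideal.mem_bot] at h1
    rw [Ideal.mem_bot]
    simpa using h1

theorem plc_frac (w : HeightOneSpectrum k'[X]) (x : F) (hx : w.valuation F x ≤ 1) :
    ∃ n d : k'[X], d ∉ w.asIdeal ∧ x = algebraMap k'[X] F n / algebraMap k'[X] F d := by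
  obtain ⟨n, d, hnd, rfl⟩ := IsFractionRing.exists_reduced_fraction (A := k'[X]) x
  refine ⟨n, d, fun hd => ?_, IsFractionRing.mk'_eq_div d⟩
  have hd0 : (d : k'[X]) ≠ 0 := nonZeroDivisors.ne_zero d.2
  have hdF : w.valuation F (algebraMap k'[X] F d) ≠ 0 := by
    rw [Ne, map_eq_zero, map_eq_zero_iff _ (IsFractionRing.injective k'[X] F)]
    exact hd0
  rw [IsFractionRing.mk'_eq_div, map_div₀, div_le_one₀ (zero_lt_iff.2 hdF)] at hx
  have hn : n ∈ w.asIdeal := by
    have h1 : w.valuation F (algebraMap k'[X] F d) < 1 := (w.valuation_lt_one_iff_mem _).2 hd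
    exact (w.valuation_lt_one_iff_mem (K := F) _).1 (hx.trans_lt h1)
  obtain ⟨g, hg⟩ : ∃ g, w.asIdeal = Ideal.span {g} := ⟨_, (Submodule.IsPrincipal.span_singleton_generator w.asIdeal).symm⟩
  rw [hg, Ideal.mem_span_singleton] at hn hd
  have hu : IsUnit g := hnd hn hd
  exact w.isPrime.ne_top (by rw [hg, Ideal.span_singleton_eq_top]; exact hu)

theorem plc_val (φ : k'[X] ≃+* k'[X]) (φF : F →+* F)
    (hφ : ∀ p, φF (algebraMap k'[X] F p) = algebraMap k'[X] F (φ p)) (w : HeightOneSpectrum k'[X]) :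
    (∀ x, (plc φ w).valuation F x ≤ 1 → w.valuation F (φF x) ≤ 1) ∧
    (∀ x, (plc φ w).valuation F x < 1 → w.valuation F (φF x) < 1) := by
  have key : ∀ d : k'[X], d ∉ (plc φ w).asIdeal → w.valuation F (algebraMap k'[X] F (φ d)) = 1 := by
    intro d hd
    exact le_antisymm (w.valuation_le_one _) (not_lt.1 fun h =>
      hd ((w.valuation_lt_one_iff_mem (K := F) _).1 h))
  constructor
  · intro x hx
    obtain ⟨n, d, hd, rfl⟩ := plc_frac _ x hx
    rw [map_div₀, hφ, hφ, map_div₀, key d hd, div_one]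
    exact w.valuation_le_one _
  · intro x hx
    obtain ⟨n, d, hd, rfl⟩ := plc_frac _ x hx.le
    have h1 : (plc φ w).valuation F (algebraMap k'[X] F d) = 1 :=
      le_antisymm ((plc φ w).valuation_le_one _) (not_lt.1 fun h =>
        hd (((plc φ w).valuation_lt_one_iff_mem (K := F) _).1 h))
    rw [map_div₀, h1, div_one, (plc φ w).valuation_lt_one_iff_mem] at hx
    rw [map_div₀, hφ, hφ, map_div₀, key d hd, div_one, w.valuation_lt_one_iff_mem]
    exact hx

end pl

theorem stable_vset {k k' K F : Type} [Field k] [Field k'] [Algebra k k'] [Field K]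
    [Algebra k[X] K] [Field F] [Algebra k'[X] F] [IsFractionRing k'[X] F] [Algebra K F]
    (hT : IsTower k k' K F) (p : k[X] → Prop) :
    Stable K F (VSet (k := k) (k' := k') p) := by
  haveI := hT.sep
  haveI := hT.fracK
  have hKF := hT.map
  intro s w hw
  obtain ⟨s', hs'⟩ := restr (k := k) hKF s
  set φ : k'[X] ≃+* k'[X] := Polynomial.mapEquiv (s' : k' ≃+* k') with hφ
  have hφp : ∀ q, φ q = q.map (s' : k' →+* k') := fun q => rfl
  have hinj : Function.Injective ((algebraMap k'[X] F).comp (φ : k'[X] →+* k'[X])) :=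
    (IsFractionRing.injective k'[X] F).comp φ.injective
  let sF : F →+* F := IsFractionRing.lift hinj
  have hsF : ∀ q, sF (algebraMap k'[X] F q) = algebraMap k'[X] F (φ q) := fun q =>
    IsFractionRing.lift_algebraMap hinj q
  obtain ⟨e1, e2⟩ := plc_val φ sF hsF w
  refine ⟨plc φ w, fun π hπ h => ?_, sF, fun x => ?_, e1, e2⟩
  · have h1 : φ (π.map (algebraMap k k')) ∈ w.asIdeal := h
    rw [hφp, Polynomial.map_map] at h1
    have h2 : (s' : k' →+* k').comp (algebraMap k k') = algebraMap k k' :=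
      RingHom.ext fun c => s'.commutes c
    rw [h2] at h1
    exact hw π hπ h1
  · obtain ⟨n, d, hd, rfl⟩ := IsFractionRing.div_surjective (A := k'[X]) x
    rw [map_div₀, map_div₀, map_div₀, map_div₀, hsF, hsF, hs', hs']
    rfl

end Pool.Agent.K6.H71.PG
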