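import Pool.Agent.K6.H71.PG.Fld2
import Pool.Agent.K6.H71.PG.Pl
import Pool.Agent.TH115.SD.Cpl

/-!
# Towers of quadratic extensions; squares in the completions
-/

set_option autoImplicit false
set_option linter.all false

open Polynomial IsDedekindDomain WeierstrassCurve WeierstrassCurve.Affine
open scoped Classical

namespace Pool.Agent.K6.H71.PG

open Pool.Agent.TH115.GD

/-- `L` is obtained from `K` by adjoining finitely many times a square root. -/
inductive SqTower (K : Type) {Ω : Type} [Field K] [Field Ω] [Algebra K Ω] :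
    IntermediateField K Ω → Prop
  | base : SqTower K ⊥
  | step (L : IntermediateField K Ω) (δ : Ω) : SqTower K L → δ ^ 2 ∈ L →
      SqTower K (L ⊔ IntermediateField.adjoin K {δ})

theorem mem_fix_sup {K Ω : Type} [Field K] [Field Ω] [Algebra K Ω] {L : IntermediateField K Ω}
    {δ : Ω} {τ : Ω ≃ₐ[K] Ω} : τ ∈ (L ⊔ IntermediateField.adjoin K {δ}).fixingSubgroup ↔
      τ ∈ L.fixingSubgroup ∧ τ δ = δ := by
  rw [IntermediateField.fixingSubgroup_sup, Subgroup.mem_inf]
  refine and_congr Iff.rfl ?_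
  rw [IntermediateField.mem_fixingSubgroup_iff]
  constructor
  · intro h
    exact h δ (IntermediateField.mem_adjoin_simple_self K δ)
  · intro h x hx
    refine IntermediateField.adjoin_induction K (p := fun x _ => τ x = x) ?_ ?_ ?_ ?_ ?_ hx
    · intro y hy
      rw [Set.mem_singleton_iff] at hy
      rw [hy, h]
    · intro y
      exact τ.commutes y
    · intro x y _ _ hx hy
      rw [map_add, hx, hy]
    · intro x _ hx
      rw [map_inv₀, hx]
    · intro x y _ _ hx hy
      rw [map_mul, hx, hy]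

section tower

variable {k' K F : Type} [Field k'] [Field K] [Field F] [Algebra K F] [Algebra k'[X] F]
  [IsFractionRing k'[X] F]

theorem Unramified.mono {V : Set (HeightOneSpectrum k'[X])} {L L' : IntermediateField K (Sep F)}
    (h : Unramified V L') (hL : L ≤ L') : Unramified V L :=
  fun v hv ι x hx => h v hv ι x (hL hx)

/-- **The descent for towers.** -/
theorem tower [IsGalois K (Sep F)] {W : WeierstrassCurve K} {V : Set (HeightOneSpectrum k'[X])}
    (h2K : (2 : K) ≠ 0)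
    (hN : Preserves K F (Sep F)) (hV : Stable K F V) (h2 : NT (ac W) (NK K F) ⊤)
    (h : Triv W V (⊤ : Subgroup (Sep F ≃ₐ[K] Sep F))) {L : IntermediateField K (Sep F)}
    (hL : SqTower K L) (hu : Unramified V L) :
    (∃ O : Set (Sep F ≃ₐ[F] Sep F), IsOpen O ∧ 1 ∈ O ∧ ∀ τ ∈ O, rK K F τ ∈ L.fixingSubgroup) ∧
    NT (ac W) (NK K F) L.fixingSubgroup ∧ Triv W V L.fixingSubgroup := by
  induction hL with
  | base =>
    rw [IntermediateField.fixingSubgroup_bot]
    exact ⟨⟨Set.univ, isOpen_univ, trivial, fun _ _ => trivial⟩, h2, h⟩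
  | step L δ hL hδ ih =>
    obtain ⟨⟨O, h1, h3, h4⟩, i1, i2⟩ := ih (hu.mono le_sup_left)
    set U := L.fixingSubgroup with hU
    set U' := (L ⊔ IntermediateField.adjoin K {δ}).fixingSubgroup with hU'
    have hle : U' ≤ U := fun τ hτ => (mem_fix_sup.1 hτ).1
    have hO : ∃ O : Set (Sep F ≃ₐ[F] Sep F), IsOpen O ∧ 1 ∈ O ∧ ∀ τ ∈ O, rK K F τ ∈ U' := by
      exact ⟨O ∩ {σ | σ δ = δ}, h1.inter
        ((Pool.Agent.W309.TD.locConst_apply (K := F) (Ω := Sep F) δ).isOpen_fiber _), ⟨h3, rfl⟩,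
        fun τ hτ => mem_fix_sup.2 ⟨h4 τ hτ.1, hτ.2⟩⟩
    have hpm : ∀ τ ∈ U, τ δ = δ ∨ τ δ = -δ := by
      intro τ hτ
      have h5 := (IntermediateField.mem_fixingSubgroup_iff L τ).1 hτ _ hδ
      rw [map_pow] at h5
      exact sq_eq_sq_iff_eq_or_eq_neg.1 h5
    by_cases hall : ∀ τ ∈ U, τ δ = δ
    · have e : U' = U := le_antisymm hle fun τ hτ => mem_fix_sup.2 ⟨hτ, hall τ hτ⟩
      rw [e]
      exact ⟨by rw [← e]; exact hO, i1, i2⟩
    push Not at hall
    have hδ0 : -δ ≠ δ := by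
      obtain ⟨τ, hτ, hne⟩ := hall
      have h5 := (hpm τ hτ).resolve_left hne
      rwa [h5] at hne
    have dich : ∀ g ∈ U, g δ ≠ δ → ∀ t ∈ U, t ∈ U' ∨ g⁻¹ * t ∈ U' := by
      intro g hg hgδ t ht
      rcases hpm t ht with h5 | h5
      · exact Or.inl (mem_fix_sup.2 ⟨ht, h5⟩)
      · right
        refine mem_fix_sup.2 ⟨U.mul_mem (U.inv_mem hg) ht, ?_⟩
        have h6 := (hpm g hg).resolve_left hgδ
        show g⁻¹ (t δ) = δ
        rw [h5, ← h6]
        exact AlgEquiv.symm_apply_apply g δ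
    have hnot : ∀ g : Sep F ≃ₐ[K] Sep F, g δ ≠ δ → g ∉ U' := fun g hg h5 =>
      hg (mem_fix_sup.1 h5).2
    refine ⟨hO, ?_⟩
    by_cases hgeo : ∃ s : Sep F ≃ₐ[F] Sep F, rK K F s ∈ U ∧ rK K F s δ ≠ δ
    · obtain ⟨s, hs1, hs2⟩ := hgeo
      have hst : Step (NK K F) U U' (rK K F s) :=
        ⟨hle, hs1, rK_mem s, hnot _ hs2, dich _ hs1 hs2⟩
      have hnt := step_nt (ac_isAct (F := F) W) (nk_normal hN) hst i1
      refine ⟨hnt, step_triv hN hst hnt hO ?_ i2⟩
      intro v hv ι τ σ hσ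
      rw [hU', IntermediateField.mem_fixingSubgroup_iff]
      intro x hx
      obtain ⟨y, hy⟩ := hu v hv ι x hx
      have h5 := hσ x
      rw [hy, τ.commutes, ← hy] at h5
      exact (RingHom.injective (ι : Sep F →+* Sep (Comp k'[X] F v)) h5).symm
    · push Not at hgeo
      obtain ⟨s, hs, hsδ⟩ := hall
      have hg : ∀ x ∈ U, x ∈ NK K F → x ∈ U' := by
        rintro x hx ⟨σ, rfl⟩
        exact mem_fix_sup.2 ⟨hx, hgeo σ hx⟩
      refine ⟨fun Q hQ hf => i1 Q hQ fun x hx hxN => hf x (hg x hx hxN) hxN, ?_⟩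
      exact cstep_triv hN hV ⟨hle, hs, trivial, hnot _ hsδ, dich _ hs hsδ⟩ hg i2

end tower

section squares

variable {k' F : Type} [Field k'] [IsSepClosed k'] [Field F] [Algebra k'[X] F]
  [IsFractionRing k'[X] F] (v : HeightOneSpectrum k'[X])

/-- Every polynomial is a square modulo a maximal ideal. -/
theorem quot_sq (h2 : (2 : k') ≠ 0) (u : k'[X]) : ∃ w : k'[X], u - w ^ 2 ∈ v.asIdeal := by
  haveI : v.asIdeal.IsMaximal := v.isMaximal
  letI : Field (k'[X] ⧸ v.asIdeal) := Ideal.Quotient.field _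
  by_cases hu : Ideal.Quotient.mk v.asIdeal u = 0
  · exact ⟨0, by rw [zero_pow two_ne_zero, sub_zero]; exact Ideal.Quotient.eq_zero_iff_mem.1 hu⟩
  obtain ⟨g, hg⟩ : ∃ g, v.asIdeal = Ideal.span {g} :=
    ⟨_, (Submodule.IsPrincipal.span_singleton_generator v.asIdeal).symm⟩
  have hg0 : g ≠ 0 := by
    rintro rfl
    exact v.ne_bot (by rw [hg]; simp)
  haveI : Module.Finite k' (k'[X] ⧸ v.asIdeal) := by
    rw [hg]
    exact (AdjoinRoot.powerBasis hg0).finite
  haveI : Algebra.IsAlgebraic k' (k'[X] ⧸ v.asIdeal) := Algebra.IsAlgebraic.of_finite _ _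
  haveI : IsPurelyInseparable k' (k'[X] ⧸ v.asIdeal) := inferInstance
  obtain ⟨q, hq⟩ := ExpChar.exists k'
  haveI := hq
  obtain ⟨n, c, hc⟩ := IsPurelyInseparable.pow_mem k' q (Ideal.Quotient.mk v.asIdeal u)
  have hodd : Odd (q ^ n) := by
    refine Odd.pow ?_
    rcases hq with _ | hp
    · exact odd_one
    · refine hp.odd_of_ne_two ?_
      rintro rfl
      exact h2 (by exact_mod_cast CharP.cast_eq_zero k' 2)
  haveI : NeZero ((2 : ℕ) : k') := ⟨by exact_mod_cast h2⟩
  obtain ⟨w, hw⟩ := IsSepClosed.exists_pow_nat_eq c 2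
  obtain ⟨m, hm⟩ := hodd
  obtain ⟨W, hW⟩ := Ideal.Quotient.mk_surjective
    (algebraMap k' (k'[X] ⧸ v.asIdeal) w / (Ideal.Quotient.mk v.asIdeal u) ^ m)
  refine ⟨W, ?_⟩
  rw [← Ideal.Quotient.eq_zero_iff_mem, map_sub, map_pow, hW, div_pow, ← map_pow, hw, hc, hm,
    sub_eq_zero, eq_div_iff (pow_ne_zero _ (pow_ne_zero _ hu))]
  ring

/-- Units are squares. -/
theorem unit_sq (h2 : (2 : k') ≠ 0) (x : Comp k'[X] F v) (hx : wv v x = 1) : ∃ y, y ^ 2 = x := by
  have h2F : v.valuation F 2 = 1 := by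
    have e : (2 : F) = algebraMap k'[X] F (C 2) := by rw [map_ofNat, map_ofNat]
    rw [e]
    refine le_antisymm (v.valuation_le_one _) (not_lt.1 fun h => ?_)
    rw [v.valuation_lt_one_iff_mem] at h
    exact v.isPrime.ne_top (Ideal.eq_top_of_isUnit_mem _ h (isUnit_C.2 (isUnit_iff_ne_zero.2 h2)))
  obtain ⟨f, hf⟩ := dense_F v x (g := 1) one_ne_zero
  rw [map_one] at hf
  have hf1 : v.valuation F f = 1 := by
    rw [← wv_coe, ← hx]
    have e : algebraMap F (Comp k'[X] F v) f = x + -(x - algebraMap F (Comp k'[X] F v) f) := by ring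
    rw [e]
    refine Valuation.map_add_eq_of_lt_left (wv v) ?_
    rw [Valuation.map_neg, hx]
    exact hf
  obtain ⟨n, d, hd, rfl⟩ := plc_frac v f hf1.le
  have val1 : ∀ p : k'[X], p ∉ v.asIdeal → v.valuation F (algebraMap k'[X] F p) = 1 := fun p hp =>
    le_antisymm (v.valuation_le_one _) (not_lt.1 fun h => hp ((v.valuation_lt_one_iff_mem _).1 h))
  have hdv := val1 d hd
  have hd0 : algebraMap k'[X] F d ≠ 0 := fun h => by
    rw [h, map_zero] at hdv
    exact zero_ne_one hdv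
  obtain ⟨w, hw⟩ := quot_sq v h2 (n * d)
  have h5 : v.valuation F (algebraMap k'[X] F n / algebraMap k'[X] F d -
      (algebraMap k'[X] F w / algebraMap k'[X] F d) ^ 2) < 1 := by
    have e : algebraMap k'[X] F n / algebraMap k'[X] F d -
      (algebraMap k'[X] F w / algebraMap k'[X] F d) ^ 2 =
        algebraMap k'[X] F (n * d - w ^ 2) / algebraMap k'[X] F d ^ 2 := by
      rw [map_sub, map_mul, map_pow]
      field_simp
    rw [e, map_div₀, map_pow, hdv, one_pow, div_one, v.valuation_lt_one_iff_mem]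
    exact hw
  set y0 : F := algebraMap k'[X] F w / algebraMap k'[X] F d with hy0
  have h6 : wv v (x - algebraMap F (Comp k'[X] F v) (y0 ^ 2)) < 1 := by
    have e : x - algebraMap F (Comp k'[X] F v) (y0 ^ 2) =
        (x - algebraMap F (Comp k'[X] F v) (algebraMap k'[X] F n / algebraMap k'[X] F d)) +
          algebraMap F (Comp k'[X] F v) (algebraMap k'[X] F n / algebraMap k'[X] F d - y0 ^ 2) := by
      rw [map_sub]
      ring
    rw [e]
    refine (Valuation.map_add _ _ _).trans_lt (max_lt hf ?_)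
    rw [wv_coe]
    exact h5
  have h7 : wv v (algebraMap F (Comp k'[X] F v) (y0 ^ 2)) = 1 := by
    rw [← hx]
    have e : algebraMap F (Comp k'[X] F v) (y0 ^ 2) =
        x + -(x - algebraMap F (Comp k'[X] F v) (y0 ^ 2)) := by ring
    rw [e]
    refine Valuation.map_add_eq_of_lt_left (wv v) ?_
    rw [Valuation.map_neg, hx]
    exact h6
  have h8 : algebraMap F (Comp k'[X] F v) (y0 ^ 2) ≠ 0 := fun h => by
    rw [h, map_zero] at h7
    exact zero_ne_one h7
  obtain ⟨z, hz, -⟩ := sqrt_one v h2F (x / algebraMap F (Comp k'[X] F v) (y0 ^ 2)) (by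
    rw [div_sub_one h8, map_div₀, h7, div_one]
    exact h6)
  refine ⟨z * algebraMap F (Comp k'[X] F v) y0, ?_⟩
  rw [mul_pow, hz, ← map_pow, div_mul_cancel₀ _ h8]

end squares

end Pool.Agent.K6.H71.PG
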