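import Pool.Agent.K6.H71.PG.Tw
import Pool.Agent.K6.H71.PG.Fld2
import Pool.Agent.K6.H71.PG.Pl
import Pool.Agent.K6.H71.PG.Tower

/-!
# The Tate conjecture at two over the extensions whose Galois closure has degree a power of two
-/

set_option autoImplicit false
set_option linter.all false

open Polynomial IsDedekindDomain WeierstrassCurve WeierstrassCurve.Affine
open scoped Classical

namespace Pool.Agent.K6.H71.PG

open Pool.Agent.TH115.GD Pool.Agent.K6.H71.MQ

variable {k k' K F : Type} [Field k] [Field k'] [Algebra k k'] [Field K] [Algebra k[X] K]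
  [Field F] [Algebra k'[X] F] [IsFractionRing k'[X] F] [Algebra K F]

theorem setup (hT : IsTower k k' K F) (h2 : (2 : k) ≠ 0) {a2 a4 a6 D : k[X]}
    (hB : IsBranch a2 a4 a6) (hD : InertTwist a2 a4 a6 D) :
    IsGalois K (Sep F) ∧ (2 : K) ≠ 0 ∧ Preserves K F (Sep F) ∧
    (∀ X : Pt (twc K a2 a4 a6 D) (Sep F), ∃ Y, Y + Y = X) ∧
    NT (ac (F := F) (twc K a2 a4 a6 D)) (NK K F) ⊤ := by
  haveI := hT.sep
  haveI := hT.fracK
  haveI : IsGalois k k' := inferInstance
  have hKF := hT.map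
  haveI : IsSepClosure K (Sep F) := sepKΩ hKF
  haveI : Algebra.IsSeparable K (Sep F) := IsSepClosure.separable
  haveI : IsGalois K (Sep F) := inferInstance
  haveI : IsSepClosed (Sep F) := IsSepClosure.sep_closed K
  have h2K : (2 : K) ≠ 0 := tt h2
  have hPr : Preserves K F (Sep F) := preserves hKF
  set W := twc K a2 a4 a6 D with hW
  have hΔ : W.Δ ≠ 0 := disc_tw hB.disc hD.1
  have hDK : algebraMap k[X] K D ≠ 0 := by
    rw [Ne, map_eq_zero_iff _ (IsFractionRing.injective k[X] K)]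
    exact hD.1
  have hnr : ∀ x : F, cub W x ≠ 0 := no_root hKF hDK (hB.irreducible k')
  obtain ⟨a, ha⟩ : ∃ a : Sep F, cub W a = 0 := by
    obtain ⟨a, ha⟩ := IsSepClosed.exists_aeval_eq_zero (Sep F) (cubP W K)
      (by
        obtain ⟨h1, h3⟩ := cubP_deg (W := W) (F := K)
        rw [degree_eq_natDegree h3.ne_zero, h1]
        norm_num) (cubP_sep rfl rfl hΔ)
    refine ⟨a, ?_⟩
    rw [← ha]
    simp [cubP, cub]
  obtain ⟨b, c, hC⟩ := exists_isC (W := W) rfl rfl hΔ h2K ha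
  haveI : IsGalois F (Sep F) := inferInstance
  refine ⟨inferInstance, h2K, hPr, fun X => halveC hC X, ?_⟩
  intro Q hQ hf
  exact no_two hC hnr hQ fun σ => hf (rK K F σ) trivial (rK_mem σ)

/-- Subextensions of Galois extensions whose degree is a power of two. -/
theorem mainPG (hT : IsTower k k' K F) (h2 : (2 : k) ≠ 0) {a2 a4 a6 D : k[X]}
    (hB : IsBranch a2 a4 a6) (hD : InertTwist a2 a4 a6 D) {N L : IntermediateField K (Sep F)}
    [IsGalois K N] [FiniteDimensional K N] {e : ℕ} (hd : Module.finrank K N = 2 ^ e)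
    (hu : Unramified (VSet (k := k) (k' := k') (IsInert a2 a4 a6)) N) (hL : L ≤ N) :
    TateAtTwoOver (twc K a2 a4 a6 D) L k' ∧ TwoDivisible (twc K a2 a4 a6 D) L := by
  obtain ⟨hG, h2K, hPr, hdiv, hnt⟩ := setup hT h2 hB hD
  haveI := hG
  obtain ⟨h3, h4⟩ := fld2 hPr (stable_vset hT (IsInert a2 a4 a6)) hnt
    (trivTw hT h2 hB hD) hd hu hL
  exact ⟨tate_of hdiv hPr h3 h4, two_div hdiv hPr h3 h4⟩

/-- Towers of quadratic extensions. -/
theorem mainT (hT : IsTower k k' K F) (h2 : (2 : k) ≠ 0) {a2 a4 a6 D : k[X]}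
    (hB : IsBranch a2 a4 a6) (hD : InertTwist a2 a4 a6 D) {L : IntermediateField K (Sep F)}
    (hL : SqTower K L) (hu : Unramified (VSet (k := k) (k' := k') (IsInert a2 a4 a6)) L) :
    TateAtTwoOver (twc K a2 a4 a6 D) L k' ∧ TwoDivisible (twc K a2 a4 a6 D) L := by
  obtain ⟨hG, h2K, hPr, hdiv, hnt⟩ := setup hT h2 hB hD
  haveI := hG
  obtain ⟨-, h3, h4⟩ := tower h2K hPr (stable_vset hT (IsInert a2 a4 a6)) hnt
    (trivTw hT h2 hB hD) hL hu
  exact ⟨tate_of hdiv hPr h3 h4, two_div hdiv hPr h3 h4⟩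

end Pool.Agent.K6.H71.PG
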