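import Pool.Agent.K6.H71.PG.Graph

/-!
# Branch curves with odd class number
-/

set_option autoImplicit false
set_option linter.all false

open Polynomial
open scoped Classical nonZeroDivisors

namespace Pool.Agent.K6.H71.PG

/-- The branch curve `x ^ 3 + a2 x ^ 2 + a4 x + a6 = 0` over `k` is smooth and absolutely irreducible, the
polynomial is separable in `x`, the coordinate ring `R` has no units besides the constants and its class
number is odd. -/
structure IsOddBranch {k : Type} [Field k] (a2 a4 a6 : k[X]) : Prop where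
  smooth : Pool.Agent.TH115.GD.SmoothC a2 a4 a6
  disc : (⟨0, a2, 0, a4, a6⟩ : WeierstrassCurve k[X]).Δ ≠ 0
  irreducible : ∀ (k' : Type) [Field k'] [Algebra k k'],
    Irreducible ((cubT a2 a4 a6).map (mapRingHom (algebraMap k k')))
  dedekind : IsDedekindDomain (BR a2 a4 a6)
  odd : ∀ [IsDomain (BR a2 a4 a6)], Odd (Nat.card (ClassGroup (BR a2 a4 a6)))
  units : ∀ u : (BR a2 a4 a6)ˣ, ∃ c : k, (u : BR a2 a4 a6) = algebraMap k (BR a2 a4 a6) c

theorem principal_of_odd {R : Type} [CommRing R] [IsDedekindDomain R]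
    (h : Odd (Nat.card (ClassGroup R))) (I : Ideal R) (hI : (I ^ 2).IsPrincipal) :
    I.IsPrincipal := by
  by_cases h0 : I = ⊥
  · rw [h0]
    exact ⟨0, by simp⟩
  have hI0 : I ∈ (Ideal R)⁰ := mem_nonZeroDivisors_iff_ne_zero.2 h0
  have h1 : ClassGroup.mk0 ⟨I, hI0⟩ ^ 2 = 1 := by
    rw [← map_pow]
    exact (ClassGroup.mk0_eq_one_iff _).2 hI
  have h2 : orderOf (ClassGroup.mk0 ⟨I, hI0⟩) ∣ 2 := orderOf_dvd_of_pow_eq_one h1
  have h3 : orderOf (ClassGroup.mk0 ⟨I, hI0⟩) ∣ Nat.card (ClassGroup R) := orderOf_dvd_natCard _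
  have h4 : orderOf (ClassGroup.mk0 ⟨I, hI0⟩) ∣ 1 := by
    have := Nat.dvd_gcd h2 h3
    rwa [Nat.Coprime.gcd_eq_one (Nat.coprime_two_left.2 h)] at this
  exact (ClassGroup.mk0_eq_one_iff hI0).1 (orderOf_eq_one_iff.1 (Nat.dvd_one.1 h4))

theorem IsOddBranch.isBranch {k : Type} [Field k] {a2 a4 a6 : k[X]} (h : IsOddBranch a2 a4 a6) :
    IsBranch a2 a4 a6 := by
  haveI := h.dedekind
  exact ⟨h.smooth, h.disc, h.irreducible, h.dedekind, fun I hI => principal_of_odd h.odd I hI,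
    h.units⟩

theorem isOddBranch_graph {k : Type} [Field k] (α2 α4 α6 : k) (h2 : (2 : k) ≠ 0)
    (hg : derivative (cubT α2 α4 α6) ≠ 0) : IsOddBranch (C α2) (C α4) (C α6 - X) := by
  have h := isBranch_graph α2 α4 α6 h2 hg
  refine ⟨h.smooth, h.disc, h.irreducible, h.dedekind, ?_, h.units⟩
  intro hd
  haveI : IsPrincipalIdealRing (BR (C α2) (C α4) (C α6 - X)) :=
    IsPrincipalIdealRing.of_surjective (lineEquiv α2 α4 α6).symm.toRingHom
      (lineEquiv α2 α4 α6).symm.surjective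
  have : Subsingleton (ClassGroup (BR (C α2) (C α4) (C α6 - X))) := inferInstance
  rw [Nat.card_of_subsingleton (1 : ClassGroup (BR (C α2) (C α4) (C α6 - X)))]
  exact odd_one

end Pool.Agent.K6.H71.PG
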