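import Pool.Agent.K6.H71.PG.Div

/-!
# Divisibility of the rational points by two
-/

set_option autoImplicit false

open Polynomial IsDedekindDomain WeierstrassCurve WeierstrassCurve.Affine
open scoped Classical

namespace Pool.Agent.K6.H71.PG

open Pool.Agent.TH115.GD Pool.Agent.K6.H71.MQ

/-- All the points of `W(M)` are divisible by two. -/
def TwoDivisible {K : Type} [Field K] (W : WeierstrassCurve K) (M : Type) [Field M] [Algebra K M] :
    Prop := ∀ P : Pt W M, ∃ Q : Pt W M, Q + Q = P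

theorem twoDiv_of {K M Ω : Type} [Field K] [Field M] [Field Ω] [Algebra K M] [Algebra K Ω]
    {W : WeierstrassCurve K} (v : M →ₐ[K] Ω)
    (h : ∀ P : Pt W M, ∃ (R0 : Pt W M) (R : Pt W Ω), act W v R0 = R ∧ R + R = act W v P) :
    TwoDivisible W M := by
  intro P
  obtain ⟨R0, R, h1, h2⟩ := h P
  refine ⟨R0, act_inj W v ?_⟩
  rw [map_add, h1, h2]

section pts

variable {k' K F : Type} [Field k'] [Field K] [Field F] [Algebra K F] [Algebra k'[X] F]
  [IsFractionRing k'[X] F] {W : WeierstrassCurve K} {V : Set (HeightOneSpectrum k'[X])}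
  {L : IntermediateField K (Sep F)}

omit [Field k'] [Algebra k'[X] F] [IsFractionRing k'[X] F] in
theorem pt_of_fixed [IsGalois K (Sep F)] (Q : Pt W (Sep F))
    (h : ∀ τ : Sep F ≃ₐ[K] Sep F, (∀ x ∈ L, τ x = x) → act W (ak τ) Q = Q) :
    ∃ Q0 : Pt W L, act W L.val Q0 = Q := by
  have mem : ∀ x : Sep F, (∀ τ : Sep F ≃ₐ[K] Sep F, (∀ x ∈ L, τ x = x) → τ x = x) → x ∈ L := by
    intro x hx
    rw [← InfiniteGalois.fixedField_fixingSubgroup L, IntermediateField.mem_fixedField_iff]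
    intro τ hτ
    rw [IntermediateField.mem_fixingSubgroup_iff] at hτ
    exact hx τ hτ
  rcases Q with _ | ⟨x, y, hxy⟩
  · exact ⟨0, rfl⟩
  · have hx : x ∈ L := mem x fun τ hτ => by
      have := h τ hτ
      obtain ⟨h1, hh⟩ := act_some W (ak τ) hxy
      rw [hh] at this
      exact (Point.some.inj this).1
    have hy : y ∈ L := mem y fun τ hτ => by
      have := h τ hτ
      obtain ⟨h1, hh⟩ := act_some W (ak τ) hxy
      rw [hh] at this
      exact (Point.some.inj this).2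
    have hxy' : (W.baseChange L).toAffine.Nonsingular (⟨x, hx⟩ : L) (⟨y, hy⟩ : L) :=
      (W.toAffine.baseChange_nonsingular L.val.injective ⟨x, hx⟩ ⟨y, hy⟩).1 hxy
    exact ⟨Point.some _ _ hxy', rfl⟩

theorem two_div [IsGalois K (Sep F)] (hdiv : ∀ X : Pt W (Sep F), ∃ Y, Y + Y = X)
    (hN : Preserves K F (Sep F))
    (hnt : NT (ac W) (NK K F) L.fixingSubgroup) (ht : Triv W V L.fixingSubgroup)
    : TwoDivisible W L := by
  refine twoDiv_of L.val fun P0 => ?_
  obtain ⟨H, hH⟩ := hdiv (act W L.val P0)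
  have fixP : ∀ τ : Sep F ≃ₐ[K] Sep F, (∀ x ∈ L, τ x = x) →
      act W (ak τ) (act W L.val P0) = act W L.val P0 := by
    intro τ hτ
    have e : (ak τ).comp L.val = L.val := AlgHom.ext fun x => hτ x x.2
    rw [act_act, e]
  have fixσ : ∀ σ : Sep F ≃ₐ[F] Sep F, Over L σ →
      act W (rs K σ) (act W L.val P0) = act W L.val P0 := fun σ hσ => fixP (rK K F σ) hσ
  have hcoc := cob_isCoc W (F := F) H
  have comm : ∀ (τ : Sep F ≃ₐ[K] Sep F) (σ σ' : Sep F ≃ₐ[F] Sep F), (∀ x, τ (σ' x) = σ (τ x)) →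
      ∀ P, act W (ak τ) (act W (rs K σ') P) = act W (rs K σ) (act W (ak τ) P) := by
    intro τ σ σ' h P
    have e0 : (ak τ).comp (rs K σ') = (rs K σ).comp (ak τ) := AlgHom.ext fun x => h x
    rw [act_act, act_act, e0]
  have hcls : Cls W V L.fixingSubgroup (lf (K := K) fun σ : Sep F ≃ₐ[F] Sep F =>
      act W (rs K σ) H - H) := by
    refine cls_of ⟨fun σ _ => ?_, fun σ τ _ _ => hcoc.mul σ τ⟩ (fun σ hσ => ?_) (fun v _ ι => ?_) hN
      (fun τ hτ => ?_)
    · exact ⟨_, hcoc.lc.isOpen_fiber _, rfl, fun τ hτ _ => hτ⟩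
    · rw [sub_add_sub_comm, ← map_add, hH, fixσ σ hσ, sub_self]
    · refine ⟨act W (ι.restrictScalars K) H, fun τ σ _ h => ?_⟩
      have e0 : (ι.restrictScalars K).comp (rs K σ) = (rs K τ).comp (ι.restrictScalars K) :=
        AlgHom.ext fun x => (h x).symm
      rw [map_sub, act_act, e0, ← act_act]
    · refine ⟨act W (ak τ) H - H, ?_, fun σ σ' _ _ h => ?_⟩
      · rw [sub_add_sub_comm, ← map_add, hH, fixP τ hτ, sub_self]
      · rw [map_sub, comm τ σ σ' h, map_sub]
        abel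
  obtain ⟨Q, hQ, h⟩ := ht _ hcls
  have h1 : ∀ σ : Sep F ≃ₐ[F] Sep F, Over L σ → act W (rs K σ) (H - Q) = H - Q := by
    intro σ hσ
    have h3 := h _ ((over_iff σ).2 hσ) (rK_mem σ)
    rw [lf_apply] at h3
    have h4 : act W (rs K σ) H - H = act W (rs K σ) Q - Q := h3
    rw [map_sub, ← sub_eq_zero]
    rw [← sub_eq_zero] at h4
    rw [← h4]
    abel
  obtain ⟨R0, hR0⟩ := pt_of_fixed (L := L) (H - Q) fun τ hτ => by
    have h3 : act W (ak τ) (H - Q) - (H - Q) = 0 := by
      refine no_pow' hnt 1 _ ?_ fun σ hσ => ?_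
      · have e : act W (ak τ) (H - Q) - (H - Q) + (act W (ak τ) (H - Q) - (H - Q)) =
            (act W (ak τ) (H + H) - (H + H)) - (act W (ak τ) (Q + Q) - (Q + Q)) := by
          simp only [map_sub, map_add]
          abel
        rw [pow_one, two_nsmul, e, hH, hQ, fixP τ hτ]
        simp
      · obtain ⟨σ', hσ'⟩ := exists_conj hN τ σ
        have hov : Over L σ' := fun x hx => by
          apply τ.injective
          rw [hσ', hτ x hx, hσ x hx]
        rw [map_sub, ← comm τ σ σ' hσ', h1 σ' hov, h1 σ hσ]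
    exact sub_eq_zero.1 h3
  refine ⟨R0, H - Q, hR0, ?_⟩
  rw [sub_add_sub_comm, hH, hQ, sub_zero]

end pts

end Pool.Agent.K6.H71.PG
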