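import Pool.Agent.K6.H71.PG.Base
import Pool.Agent.K6.H71.PG.Cl

/-!
# The branch curve
-/

set_option autoImplicit false
set_option linter.all false

open Polynomial IsDedekindDomain WeierstrassCurve WeierstrassCurve.Affine WithZero
open scoped Classical nonZeroDivisors

namespace Pool.Agent.K6.H71.PG

open Pool.Agent.TH115.GD

section mono

variable {k' K F : Type} [Field k'] [Field K] [Field F] [Algebra K F] [Algebra k'[X] F]
  [IsFractionRing k'[X] F] {W : WeierstrassCurve K}

theorem triv_mono {V V' : Set (HeightOneSpectrum k'[X])} (hV : V ⊆ V')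
    {U : Subgroup (Sep F ≃ₐ[K] Sep F)} (h : Triv W V U) : Triv W V' U :=
  fun f hf => h f ⟨hf.coc, hf.cont, fun v hv => hf.loc v (hV hv)⟩

end mono

section sm

variable {k k' K F : Type} [Field k] [Field k'] [Algebra k k'] [Field K] [Algebra k[X] K]
  [Field F] [Algebra k'[X] F] [IsFractionRing k'[X] F] [Algebra K F]

/-- Local smoothness of the twist. -/
theorem locSm_tw (hKF : ∀ p : k[X], algebraMap K F (algebraMap k[X] K p) =
      algebraMap k'[X] F (p.map (algebraMap k k'))) {a2 a4 a6 D : k[X]} (hS : SmoothC a2 a4 a6)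
    (v : HeightOneSpectrum k'[X]) (hD : D.map (algebraMap k k') ∉ v.asIdeal) :
    LocSm (F := F) (crvC (algebraMap k[X] K (D * a2)) (algebraMap k[X] K (D ^ 2 * a4))
      (algebraMap k[X] K (D ^ 3 * a6))) v := by
  intro x vL hvL hx h1 h3
  have vx : ∀ x : F, vL (algebraMap F (Comp k'[X] F v) x) = v.valuation F x := fun x => by
    rw [hvL]
    exact HeightOneSpectrum.valuedAdicCompletion_eq_valuation' v x
  set d : Comp k'[X] F v := algebraMap K (Comp k'[X] F v) (algebraMap k[X] K D) with hd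
  have hd1 : vL d = 1 := by
    rw [hd, IsScalarTower.algebraMap_apply K F (Comp k'[X] F v), hKF, vx, v.valuation_of_algebraMap,
      v.intValuation_eq_one_iff]
    exact hD
  have hd0 : d ≠ 0 := by
    intro h
    rw [h, map_zero] at hd1
    exact zero_ne_one hd1
  set y := x / d with hy
  have hxy : x = d * y := by
    rw [hy]
    field_simp
  have e1 : cub (crvC (algebraMap k[X] K (D * a2)) (algebraMap k[X] K (D ^ 2 * a4))
      (algebraMap k[X] K (D ^ 3 * a6))) x = d ^ 3 *
      cub (crvC (algebraMap k[X] K a2) (algebraMap k[X] K a4) (algebraMap k[X] K a6)) y := by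
    have := cub_tw (L := Comp k'[X] F v) (algebraMap k[X] K a2) (algebraMap k[X] K a4)
      (algebraMap k[X] K a6) (algebraMap k[X] K D) y
    rw [← this, hxy, map_mul, map_mul, map_mul, map_pow, map_pow]
  have e2 : cub' (crvC (algebraMap k[X] K (D * a2)) (algebraMap k[X] K (D ^ 2 * a4))
      (algebraMap k[X] K (D ^ 3 * a6))) x = d ^ 2 *
      cub' (crvC (algebraMap k[X] K a2) (algebraMap k[X] K a4) (algebraMap k[X] K a6)) y := by
    have := cub'_tw (L := Comp k'[X] F v) (algebraMap k[X] K a2) (algebraMap k[X] K a4)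
      (algebraMap k[X] K a6) (algebraMap k[X] K D) y
    rw [← this, hxy, map_mul, map_mul, map_mul, map_pow, map_pow]
  have hy1 : vL y ≤ 1 := by
    rw [hy, map_div₀, hd1, div_one]
    exact hx
  rw [e1, map_mul, map_pow, hd1, one_pow, one_mul] at h1 ⊢
  rw [e2, map_mul, map_pow, hd1, one_pow, one_mul] at h3
  exact hsm_of hKF hS v y vL hvL hy1 h1 h3

end sm

section main

variable {k : Type} [Field k]

/-- The polynomial `x ^ 3 + a2 x ^ 2 + a4 x + a6` in `x` over `k[t]`. -/
noncomputable def cubT {R : Type} [CommRing R] (a2 a4 a6 : R) : R[X] :=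
  X ^ 3 + C a2 * X ^ 2 + C a4 * X + C a6

theorem cubT_deg {R : Type} [CommRing R] [Nontrivial R] (a2 a4 a6 : R) :
    (cubT a2 a4 a6).natDegree = 3 ∧ (cubT a2 a4 a6).Monic := by
  have h1 : (cubT a2 a4 a6).natDegree = 3 := by
    unfold cubT
    compute_degree!
  refine ⟨h1, ?_⟩
  rw [Monic, leadingCoeff, h1]
  unfold cubT
  simp [coeff_X, coeff_C]

theorem cubT_map {R S : Type} [CommRing R] [CommRing S] (φ : R →+* S) (a2 a4 a6 : R) :
    (cubT a2 a4 a6).map φ = cubT (φ a2) (φ a4) (φ a6) := by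
  simp [cubT]

/-- The ring `k[t, x] / (x ^ 3 + a2 x ^ 2 + a4 x + a6)`. -/
abbrev BR (a2 a4 a6 : k[X]) : Type := AdjoinRoot (cubT a2 a4 a6)

/-- The branch curve `x ^ 3 + a2 x ^ 2 + a4 x + a6 = 0` over `k` is smooth and absolutely irreducible, the
polynomial is separable in `x`, the coordinate ring has no units besides the constants and no ideal
classes of order two. -/
structure IsBranch (a2 a4 a6 : k[X]) : Prop where
  smooth : SmoothC a2 a4 a6
  disc : (⟨0, a2, 0, a4, a6⟩ : WeierstrassCurve k[X]).Δ ≠ 0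
  irreducible : ∀ (k' : Type) [Field k'] [Algebra k k'],
    Irreducible ((cubT a2 a4 a6).map (mapRingHom (algebraMap k k')))
  dedekind : IsDedekindDomain (BR a2 a4 a6)
  ideals : ∀ I : Ideal (BR a2 a4 a6), (I ^ 2).IsPrincipal → I.IsPrincipal
  units : ∀ u : (BR a2 a4 a6)ˣ, ∃ c : k, (u : BR a2 a4 a6) = algebraMap k (BR a2 a4 a6) c

/-- The prime `π` of `k[t]` is inert in the branch curve. -/
def IsInert (a2 a4 a6 π : k[X]) : Prop :=
  Irreducible π ∧ Irreducible ((cubT a2 a4 a6).map (AdjoinRoot.mk π))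

theorem isPrime_map_adj {A : Type} [CommRing A] (I : Ideal A) (f : A[X])
    (h : (Ideal.span {f.map (Ideal.Quotient.mk I)}).IsPrime) :
    (I.map (AdjoinRoot.of f)).IsPrime := by
  have e := AdjoinRoot.quotAdjoinRootEquivQuotPolynomialQuot I f
  rw [← Ideal.Quotient.isDomain_iff_prime]
  haveI : IsDomain (((A ⧸ I)[X]) ⧸ Ideal.span {f.map (Ideal.Quotient.mk I)}) :=
    (Ideal.Quotient.isDomain_iff_prime _).2 h
  exact e.toMulEquiv.isDomain _

theorem inertP_of {a2 a4 a6 π : k[X]} (h : IsInert a2 a4 a6 π) : InertP (k := k) (BR a2 a4 a6) π := by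
  refine ⟨h.1, ?_⟩
  haveI : Fact (Irreducible π) := ⟨h.1⟩
  have hm : (Ideal.span {(cubT a2 a4 a6).map (AdjoinRoot.mk π)}).IsMaximal :=
    PrincipalIdealRing.isMaximal_of_irreducible h.2
  exact isPrime_map_adj _ _ hm.isPrime

end main

end Pool.Agent.K6.H71.PG
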