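import Pool.Agent.K6.H71.PG.Ring

/-!
# The twists of the branch curve: classes of order two over `k(t)`
-/

set_option autoImplicit false
set_option linter.all false

open Polynomial IsDedekindDomain WeierstrassCurve WeierstrassCurve.Affine WithZero
open scoped Classical nonZeroDivisors

namespace Pool.Agent.K6.H71.PG

open Pool.Agent.TH115.GD

section top

variable {k K N : Type} [Field k] [Field K] [Algebra k[X] K] [Field N] [Algebra K N]
  [Algebra k[X] N] [IsScalarTower k[X] K N] {a2 a4 a6 : k[X]} [Algebra (BR a2 a4 a6) N]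
  [IsScalarTower k[X] (BR a2 a4 a6) N]

theorem root_cub : cub (crvC (algebraMap k[X] K a2) (algebraMap k[X] K a4)
      (algebraMap k[X] K a6)) (algebraMap (BR a2 a4 a6) N (AdjoinRoot.root _)) = 0 := by
  have h1 : aeval (AdjoinRoot.root (cubT a2 a4 a6)) (cubT a2 a4 a6) = 0 := by
    rw [AdjoinRoot.aeval_eq, AdjoinRoot.mk_self]
  have h2 := congrArg (algebraMap (BR a2 a4 a6) N) h1
  rw [map_zero, ← aeval_algebraMap_apply] at h2
  rw [← h2]
  simp only [cub, crvC, cubT, map_add, map_mul, map_pow, aeval_X, aeval_C]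
  rw [IsScalarTower.algebraMap_apply k[X] K N, IsScalarTower.algebraMap_apply k[X] K N,
    IsScalarTower.algebraMap_apply k[X] K N]

theorem adj_top [IsDomain (BR a2 a4 a6)] [IsFractionRing (BR a2 a4 a6) N] :
    IntermediateField.adjoin K {algebraMap (BR a2 a4 a6) N (AdjoinRoot.root _)} = ⊤ := by
  rw [eq_top_iff]
  intro x _
  set S := IntermediateField.adjoin K {algebraMap (BR a2 a4 a6) N (AdjoinRoot.root _)} with hS
  have key : ∀ p : BR a2 a4 a6, algebraMap (BR a2 a4 a6) N p ∈ S := by
    intro p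
    obtain ⟨P, rfl⟩ := AdjoinRoot.mk_surjective p
    rw [← AdjoinRoot.aeval_eq, ← aeval_algebraMap_apply, aeval_eq_sum_range]
    refine sum_mem fun i _ => ?_
    rw [Algebra.smul_def, IsScalarTower.algebraMap_apply k[X] K N]
    exact mul_mem (S.algebraMap_mem _) (pow_mem (IntermediateField.mem_adjoin_simple_self K _) i)
  obtain ⟨p, q, hq, rfl⟩ := IsFractionRing.div_surjective (A := BR a2 a4 a6) x
  exact div_mem (key p) (key q)

end top

section nr

variable {k k' K F : Type} [Field k] [Field k'] [Algebra k k'] [Field K] [Algebra k[X] K]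
  [Field F] [Algebra k'[X] F] [IsFractionRing k'[X] F] [Algebra K F]

theorem no_root (hKF : ∀ p : k[X], algebraMap K F (algebraMap k[X] K p) =
      algebraMap k'[X] F (p.map (algebraMap k k'))) {a2 a4 a6 D : k[X]}
    (hD : algebraMap k[X] K D ≠ 0)
    (hirr : Irreducible ((cubT a2 a4 a6).map (mapRingHom (algebraMap k k')))) (x : F) :
    cub (crvC (algebraMap k[X] K (D * a2)) (algebraMap k[X] K (D ^ 2 * a4))
      (algebraMap k[X] K (D ^ 3 * a6))) x ≠ 0 := by
  intro hx
  set d : F := algebraMap K F (algebraMap k[X] K D) with hd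
  have hd0 : d ≠ 0 := (_root_.map_ne_zero _).2 hD
  set y := x / d with hy
  have hxy : x = d * y := by
    rw [hy]
    field_simp
  have e1 : cub (crvC (algebraMap k[X] K (D * a2)) (algebraMap k[X] K (D ^ 2 * a4))
      (algebraMap k[X] K (D ^ 3 * a6))) x = d ^ 3 *
      cub (crvC (algebraMap k[X] K a2) (algebraMap k[X] K a4) (algebraMap k[X] K a6)) y := by
    have := cub_tw (L := F) (algebraMap k[X] K a2) (algebraMap k[X] K a4)
      (algebraMap k[X] K a6) (algebraMap k[X] K D) y
    rw [← this, hxy, map_mul, map_mul, map_mul, map_pow, map_pow]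
  rw [e1] at hx
  have hy0 := (mul_eq_zero.1 hx).resolve_left (pow_ne_zero _ hd0)
  set f := (cubT a2 a4 a6).map (mapRingHom (algebraMap k k')) with hf
  have hfm : f.Monic := (cubT_deg a2 a4 a6).2.map _
  have hfd : f.natDegree = 3 := by
    rw [hf, (cubT_deg a2 a4 a6).2.natDegree_map, (cubT_deg a2 a4 a6).1]
  have hyf : aeval y f = 0 := by
    rw [hf, cubT_map, cubT]
    simp only [cub, crvC, map_add, map_mul, map_pow, aeval_X, aeval_C, coe_mapRingHom] at hy0 ⊢
    rw [hKF, hKF, hKF] at hy0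
    exact hy0
  have hint : IsIntegral k'[X] y := ⟨f, hfm, hyf⟩
  obtain ⟨p, hp⟩ := IsIntegrallyClosed.isIntegral_iff.1 hint
  have hroot : f.IsRoot p := by
    rw [← hp, aeval_algebraMap_apply, map_eq_zero_iff _ (IsFractionRing.injective k'[X] F)] at hyf
    exact hyf
  obtain ⟨g, hg⟩ := dvd_iff_isRoot.2 hroot
  rcases hirr.isUnit_or_isUnit hg with h | h
  · have := congrArg natDegree ((monic_X_sub_C p).isUnit_iff.1 h)
    rw [natDegree_X_sub_C, natDegree_one] at this
    exact one_ne_zero this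
  · have h1 : g.natDegree = 0 := natDegree_eq_zero_of_isUnit h
    have h2 := congrArg natDegree hg
    rw [hfd, (monic_X_sub_C p).natDegree_mul' (by
      rintro rfl
      exact not_isUnit_zero h), natDegree_X_sub_C, h1] at h2
    omega

end nr

section main

variable {k k' K F : Type} [Field k] [Field k'] [Algebra k k'] [Field K] [Algebra k[X] K]
  [Field F] [Algebra k'[X] F] [IsFractionRing k'[X] F] [Algebra K F]

/-- The polynomial `D` is nonzero and all its prime factors are inert in the branch curve. -/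
def InertTwist (a2 a4 a6 D : k[X]) : Prop :=
  D ≠ 0 ∧ ∀ π : k[X], Irreducible π → π ∣ D → IsInert a2 a4 a6 π

/-- The curve `y ^ 2 = x ^ 3 + D a2 x ^ 2 + D ^ 2 a4 x + D ^ 3 a6` over `k(t)`. -/
noncomputable abbrev twc (K : Type) [Field K] [Algebra k[X] K] (a2 a4 a6 D : k[X]) : WeierstrassCurve K :=
  crvC (algebraMap k[X] K (D * a2)) (algebraMap k[X] K (D ^ 2 * a4)) (algebraMap k[X] K (D ^ 3 * a6))

theorem disc_tw [IsFractionRing k[X] K] {a2 a4 a6 D : k[X]}
    (hΔ : (⟨0, a2, 0, a4, a6⟩ : WeierstrassCurve k[X]).Δ ≠ 0) (hD : D ≠ 0) :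
    (twc K a2 a4 a6 D).Δ ≠ 0 := by
  have e : (twc K a2 a4 a6 D).Δ =
      algebraMap k[X] K (D ^ 6 * (⟨0, a2, 0, a4, a6⟩ : WeierstrassCurve k[X]).Δ) := by
    simp only [twc, crvC, WeierstrassCurve.Δ, WeierstrassCurve.b₂, WeierstrassCurve.b₄,
      WeierstrassCurve.b₆, WeierstrassCurve.b₈, map_add, map_sub, map_mul, map_neg, map_pow,
      map_zero, map_ofNat]
    ring
  rw [e, Ne, map_eq_zero_iff _ (IsFractionRing.injective k[X] K)]
  exact mul_ne_zero (pow_ne_zero _ hD) hΔ

theorem twist_notMem {p : k[X] → Prop} {D : k[X]} (hD : D ≠ 0)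
    (h : ∀ π : k[X], Irreducible π → π ∣ D → p π) {v : HeightOneSpectrum k'[X]}
    (hv : v ∈ VSet (k := k) (k' := k') p) : D.map (algebraMap k k') ∉ v.asIdeal := by
  induction D using WfDvdMonoid.induction_on_irreducible with
  | zero => exact absurd rfl hD
  | unit u hu =>
    intro hm
    exact v.isPrime.ne_top (Ideal.eq_top_of_isUnit_mem _ hm (hu.map (mapRingHom (algebraMap k k'))))
  | mul a i ha hi ih =>
    intro hm
    rw [Polynomial.map_mul] at hm
    rcases v.isPrime.mem_or_mem hm with h1 | h1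
    · exact hv i (h i hi (dvd_mul_right _ _)) h1
    · exact ih ha (fun π hπ hd => h π hπ (hd.mul_left _)) h1

/-- Triviality of the classes over `k(t)` for the twists. -/
theorem trivTw (hT : IsTower k k' K F) (h2 : (2 : k) ≠ 0) {a2 a4 a6 D : k[X]}
    (hB : IsBranch a2 a4 a6) (hD : InertTwist a2 a4 a6 D) :
    Triv (twc K a2 a4 a6 D) (VSet (k := k) (k' := k') (IsInert a2 a4 a6))
      (⊤ : Subgroup (Sep F ≃ₐ[K] Sep F)) := by
  haveI := hT.sep
  haveI := hT.fracK
  haveI := hB.dedekind
  haveI : IsGalois k k' := inferInstance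
  have hKF := hT.map
  haveI : IsSepClosure K (Sep F) := sepKΩ hKF
  haveI : IsSepClosed (Sep F) := IsSepClosure.sep_closed K
  obtain ⟨hdeg, hmon⟩ := cubT_deg a2 a4 a6
  haveI hfin : Module.Finite k[X] (BR a2 a4 a6) := hmon.finite_adjoinRoot
  haveI hfree : Module.Free k[X] (BR a2 a4 a6) := hmon.free_adjoinRoot
  have hinj : Function.Injective (algebraMap k[X] (BR a2 a4 a6)) :=
    FaithfulSMul.algebraMap_injective _ _
  have hinj2 : Function.Injective (algebraMap k[X] (FractionRing (BR a2 a4 a6))) := by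
    rw [IsScalarTower.algebraMap_eq k[X] (BR a2 a4 a6) (FractionRing (BR a2 a4 a6))]
    exact (IsFractionRing.injective (BR a2 a4 a6) (FractionRing (BR a2 a4 a6))).comp hinj
  letI : Algebra K (FractionRing (BR a2 a4 a6)) := (IsFractionRing.lift hinj2).toAlgebra
  haveI : IsScalarTower k[X] K (FractionRing (BR a2 a4 a6)) :=
    IsScalarTower.of_algebraMap_eq fun x => (IsFractionRing.lift_algebraMap hinj2 x).symm
  have hDK : algebraMap k[X] K D ≠ 0 := by
    rw [Ne, map_eq_zero_iff _ (IsFractionRing.injective k[X] K)]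
    exact hD.1
  set N := FractionRing (BR a2 a4 a6) with hN
  set d : N := algebraMap K N (algebraMap k[X] K D) with hd
  have hd0 : d ≠ 0 := (_root_.map_ne_zero _).2 hDK
  set θ : N := algebraMap (BR a2 a4 a6) N (AdjoinRoot.root _) with hθ
  have hθ0 : cub (twc K a2 a4 a6 D) (d * θ) = 0 := by
    have e := cub_tw (L := N) (algebraMap k[X] K a2) (algebraMap k[X] K a4)
      (algebraMap k[X] K a6) (algebraMap k[X] K D) θ
    rw [root_cub, mul_zero] at e
    rw [← e]
    simp only [twc, map_mul, map_pow, hd]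
  have hNtop : IntermediateField.adjoin K {d * θ} = ⊤ := by
    rw [eq_top_iff, ← adj_top (k := k) (K := K) (N := N) (a2 := a2) (a4 := a4) (a6 := a6),
      IntermediateField.adjoin_le_iff, Set.singleton_subset_iff]
    have h1 : θ = algebraMap K N (algebraMap k[X] K D)⁻¹ * (d * θ) := by
      rw [map_inv₀, ← hd, inv_mul_cancel_left₀ hd0]
    have h3 := mul_mem (IntermediateField.algebraMap_mem (IntermediateField.adjoin K {d * θ})
      (algebraMap k[X] K D)⁻¹) (IntermediateField.mem_adjoin_simple_self K (d * θ))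
    rw [← h1] at h3
    exact h3
  have hΔ := disc_tw (K := K) hB.disc hD.1
  obtain ⟨-, hsep⟩ := sepN (N := N) rfl rfl hΔ hθ0 hNtop
  let φ : N →ₐ[K] Sep F := IsSepClosed.lift
  letI : Algebra N (Sep F) := φ.toRingHom.toAlgebra
  haveI : IsScalarTower K N (Sep F) := IsScalarTower.of_algebraMap_eq fun x => (φ.commutes x).symm
  have key := baseN (N := N) (R := BR a2 a4 a6) hT h2 (a2 := D * a2) (a4 := D ^ 2 * a4)
    (a6 := D ^ 3 * a6) (fun v hv => locSm_tw hKF hB.smooth v
      (twist_notMem hD.1 (fun π h1 h2 => inertP_of (hD.2 π h1 h2)) hv)) hΔ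
    (no_root hKF hDK (hB.irreducible k')) hθ0 hNtop hfin inferInstance (fun z hz hv => by
      obtain ⟨c, w, hc, hw, e⟩ := even_of_ideals hB.ideals hB.units hz hv
      refine ⟨c, w, hc, hw, ?_⟩
      rw [e, IsScalarTower.algebraMap_apply k[X] (BR a2 a4 a6) N,
        IsScalarTower.algebraMap_apply k k[X] (BR a2 a4 a6)]
      rfl)
  have hsub : VSet (k := k) (k' := k') (InertP (k := k) (BR a2 a4 a6)) ⊆
      VSet (k := k) (k' := k') (IsInert a2 a4 a6) := fun v hv π hπ => hv π (inertP_of hπ)
  exact triv_mono hsub key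

end main

end Pool.Agent.K6.H71.PG
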